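import Pool.Agent.Lib.MP_94aef8_gt.Cube

/-!
Pointwise linear algebra.
-/

open Matrix

namespace Pool.Agent.Lib.MP_94aef8_gt

variable {G J h h' k k' : Mat}

theorem lin_aux_tr (hJ : IsUnit J.det) : IsUnit Jᵀ.det := by rwa [det_transpose]

theorem lin_inv_conj (hJ : IsUnit J.det) (G X : Mat) :
    (Jᵀ * G * J)⁻¹ * (Jᵀ * X * J) = J⁻¹ * (G⁻¹ * X) * J := by
  simp only [Matrix.mul_inv_rev, Matrix.mul_assoc,
    nonsing_inv_mul_cancel_left _ _ (lin_aux_tr hJ)]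

theorem lin_trace_conj (hJ : IsUnit J.det) (A : Mat) : (J⁻¹ * A * J).trace = A.trace := by
  rw [trace_mul_cycle, mul_nonsing_inv J hJ, Matrix.one_mul]

theorem lin_tr_conj (hJ : IsUnit J.det) (G h : Mat) :
    ((Jᵀ * G * J)⁻¹ * (Jᵀ * h * J)).trace = (G⁻¹ * h).trace := by
  rw [lin_inv_conj hJ, lin_trace_conj hJ]

theorem lin_ipM_conj (hJ : IsUnit J.det) (G h k : Mat) :
    ipM (Jᵀ * G * J) (Jᵀ * h * J) (Jᵀ * k * J) = ipM G h k := by
  have e : (Jᵀ * k * J)ᵀ = Jᵀ * kᵀ * J := by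
    rw [transpose_mul, transpose_mul, transpose_transpose, Matrix.mul_assoc]
  rw [ipM, ipM, e, Matrix.mul_assoc _ (Jᵀ * G * J)⁻¹, lin_inv_conj hJ, lin_inv_conj hJ,
    ← lin_trace_conj hJ (G⁻¹ * h * G⁻¹ * kᵀ)]
  simp only [Matrix.mul_assoc, mul_nonsing_inv_cancel_left _ _ hJ]

theorem lin_mulH_conj (hJ : IsUnit J.det) (G h k : Mat) :
    Jᵀ * h * J * (Jᵀ * G * J)⁻¹ * (Jᵀ * k * J) = Jᵀ * (h * G⁻¹ * k) * J := by
  rw [Matrix.mul_assoc _ (Jᵀ * G * J)⁻¹, lin_inv_conj hJ]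
  simp only [Matrix.mul_assoc, mul_nonsing_inv_cancel_left _ _ hJ]

theorem lin_ipV_conj (hJ : IsUnit J.det) (G : Mat) (X Y : Fin 4 → ℝ) :
    (J⁻¹ *ᵥ X) ⬝ᵥ (Jᵀ * G * J) *ᵥ (J⁻¹ *ᵥ Y) = X ⬝ᵥ G *ᵥ Y := by
  have e : ∀ Z : Fin 4 → ℝ, J *ᵥ J⁻¹ *ᵥ Z = Z := fun Z => by
    rw [mulVec_mulVec, mul_nonsing_inv J hJ, one_mulVec]
  rw [← mulVec_mulVec, ← mulVec_mulVec, e, dotProduct_mulVec, vecMul_transpose, e]

theorem lin_sqrt_conj (J G : Mat) : √(Jᵀ * G * J).det = |J.det| * √G.det := by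
  rw [det_mul, det_mul, det_transpose, mul_right_comm, Real.sqrt_mul (mul_self_nonneg _),
    Real.sqrt_mul_self_eq_abs]

theorem lin_ipM_add_left (G h h' k : Mat) : ipM G (h + h') k = ipM G h k + ipM G h' k := by
  simp only [ipM, Matrix.mul_add, Matrix.add_mul, trace_add]

theorem lin_ipM_add_right (G h k k' : Mat) : ipM G h (k + k') = ipM G h k + ipM G h k' := by
  simp only [ipM, transpose_add, Matrix.mul_add, trace_add]

theorem lin_ipM_sub_left (G h h' k : Mat) : ipM G (h - h') k = ipM G h k - ipM G h' k := by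
  simp only [ipM, Matrix.mul_sub, Matrix.sub_mul, trace_sub]

theorem lin_ipM_sub_right (G h k k' : Mat) : ipM G h (k - k') = ipM G h k - ipM G h k' := by
  simp only [ipM, transpose_sub, Matrix.mul_sub, trace_sub]

theorem lin_ipM_smul_left (G h k : Mat) (c : ℝ) : ipM G (c • h) k = c * ipM G h k := by
  simp only [ipM, Matrix.mul_smul, Matrix.smul_mul, trace_smul, smul_eq_mul]

theorem lin_ipM_smul_right (G h k : Mat) (c : ℝ) : ipM G h (c • k) = c * ipM G h k := by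
  simp only [ipM, transpose_smul, Matrix.mul_smul, trace_smul, smul_eq_mul]

theorem lin_ipM_zero_left (G k : Mat) : ipM G 0 k = 0 := by
  simp only [ipM, Matrix.mul_zero, Matrix.zero_mul, trace_zero]

theorem lin_ipM_zero_right (G h : Mat) : ipM G h 0 = 0 := by
  simp only [ipM, transpose_zero, Matrix.mul_zero, trace_zero]

theorem lin_inv_smul (G : Mat) {c : ℝ} (hc : c ≠ 0) : (c • G)⁻¹ = c⁻¹ • G⁻¹ := by
  have e : (c • (1 : Mat))⁻¹ = c⁻¹ • (1 : Mat) := inv_eq_right_inv (by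
    rw [Matrix.smul_mul, Matrix.mul_smul, smul_smul, mul_inv_cancel₀ hc, one_smul, Matrix.one_mul])
  rw [← Matrix.one_mul G, ← Matrix.smul_mul, Matrix.mul_inv_rev, e, Matrix.mul_smul, Matrix.mul_one,
    Matrix.one_mul]

theorem lin_ipM_scale (G h k : Mat) {c : ℝ} (hc : c ≠ 0) :
    ipM (c • G) h k = (c ^ 2)⁻¹ * ipM G h k := by
  simp only [ipM, lin_inv_smul G hc, Matrix.mul_smul, Matrix.smul_mul, trace_smul, smul_eq_mul]
  ring

theorem lin_ipM_comm (hG : G.IsSymm) (h k : Mat) : ipM G h k = ipM G k h := by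
  have e : (G⁻¹ * h * G⁻¹ * kᵀ)ᵀ = k * G⁻¹ * hᵀ * G⁻¹ := by
    simp only [transpose_mul, transpose_transpose, transpose_nonsing_inv, hG.eq, Matrix.mul_assoc]
  rw [ipM, ipM, ← trace_transpose, e, trace_mul_comm]
  simp only [Matrix.mul_assoc]

theorem lin_ipM_transpose (hG : G.IsSymm) (h k : Mat) : ipM G hᵀ kᵀ = ipM G h k := by
  have e : (G⁻¹ * h * G⁻¹ * kᵀ)ᵀ = k * (G⁻¹ * hᵀ * G⁻¹) := by
    simp only [transpose_mul, transpose_transpose, transpose_nonsing_inv, hG.eq, Matrix.mul_assoc]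
  rw [ipM, ipM, ← trace_transpose (G⁻¹ * h * G⁻¹ * kᵀ), e, trace_mul_comm k, transpose_transpose]

theorem lin_symm (hG : G.PosDef) : G.IsSymm := by
  have h := hG.isHermitian.eq
  rwa [conjTranspose_eq_transpose_of_trivial] at h

open scoped MatrixOrder in
/-- A positive matrix is `Bᵀ B` with `B` invertible. -/
theorem lin_sqrt (hG : G.PosDef) : ∃ B : Mat, IsUnit B.det ∧ G = Bᵀ * B := by
  obtain ⟨B, hB⟩ := CStarAlgebra.nonneg_iff_eq_star_mul_self.mp hG.posSemidef.nonneg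
  have hB' : G = Bᵀ * B := by
    rw [hB, star_eq_conjTranspose, conjTranspose_eq_transpose_of_trivial]
  refine ⟨B, isUnit_iff_ne_zero.2 fun h => ?_, hB'⟩
  have := hG.det_pos
  rw [hB', det_mul, h, mul_zero] at this
  exact lt_irrefl _ this

theorem lin_ipM_one (h k : Mat) : ipM 1 h k = ∑ i, ∑ j, h i j * k i j := by
  rw [ipM, inv_one, Matrix.one_mul, Matrix.mul_one]
  rfl

theorem lin_aux_red (hG : G.PosDef) (h : Mat) :
    ∃ B T : Mat, h = Bᵀ * T * B ∧ ipM G h h = ∑ i, ∑ j, T i j * T i j := by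
  obtain ⟨B, hB, rfl⟩ := lin_sqrt hG
  have e : h = Bᵀ * (Bᵀ⁻¹ * h * B⁻¹) * B := by
    simp only [Matrix.mul_assoc, nonsing_inv_mul B hB, Matrix.mul_one,
      mul_nonsing_inv_cancel_left _ _ (lin_aux_tr hB)]
  refine ⟨B, _, e, ?_⟩
  rw [← lin_ipM_one, ← lin_ipM_conj hB 1, ← e, Matrix.mul_one]

theorem lin_ipM_nonneg (hG : G.PosDef) (h : Mat) : 0 ≤ ipM G h h := by
  obtain ⟨B, T, -, e⟩ := lin_aux_red hG h
  rw [e]
  exact Finset.sum_nonneg fun i _ => Finset.sum_nonneg fun j _ => mul_self_nonneg _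

theorem lin_ipM_eq_zero (hG : G.PosDef) (e : ipM G h h = 0) : h = 0 := by
  obtain ⟨B, T, e1, e2⟩ := lin_aux_red hG h
  have h1 : T = 0 := by
    ext i j
    have h2 := (Finset.sum_eq_zero_iff_of_nonneg fun i _ =>
      Finset.sum_nonneg fun j _ => mul_self_nonneg (T i j)).1 (e2.symm.trans e) i (Finset.mem_univ i)
    exact mul_self_eq_zero.1 ((Finset.sum_eq_zero_iff_of_nonneg fun j _ =>
      mul_self_nonneg (T i j)).1 h2 j (Finset.mem_univ j))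
  rw [e1, h1, Matrix.mul_zero, Matrix.zero_mul]

theorem lin_ipM_cs (hG : G.PosDef) (h k : Mat) : ipM G h k ^ 2 ≤ ipM G h h * ipM G k k := by
  have h1 := discrim_le_zero (a := ipM G h h) (b := 2 * ipM G h k) (c := ipM G k k) fun x => by
    have := lin_ipM_nonneg hG (x • h + k)
    simp only [lin_ipM_add_left, lin_ipM_add_right, lin_ipM_smul_left, lin_ipM_smul_right,
      lin_ipM_comm (lin_symm hG) k h] at this
    linarith
  rw [discrim] at h1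
  linarith

theorem lin_ipM_amgm (hG : G.PosDef) (h k : Mat) {e : ℝ} (he : 0 < e) :
    2 * |ipM G h k| ≤ e * ipM G h h + e⁻¹ * ipM G k k := by
  have h1 := lin_ipM_nonneg hG h
  have h2 := lin_ipM_nonneg hG k
  have h3 : (e * ipM G h h + e⁻¹ * ipM G k k) ^ 2 =
      (e * ipM G h h - e⁻¹ * ipM G k k) ^ 2 + 4 * (ipM G h h * ipM G k k) := by
    field_simp
    ring
  rw [← abs_two, ← abs_mul]
  refine abs_le_of_sq_le_sq ?_ (by positivity)
  nlinarith [lin_ipM_cs hG h k, sq_nonneg (e * ipM G h h - e⁻¹ * ipM G k k)]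

theorem lin_ipM_add_le (hG : G.PosDef) (h k : Mat) :
    ipM G (h + k) (h + k) ≤ 2 * ipM G h h + 2 * ipM G k k := by
  have := lin_ipM_nonneg hG (h - k)
  simp only [lin_ipM_add_left, lin_ipM_add_right, lin_ipM_sub_left, lin_ipM_sub_right] at this ⊢
  linarith

theorem lin_aux1 (hG : G.PosDef) : IsUnit G.det := hG.det_pos.ne'.isUnit

theorem lin_ipM_G (hG : G.PosDef) (h : Mat) : ipM G h G = (G⁻¹ * h).trace := by
  rw [ipM, lin_symm hG, nonsing_inv_mul_cancel_right _ _ (lin_aux1 hG)]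

theorem lin_tr_sq_le (hG : G.PosDef) (h : Mat) : (G⁻¹ * h).trace ^ 2 ≤ 4 * ipM G h h := by
  have := lin_ipM_cs hG h G
  rw [lin_ipM_G hG, lin_ipM_G hG, nonsing_inv_mul _ (lin_aux1 hG), trace_one] at this
  simpa [mul_comm] using this

theorem lin_aux2 (hG : G.PosDef) (v : Fin 4 → ℝ) : 0 ≤ v ⬝ᵥ G *ᵥ v := by
  simpa using hG.posSemidef.dotProduct_mulVec_nonneg v

theorem lin_aux3 (hG : G.PosDef) {v : Fin 4 → ℝ} (hv : v ≠ 0) : 0 < v ⬝ᵥ G *ᵥ v := by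
  simpa using hG.dotProduct_mulVec_pos hv

theorem lin_aux4 (hG : G.PosDef) (h : Mat) (v : Fin 4 → ℝ) :
    ipM G h (vecMulVec (G *ᵥ v) (G *ᵥ v)) = v ⬝ᵥ h *ᵥ v := by
  rw [ipM, transpose_vecMulVec, mul_vecMulVec, trace_vecMulVec, mulVec_mulVec,
    nonsing_inv_mul_cancel_right _ _ (lin_aux1 hG), dotProduct_mulVec, ← mulVec_transpose,
    lin_symm hG, mulVec_mulVec, mul_nonsing_inv_cancel_left _ _ (lin_aux1 hG), dotProduct_comm]

/-- `|h(v, v)| ≤ |h| G(v, v)`. -/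
theorem lin_form_le (hG : G.PosDef) (h : Mat) (v : Fin 4 → ℝ) :
    |v ⬝ᵥ h *ᵥ v| ≤ √(ipM G h h) * (v ⬝ᵥ G *ᵥ v) := by
  have h1 := lin_ipM_cs hG h (vecMulVec (G *ᵥ v) (G *ᵥ v))
  rw [lin_aux4 hG, lin_aux4 hG, vecMulVec_mulVec, dotProduct_smul, dotProduct_comm (G *ᵥ v)] at h1
  refine abs_le_of_sq_le_sq ?_ (mul_nonneg (Real.sqrt_nonneg _) (lin_aux2 hG v))
  rw [mul_pow, Real.sq_sqrt (lin_ipM_nonneg hG h)]
  simpa [sq] using h1

theorem lin_posDef_add (hG : G.PosDef) (hs : h.IsSymm) (e : ipM G h h < 1) : (G + h).PosDef := by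
  refine .of_dotProduct_mulVec_pos (hG.1.add (isHermitian_iff_isSymm.2 hs)) fun v hv => ?_
  have h1 := (abs_le.1 (lin_form_le hG h v)).1
  have h2 := mul_lt_mul_of_pos_right ((Real.sqrt_lt' one_pos).2 (e.trans_eq (one_pow 2).symm))
    (lin_aux3 hG hv)
  rw [star_trivial, add_mulVec, dotProduct_add]
  linarith

theorem lin_aux5 {A A' P : Mat} {C : ℝ} (hP : P.PosDef)
    (hC : ∀ v : Fin 4 → ℝ, v ⬝ᵥ A *ᵥ v ≤ C * (v ⬝ᵥ A' *ᵥ v)) (h : Mat) :
    (A * h * P * hᵀ).trace ≤ C * (A' * h * P * hᵀ).trace := by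
  obtain ⟨B, -, rfl⟩ := lin_sqrt hP
  have h1 : ∀ A : Mat, (A * h * (Bᵀ * B) * hᵀ).trace =
      ∑ j, (B * hᵀ) j ⬝ᵥ A *ᵥ (B * hᵀ) j := fun A => by
    have : A * h * (Bᵀ * B) * hᵀ = A * (B * hᵀ)ᵀ * (B * hᵀ) := by simp [Matrix.mul_assoc]
    rw [this, trace_mul_comm]
    rfl
  rw [h1, h1, Finset.mul_sum]
  exact Finset.sum_le_sum fun j _ => hC _

theorem lin_aux6 {G' : Mat} (hG : G.PosDef) (hG' : G'.PosDef) {C : ℝ}
    (hC : ∀ v : Fin 4 → ℝ, v ⬝ᵥ G' *ᵥ v ≤ C * (v ⬝ᵥ G *ᵥ v)) (h : Mat) :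
    ipM G h h ≤ C ^ 2 * ipM G' h h := by
  have h0 : 0 < C := pos_of_mul_pos_left
    ((lin_aux3 hG' one_ne_zero).trans_le (hC 1)) (lin_aux2 hG 1)
  have h1 : ∀ w : Fin 4 → ℝ, w ⬝ᵥ G⁻¹ *ᵥ w ≤ C * (w ⬝ᵥ G'⁻¹ *ᵥ w) := fun w => by
    have a1 := lin_aux2 hG' (C • G'⁻¹ *ᵥ w - G⁻¹ *ᵥ w)
    have a2 := hC (G⁻¹ *ᵥ w)
    have a3 : (G'⁻¹ *ᵥ w) ⬝ᵥ G' *ᵥ G⁻¹ *ᵥ w = w ⬝ᵥ G⁻¹ *ᵥ w := by
      rw [dotProduct_mulVec, ← mulVec_transpose, lin_symm hG', mulVec_mulVec,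
        mul_nonsing_inv _ (lin_aux1 hG'), one_mulVec]
    rw [mulVec_mulVec _ G, mul_nonsing_inv _ (lin_aux1 hG), one_mulVec,
      dotProduct_comm _ w] at a2
    rw [mulVec_sub, mulVec_smul, mulVec_mulVec _ G' G'⁻¹, mul_nonsing_inv _ (lin_aux1 hG'),
      one_mulVec] at a1
    simp only [sub_dotProduct, dotProduct_sub, smul_dotProduct, dotProduct_smul, a3, smul_eq_mul,
      dotProduct_comm _ w] at a1
    exact le_of_mul_le_mul_left (by linarith) h0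
  have h2 := lin_aux5 hG.inv h1 h
  have h3 := lin_aux5 hG'.inv h1 hᵀ
  have h4 : ∀ A B : Mat, (A * hᵀ * B * hᵀᵀ).trace = (B * h * A * hᵀ).trace := fun A B => by
    rw [transpose_transpose, Matrix.mul_assoc, trace_mul_comm, ← Matrix.mul_assoc]
  rw [h4, h4] at h3
  rw [sq, mul_assoc]
  exact h2.trans (mul_le_mul_of_nonneg_left h3 h0.le)

/-- Comparison with the sum of squares, upper bound: `G⁻¹ ≤ C`. -/
theorem lin_ipM_le (hG : G.PosDef) {C : ℝ} (hC : ∀ v : Fin 4 → ℝ, v ⬝ᵥ v ≤ C * (v ⬝ᵥ G *ᵥ v))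
    (h : Mat) : ipM G h h ≤ C ^ 2 * ∑ i, ∑ j, h i j ^ 2 := by
  simpa only [lin_ipM_one, sq (h _ _)] using lin_aux6 hG .one (by simpa using hC) h

/-- Comparison with the sum of squares, lower bound: `G ≤ 4 C`. -/
theorem lin_le_ipM (hG : G.PosDef) {C : ℝ} (hC : ∀ i j, |G i j| ≤ C) (h : Mat) :
    ∑ i, ∑ j, h i j ^ 2 ≤ 16 * C ^ 2 * ipM G h h := by
  have h1 := lin_aux6 .one hG (C := 4 * C) (fun v => by
    have : ∀ i j, v i * (G i j * v j) ≤ C * (v i * v i + v j * v j) / 2 := fun i j => by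
      nlinarith [mul_nonneg (sub_nonneg.2 (abs_le.1 (hC i j)).2) (sq_nonneg (v i + v j)),
        mul_nonneg (sub_nonneg.2 (abs_le.1 (hC i j)).1) (sq_nonneg (v i - v j))]
    rw [one_mulVec]
    simp only [dotProduct, mulVec, Finset.mul_sum]
    refine (Finset.sum_le_sum fun i _ => Finset.sum_le_sum fun j _ => this i j).trans_eq ?_
    simp only [Fin.sum_univ_four]
    ring) h
  simp only [lin_ipM_one, ← sq] at h1
  linarith

theorem lin_aux_diag {A : Mat} (hA : A.IsSymm) :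
    ∃ (U : Mat) (t : Fin 4 → ℝ), Uᵀ * U = 1 ∧ A = Uᵀ * diagonal t * U := by
  have hH : A.IsHermitian := by
    rw [IsHermitian, conjTranspose_eq_transpose_of_trivial]
    exact hA
  refine ⟨(hH.eigenvectorUnitary : Mat)ᵀ, hH.eigenvalues, ?_, ?_⟩
  · rw [transpose_transpose, ← conjTranspose_eq_transpose_of_trivial]
    exact Unitary.coe_mul_star_self hH.eigenvectorUnitary
  · rw [transpose_transpose, ← conjTranspose_eq_transpose_of_trivial]
    exact hH.spectral_theorem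

theorem lin_aux_frame (hG : G.PosDef) (hs : h.IsSymm) : ∃ (J : Mat) (t : Fin 4 → ℝ),
    IsUnit J.det ∧ G = Jᵀ * 1 * J ∧ h = Jᵀ * diagonal t * J := by
  obtain ⟨B, hB, rfl⟩ := lin_sqrt hG
  obtain ⟨U, t, h1, h2⟩ := lin_aux_diag (A := B⁻¹ᵀ * h * B⁻¹) (by
    rw [IsSymm, transpose_mul, transpose_mul, transpose_transpose, hs.eq, Matrix.mul_assoc])
  refine ⟨U * B, t, ?_, ?_, ?_⟩
  · rw [det_mul]
    exact (isUnit_det_of_left_inverse h1).mul hB
  · rw [Matrix.mul_one, transpose_mul, Matrix.mul_assoc, ← Matrix.mul_assoc Uᵀ, h1, Matrix.one_mul]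
  · have h3 : (U * B)ᵀ * diagonal t * (U * B) = (B⁻¹ * B)ᵀ * h * (B⁻¹ * B) := by
      have h4 := congrArg (fun X => Bᵀ * X * B) h2
      simpa only [transpose_mul, Matrix.mul_assoc] using h4.symm
    rw [h3, nonsing_inv_mul _ hB, transpose_one, Matrix.one_mul, Matrix.mul_one]

theorem lin_aux_exp {a b c d : ℝ} (e : a * a + b * b + c * c + d * d ≤ 1 / 4) :
    |√((1 + a) * (1 + b) * (1 + c) * (1 + d)) - 1 - (a + b + c + d) / 2| ≤
      10 * (a * a + b * b + c * c + d * d) := by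
  have k : ∀ {x : ℝ}, x * x ≤ 1 / 4 → |x| ≤ 1 / 2 := fun hx =>
    abs_le_of_sq_le_sq (by linarith) (by norm_num)
  have a0 := mul_self_nonneg a
  have b0 := mul_self_nonneg b
  have c0 := mul_self_nonneg c
  have d0 := mul_self_nonneg d
  obtain ⟨a1, a2⟩ := abs_le.1 (k (x := a) (by linarith))
  obtain ⟨b1, b2⟩ := abs_le.1 (k (x := b) (by linarith))
  obtain ⟨c1, c2⟩ := abs_le.1 (k (x := c) (by linarith))
  obtain ⟨d1, d2⟩ := abs_le.1 (k (x := d) (by linarith))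
  have m : ∀ {x y z : ℝ}, -1 ≤ z → z ≤ 1 → |x * y * z| ≤ (x * x + y * y) / 2 := fun {x y z} h1 h2 => by
    rw [abs_mul]
    refine (mul_le_of_le_one_right (abs_nonneg _) (abs_le.2 ⟨h1, h2⟩)).trans (abs_le.2 ⟨?_, ?_⟩)
    · linarith [mul_self_nonneg (x + y)]
    · linarith [mul_self_nonneg (x - y)]
  obtain ⟨u1, u2⟩ := abs_le.1 (m (x := a) (y := b) (z := c + d) (by linarith) (by linarith))
  obtain ⟨v1, v2⟩ := abs_le.1 (m (x := c) (y := d) (z := a + b) (by linarith) (by linarith))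
  obtain ⟨w1, w2⟩ := abs_le.1 (m (x := a) (y := b) (z := c * d)
    (by linarith [mul_self_nonneg (c + d)]) (by linarith [mul_self_nonneg (c - d)]))
  have s1 : (a + b + c + d) ^ 2 ≤ 4 * (a * a + b * b + c * c + d * d) := by
    linarith [mul_self_nonneg (a - b), mul_self_nonneg (a - c), mul_self_nonneg (a - d),
      mul_self_nonneg (b - c), mul_self_nonneg (b - d), mul_self_nonneg (c - d)]
  have s2 := (abs_le.1 (abs_le_of_sq_le_sq (a := a + b + c + d) (b := 1) (by linarith)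
    zero_le_one)).1
  have hP : 0 ≤ (1 + a) * (1 + b) * (1 + c) * (1 + d) :=
    mul_nonneg (mul_nonneg (mul_nonneg (by linarith) (by linarith)) (by linarith)) (by linarith)
  have y0 := Real.sqrt_nonneg ((1 + a) * (1 + b) * (1 + c) * (1 + d))
  have y1 := Real.mul_self_sqrt hP
  generalize √((1 + a) * (1 + b) * (1 + c) * (1 + d)) = y at y0 y1
  have h1 : |(y - 1 - (a + b + c + d) / 2) * (y + 1 + (a + b + c + d) / 2)| ≤
      5 * (a * a + b * b + c * c + d * d) :=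
    abs_le.2 ⟨by linarith [sq_nonneg (a + b + c + d)], by linarith [sq_nonneg (a + b + c + d)]⟩
  rw [abs_mul, abs_of_nonneg (a := y + 1 + _) (by linarith)] at h1
  linarith [mul_le_mul_of_nonneg_left (show 1 / 2 ≤ y + 1 + (a + b + c + d) / 2 by linarith)
    (abs_nonneg (y - 1 - (a + b + c + d) / 2))]

/-- Expansion of the volume density: in a frame with `G = 1` and `h` diagonal with entries `t i`,
`∑ t i ^ 2 ≤ 1 / 4`, this is `|∏ √(1 + t i) - 1 - ∑ t i / 2| ≤ 10 ∑ t i ^ 2`. -/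
theorem lin_det_exp (hG : G.PosDef) (hs : h.IsSymm) (e : ipM G h h ≤ 1 / 4) :
    |√((G + h).det / G.det) - 1 - (G⁻¹ * h).trace / 2| ≤ 10 * ipM G h h := by
  obtain ⟨J, t, hJ, rfl, rfl⟩ := lin_aux_frame hG hs
  have h1 : ipM (Jᵀ * 1 * J) (Jᵀ * diagonal t * J) (Jᵀ * diagonal t * J) =
      t 0 * t 0 + t 1 * t 1 + t 2 * t 2 + t 3 * t 3 := by
    rw [lin_ipM_conj hJ, lin_ipM_one]
    simp [Fin.sum_univ_four]
  have h2 : (Jᵀ * 1 * J + Jᵀ * diagonal t * J).det / (Jᵀ * 1 * J).det =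
      (1 + t 0) * (1 + t 1) * (1 + t 2) * (1 + t 3) := by
    rw [← Matrix.add_mul, ← Matrix.mul_add, ← diagonal_one, diagonal_add, det_mul, det_mul, det_mul,
      det_mul, det_transpose, det_diagonal, det_diagonal, Fin.prod_univ_four, Finset.prod_const_one]
    have := hJ.ne_zero
    field_simp
  rw [h1] at e
  rw [h1, h2, lin_tr_conj hJ, inv_one, Matrix.one_mul, trace_diagonal, Fin.sum_univ_four]
  exact lin_aux_exp e

end Pool.Agent.Lib.MP_94aef8_gt
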