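import Pool.Agent.Lib.MP_94aef8_gt.C.Smooth

/-!
Construction of fields: gluing, extension by zero, limits.
-/

open scoped Manifold ContDiff Topology
open Matrix Filter Set

namespace Pool.Agent.Lib.MP_94aef8_gt

variable {M : Type} [TopologicalSpace M] [ChartedSpace E4 M]

/-- The tensor at `π y` with components `A` in the patch `π`. -/
noncomputable def unp (π : E4 → M) (y : E4) (A : Mat) : Mat := ((jm π y)⁻¹)ᵀ * A * (jm π y)⁻¹

open Classical in
/-- Extension by zero of the components `H` on `U`. -/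
noncomputable def gext (π : E4 → M) (U : Set E4) (H : Tn) (x : M) : Mat :=
  if e : ∃ y ∈ U, π y = x then unp π e.choose (H e.choose) else 0

open Classical in
/-- Extension by zero of a function on `U`. -/
noncomputable def fext (π : E4 → M) (U : Set E4) (φ : Fn) (x : M) : ℝ :=
  if e : ∃ y ∈ U, π y = x then φ e.choose else 0

variable {π : E4 → M} {U K : Set E4} {H H' : Tn} {φ : Fn} {y : E4}

theorem Pt.conj_unp (hπ : Pt π U) (hy : y ∈ U) (A : Mat) :
    (jm π y)ᵀ * unp π y A * jm π y = A := by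
  have hu := hπ.isUnit hy
  have h1 : (jm π y)ᵀ * ((jm π y)⁻¹)ᵀ = 1 := by
    rw [← transpose_mul, Matrix.nonsing_inv_mul _ hu, transpose_one]
  calc _ = (jm π y)ᵀ * ((jm π y)⁻¹)ᵀ * A * ((jm π y)⁻¹ * jm π y) := by
        simp only [unp, Matrix.mul_assoc]
    _ = A := by rw [h1, Matrix.nonsing_inv_mul _ hu, Matrix.one_mul, Matrix.mul_one]

theorem Pt.unp_gpull (hπ : Pt π U) (hy : y ∈ U) (h : M → Mat) :
    unp π y (gpull π h y) = h (π y) := by
  have hu := hπ.isUnit hy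
  have h1 : ((jm π y)⁻¹)ᵀ * (jm π y)ᵀ = 1 := by
    rw [← transpose_mul, Matrix.mul_nonsing_inv _ hu, transpose_one]
  calc _ = ((jm π y)⁻¹)ᵀ * (jm π y)ᵀ * h (π y) * (jm π y * (jm π y)⁻¹) := by
        simp only [unp, gpull, Matrix.mul_assoc]
    _ = _ := by rw [h1, Matrix.mul_nonsing_inv _ hu, Matrix.one_mul, Matrix.mul_one]

theorem gext_apply (hi : InjOn π U) (hy : y ∈ U) (H : Tn) :
    gext π U H (π y) = unp π y (H y) := by
  have e : ∃ z ∈ U, π z = π y := ⟨y, hy, rfl⟩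
  rw [gext, dif_pos e, hi e.choose_spec.1 hy e.choose_spec.2]

theorem Pt.gpull_gext (hπ : Pt π U) (hi : InjOn π U) (hy : y ∈ U) (H : Tn) :
    gpull π (gext π U H) y = H y := by
  rw [gpull, gext_apply hi hy, hπ.conj_unp hy]

theorem gext_zero {x : M} (h0 : ∀ y ∈ U, y ∉ K → H y = 0) (hx : x ∉ π '' K) :
    gext π U H x = 0 := by
  rw [gext]
  split_ifs with e
  · rw [h0 _ e.choose_spec.1 fun h => hx ⟨_, h, e.choose_spec.2⟩, unp, Matrix.mul_zero,
      Matrix.zero_mul]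
  · rfl

theorem gext_add (π : E4 → M) (U : Set E4) (H H' : Tn) :
    gext π U (H + H') = gext π U H + gext π U H' := by
  funext x
  simp only [gext, Pi.add_apply]
  split_ifs with e
  · simp only [unp, Matrix.mul_add, Matrix.add_mul]
  · rw [add_zero]

theorem gext_smul (π : E4 → M) (U : Set E4) (c : ℝ) (H : Tn) :
    gext π U (c • H) = c • gext π U H := by
  funext x
  simp only [gext, Pi.smul_apply]
  split_ifs with e
  · simp only [unp, Matrix.mul_smul, Matrix.smul_mul]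
  · rw [smul_zero]

theorem gext_congr (e : ∀ y ∈ U, H y = H' y) : gext π U H = gext π U H' := by
  funext x
  simp only [gext]
  split_ifs with h
  · rw [e _ h.choose_spec.1]
  · rfl

theorem gext_symm (hs : ∀ y ∈ U, (H y).IsSymm) (x : M) : (gext π U H x).IsSymm := by
  rw [gext]
  split_ifs with e
  · simp only [Matrix.IsSymm, unp, transpose_mul, transpose_transpose, (hs _ e.choose_spec.1).eq,
      Matrix.mul_assoc]
  · exact Matrix.isSymm_zero

theorem fext_apply (hi : InjOn π U) (hy : y ∈ U) (φ : Fn) : fext π U φ (π y) = φ y := by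
  have e : ∃ z ∈ U, π z = π y := ⟨y, hy, rfl⟩
  rw [fext, dif_pos e, hi e.choose_spec.1 hy e.choose_spec.2]

theorem fext_zero {x : M} (h0 : ∀ y ∈ U, y ∉ K → φ y = 0) (hx : x ∉ π '' K) :
    fext π U φ x = 0 := by
  rw [fext]
  split_ifs with e
  · exact h0 _ e.choose_spec.1 fun h => hx ⟨_, h, e.choose_spec.2⟩
  · rfl

variable [IsManifold (𝓡 4) ∞ M]

theorem glue_aux1 [T2Space M] (hπ : Pt π U) (hK : IsCompact K) (hKU : K ⊆ U) {x : M}
    (e : ¬∃ y ∈ U, π y = x) : ∃ V, Pt (ch x) V ∧ c0 x ∈ V ∧ ∀ z ∈ V, ch x z ∉ π '' K := by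
  have h1 : IsOpen (π '' K)ᶜ :=
    (hK.image_of_continuousOn (hπ.continuousOn.mono hKU)).isClosed.isOpen_compl
  refine ⟨(chartAt E4 x).target ∩ ch x ⁻¹' (π '' K)ᶜ, (pt_ch x).mono
    ((pt_ch x).continuousOn.isOpen_inter_preimage (pt_ch x).isOpen h1) inter_subset_left,
    ⟨c0_mem x, ?_⟩, fun z hz => hz.2⟩
  rw [mem_preimage, ch_c0]
  rintro ⟨y, hy, h2⟩
  exact e ⟨y, hKU hy, h2⟩

/-- `smG_of_patches`: at a point of `π '' U` use `π`; at another point `x` the field vanishes on the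
open set `(π '' K)ᶜ`, use `ch x` restricted to its preimage. -/
theorem Pt.smG_gext [T2Space M] (hπ : Pt π U) (hi : InjOn π U) (hH : SmT H U) (hK : IsCompact K)
    (hKU : K ⊆ U) (h0 : ∀ y ∈ U, y ∉ K → H y = 0) : SmG (gext π U H) := by
  refine smG_of_patches fun x => ?_
  by_cases e : ∃ y ∈ U, π y = x
  · obtain ⟨y, hy, rfl⟩ := e
    exact ⟨π, U, y, hπ, hy, rfl, smo_congr hH fun z hz => hπ.gpull_gext hi hz H⟩
  · obtain ⟨V, h1, h2, h3⟩ := glue_aux1 hπ hK hKU e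
    refine ⟨ch x, V, c0 x, h1, h2, ch_c0 x, smo_congr (smo_const 0 V) fun z hz => ?_⟩
    rw [gpull, gext_zero h0 (h3 z hz), Matrix.mul_zero, Matrix.zero_mul]

theorem Pt.sm_fext [T2Space M] (hπ : Pt π U) (hi : InjOn π U) (hφ : ContDiffOn ℝ ∞ φ U)
    (hK : IsCompact K) (hKU : K ⊆ U) (h0 : ∀ y ∈ U, y ∉ K → φ y = 0) : Sm (fext π U φ) := by
  refine sm_of_patches fun x => ?_
  by_cases e : ∃ y ∈ U, π y = x
  · obtain ⟨y, hy, rfl⟩ := e
    exact ⟨π, U, y, hπ, hy, rfl, hφ.congr fun z hz => fext_apply hi hz φ⟩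
  · obtain ⟨V, h1, h2, h3⟩ := glue_aux1 hπ hK hKU e
    exact ⟨ch x, V, c0 x, h1, h2, ch_c0 x,
      (contDiffOn_const (c := (0 : ℝ))).congr fun z hz => fext_zero h0 (h3 z hz)⟩

/-- Gluing of compatible components: put `h x = unp (π i) y (H i y)` for a chosen `π i y = x`;
`Pt.exists_trs`, `Trs.jm`. -/
theorem exists_glue {ι : Type} {π : ι → E4 → M} {U : ι → Set E4} {H : ι → Tn}
    (hπ : ∀ i, Pt (π i) (U i)) (hc : ∀ x, ∃ i, ∃ y ∈ U i, π i y = x) (hH : ∀ i, SmT (H i) (U i))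
    (he : ∀ i j τ V, Trs (π i) (π j) (U j) τ V → V ⊆ U i → ∀ y ∈ V, H i y = pull τ (H j) y) :
    ∃ h : M → Mat, SmG h ∧ ∀ i, ∀ y ∈ U i, gpull (π i) h y = H i y := by
  choose j z hz e using hc
  have key : ∀ i, ∀ y ∈ U i,
      gpull (π i) (fun x => unp (π (j x)) (z x) (H (j x) (z x))) y = H i y := by
    intro i y hy
    obtain ⟨τ, V, t, h1, h2, h3⟩ := (hπ i).exists_trs (hπ (j (π i y))) hy (hz _) (e _).symm
    rw [he i _ τ V t h2 y h1, t.gpull h1, pull, pull, h3, gpull, e, (hπ _).conj_unp (hz _)]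
  exact ⟨_, smG_of_patches fun x =>
    ⟨π (j x), U (j x), z x, hπ _, hz x, e x, smo_congr (hH _) (key _)⟩, key⟩

omit [IsManifold (𝓡 4) ∞ M] in
theorem tendsto_gpull {ι N : Type} [TopologicalSpace N] [ChartedSpace E4 N] {l : Filter ι}
    {u : ι → M → Mat} {h : M → Mat} (F : N → M) {z : N}
    (hu : Tendsto (fun i => u i (F z)) l (𝓝 (h (F z)))) :
    Tendsto (fun i => gpull F (u i) z) l (𝓝 (gpull F h z)) :=
  (hu.const_mul _).mul_const _

/-- Limits: `u i (π z) = unp π z (gpull π (u i) z)` converges; put `h x = lim`. -/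
theorem exists_limit {ι : Type} {l : Filter ι} [l.NeBot] {u : ι → M → Mat}
    (hu : ∀ x, ∃ (π : E4 → M) (U : Set E4) (y : E4) (H : Tn), Pt π U ∧ y ∈ U ∧ π y = x ∧ SmT H U ∧
      ∀ z ∈ U, Tendsto (fun i => gpull π (u i) z) l (𝓝 (H z))) :
    ∃ h : M → Mat, SmG h ∧ ∀ x, Tendsto (fun i => u i x) l (𝓝 (h x)) := by
  have h1 : ∀ x, ∃ A, Tendsto (fun i => u i x) l (𝓝 A) := fun x => by
    obtain ⟨π, U, y, H, hπ, hy, rfl, -, ht⟩ := hu x
    have h2 : Tendsto (fun i => unp π y (gpull π (u i) y)) l (𝓝 (unp π y (H y))) :=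
      ((ht y hy).const_mul _).mul_const _
    exact ⟨_, h2.congr fun i => hπ.unp_gpull hy (u i)⟩
  choose h hh using h1
  refine ⟨h, smG_of_patches fun x => ?_, hh⟩
  obtain ⟨π, U, y, H, hπ, hy, e, hH, ht⟩ := hu x
  exact ⟨π, U, y, hπ, hy, e, smo_congr hH fun z hz =>
    tendsto_nhds_unique (tendsto_gpull π (hh _)) (ht z hz)⟩

omit [IsManifold (𝓡 4) ∞ M] in
theorem invT_of_limit {ι : Type} {l : Filter ι} [l.NeBot] {S : Set (M → M)} {u : ι → M → Mat}
    {h : M → Mat} (hu : ∀ i, InvT S (u i)) (hh : SmG h)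
    (e : ∀ x, Tendsto (fun i => u i x) l (𝓝 (h x))) : InvT S h := by
  refine ⟨hh, fun x => ?_, fun F hF x => ?_⟩
  · have h1 : Tendsto (fun i => (u i x)ᵀ) l (𝓝 (h x)ᵀ) :=
      ((continuous_id.matrix_transpose).tendsto _).comp (e x)
    exact tendsto_nhds_unique (h1.congr fun i => ((hu i).symm x).eq) (e x)
  · exact tendsto_nhds_unique ((tendsto_gpull F (e _)).congr fun i => (hu i).inv F hF x) (e x)

end Pool.Agent.Lib.MP_94aef8_gt
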