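import Pool.Agent.Lib.MP_94aef8_gt.C.Vol2
import Pool.Agent.Lib.MP_94aef8_gt.C.Glue

/-!
A finite atlas of cubes with a partition of unity.
-/

open scoped Manifold ContDiff Topology ENNReal
open Matrix Filter Set MeasureTheory

namespace Pool.Agent.Lib.MP_94aef8_gt

/-- The closed cube. -/
def Qc (r : ℝ) : Set E4 := {y | ∀ i, |y i| ≤ r}

theorem atl_isOpen_Q (r : ℝ) : IsOpen (Q r) := by
  have e : Q r = ⋂ i, {y : E4 | |y i| < r} := by
    ext y
    simp [Q]
  rw [e]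
  exact isOpen_iInter_of_finite fun i => isOpen_lt (by fun_prop) continuous_const

theorem atlas_aux1 {r : ℝ} {y : E4} (h : y ∈ Qc r) : ‖y‖ ≤ 2 * r := by
  have h0 : 0 ≤ r := (abs_nonneg _).trans (h 0)
  have h1 : ∀ i, |y i| ^ 2 ≤ r ^ 2 := fun i => pow_le_pow_left₀ (abs_nonneg _) (h i) 2
  rw [EuclideanSpace.norm_eq, Real.sqrt_le_left (by positivity), Fin.sum_univ_four]
  simp only [Real.norm_eq_abs]
  linarith [h1 0, h1 1, h1 2, h1 3]

theorem atl_isCompact_Qc (r : ℝ) : IsCompact (Qc r) := by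
  have e : Qc r = ⋂ i, {y : E4 | |y i| ≤ r} := by
    ext y
    simp [Qc]
  refine Metric.isCompact_of_isClosed_isBounded ?_ ?_
  · rw [e]
    exact isClosed_iInter fun i => isClosed_le (by fun_prop) continuous_const
  · exact (Metric.isBounded_closedBall (x := (0 : E4)) (r := 2 * r)).subset fun y hy =>
      mem_closedBall_zero_iff.2 (atlas_aux1 hy)

theorem atl_Q_sub (r : ℝ) : Q r ⊆ Qc r := fun _ hy i => (hy i).le

theorem atl_Qc_sub {r r' : ℝ} (h : r < r') : Qc r ⊆ Q r' := fun _ hy i => (hy i).trans_lt h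

theorem atl_Q_mono {r r' : ℝ} (h : r ≤ r') : Q r ⊆ Q r' := fun _ hy i => (hy i).trans_le h

theorem atl_zero_mem {r : ℝ} (h : 0 < r) : (0 : E4) ∈ Q r := fun i => by simpa using h

variable {M : Type} [TopologicalSpace M] [ChartedSpace E4 M]

/-- Injective patches on the cube of radius 4 and a partition of unity carried by the closed cubes
of radius 1. -/
structure Atl {I : Type} [Fintype I] (Θ : I → E4 → M) (χ : I → M → ℝ) : Prop where
  pt : ∀ a, Pt (Θ a) (Q 4)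
  inj : ∀ a, InjOn (Θ a) (Q 4)
  sm : ∀ a, Sm (χ a)
  nonneg : ∀ a x, 0 ≤ χ a x
  zero : ∀ a x, x ∉ Θ a '' Qc 1 → χ a x = 0
  sum : ∀ x, ∑ a, χ a x = 1

variable [IsManifold (𝓡 4) ∞ M]

/-- A patch `y ↦ ch x (c0 x + e • y)` with small `e`. -/
theorem exists_cube (x : M) {W : Set M} (hW : W ∈ 𝓝 x) :
    ∃ Θ : E4 → M, Pt Θ (Q 4) ∧ InjOn Θ (Q 4) ∧ Θ 0 = x ∧ MapsTo Θ (Q 4) W := by
  have h1 : (chartAt E4 x).target ∩ ch x ⁻¹' W ∈ 𝓝 (c0 x) := by
    refine inter_mem ((chartAt E4 x).open_target.mem_nhds (c0_mem x)) ?_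
    refine ((pt_ch x).continuousAt (c0_mem x)).preimage_mem_nhds ?_
    rwa [ch_c0]
  obtain ⟨ε, hε, hb⟩ := Metric.mem_nhds_iff.1 h1
  have he : (0 : ℝ) < ε / 16 := by positivity
  let τ : E4 → E4 := fun y => c0 x + (ε / 16) • y
  have hm : ∀ y ∈ Q 4, τ y ∈ (chartAt E4 x).target ∩ ch x ⁻¹' W := fun y hy => by
    refine hb ?_
    have := atlas_aux1 (atl_Q_sub 4 hy)
    rw [mem_ball_iff_norm]
    simp only [τ, add_sub_cancel_left, norm_smul, Real.norm_eq_abs, abs_of_pos he]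
    nlinarith
  have hl : ∀ y, (ε / 16)⁻¹ • (τ y - c0 x) = y := fun y => by
    simp only [τ, add_sub_cancel_left, smul_smul, inv_mul_cancel₀ he.ne', one_smul]
  have hτ : Pt τ (Q 4) := by
    refine pt_of_inverse (F' := fun z => (ε / 16)⁻¹ • (z - c0 x)) (atl_isOpen_Q 4) ?_
      (fun y _ => ?_) fun y _ => hl y
    · have : ContDiff ℝ ∞ τ := by fun_prop
      exact this.contMDiff.contMDiffOn
    · have : DifferentiableAt ℝ (fun z : E4 => (ε / 16)⁻¹ • (z - c0 x)) (τ y) := by fun_prop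
      exact this.mdifferentiableAt
  refine ⟨ch x ∘ τ, (pt_ch x).comp hτ fun y hy => (hm y hy).1, fun y hy z hz e => ?_, ?_,
    fun y hy => (hm y hy).2⟩
  · have h2 : τ y = τ z := (chartAt E4 x).symm.injOn (hm y hy).1 (hm z hz).1 e
    rw [← hl y, h2, hl z]
  · simp only [Function.comp_apply, τ, smul_zero, add_zero, ch_c0]

variable [T2Space M] [CompactSpace M]

/-- `exists_cube`, smooth bump functions with support in `Θ x '' Q 1` (`Pt.image_mem_nhds`,
`SmoothBumpFunction.nhds_basis_tsupport`), a finite subcover of the supports, division by the sum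
(see `exists_sq_partition` in `Lib/MP_40de08_gt/Chart.lean`). -/
theorem exists_atl (W : M → Set M) (hW : ∀ x, W x ∈ 𝓝 x) : ∃ (I : Type) (_ : Fintype I)
    (Θ : I → E4 → M) (χ : I → M → ℝ), Atl Θ χ ∧ ∀ a, ∃ x, MapsTo (Θ a) (Q 4) (W x) := by
  choose Θ hp hi h0 hm using fun x => exists_cube x (hW x)
  have hU : ∀ z, Θ z '' Q 1 ∈ 𝓝 z := fun z => by
    have := (hp z).image_mem_nhds (atl_zero_mem (by norm_num))
      ((atl_isOpen_Q 1).mem_nhds (atl_zero_mem one_pos))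
    rwa [h0] at this
  have h1 : ∀ z : M, ∃ b : SmoothBumpFunction (𝓡 4) z, tsupport b ⊆ Θ z '' Q 1 := fun z => by
    obtain ⟨b, _, hb⟩ := (SmoothBumpFunction.nhds_basis_tsupport (I := 𝓡 4) z).mem_iff.1 (hU z)
    exact ⟨b, hb⟩
  choose b hb using h1
  obtain ⟨t, ht⟩ := CompactSpace.elim_nhds_subcover (fun z => Function.support (b z))
    fun z => (b z).support_mem_nhds
  set S : M → ℝ := fun x => ∑ z ∈ t, b z x with hS
  have hpos : ∀ x, 0 < S x := by
    intro x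
    have hx : x ∈ ⋃ z ∈ t, Function.support (b z) := by rw [ht]; exact mem_univ x
    obtain ⟨z, hz, hxz⟩ := mem_iUnion₂.1 hx
    exact Finset.sum_pos' (fun z _ => (b z).nonneg)
      ⟨z, hz, lt_of_le_of_ne (b z).nonneg (Ne.symm hxz)⟩
  have hSm : Sm S := contMDiff_finsetSum fun z _ => (b z).contMDiff
  have hR : Sm fun x => (S x)⁻¹ := by
    intro x
    have h2 : ContDiffAt ℝ ∞ (fun y : ℝ => y⁻¹) (S x) := contDiffAt_id.inv (hpos x).ne'
    exact h2.contMDiffAt.comp x (hSm x)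
  refine ⟨t, inferInstance, fun a => Θ a, fun a x => b a x * (S x)⁻¹,
    ⟨fun a => hp a, fun a => hi a, fun a => (b a).contMDiff.mul hR,
      fun a x => mul_nonneg (b a).nonneg (inv_nonneg.2 (hpos x).le), fun a x hx => ?_,
      fun x => ?_⟩, fun a => ⟨a, hm a⟩⟩
  · have : b a x = 0 := by
      by_contra hne
      exact hx (image_mono (atl_Q_sub 1) (hb a (subset_tsupport _ hne)))
    rw [this, zero_mul]
  · rw [← Finset.sum_mul, Finset.sum_coe_sort t fun z => b z x]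
    exact mul_inv_cancel₀ (hpos x).ne'

variable {I : Type} [Fintype I] {Θ : I → E4 → M} {χ : I → M → ℝ} {g h : M → Mat}

omit [IsManifold (𝓡 4) ∞ M] [T2Space M] [CompactSpace M] in
theorem Atl.cover (A : Atl Θ χ) (x : M) : ∃ a, ∃ y ∈ Qc 1, Θ a y = x := by
  by_contra hn
  have h1 := A.sum x
  rw [Finset.sum_eq_zero fun a _ => A.zero a x fun hx => hn ⟨a, hx⟩] at h1
  exact zero_ne_one h1

omit [IsManifold (𝓡 4) ∞ M] [T2Space M] [CompactSpace M] in
theorem Atl.le_one (A : Atl Θ χ) (a : I) (x : M) : χ a x ≤ 1 := by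
  rw [← A.sum x]
  exact Finset.single_le_sum (f := fun a => χ a x) (fun b _ => A.nonneg b x) (Finset.mem_univ a)

omit [IsManifold (𝓡 4) ∞ M] [T2Space M] [CompactSpace M] in
theorem Atl.zero' (A : Atl Θ χ) (a : I) {y : E4} (hy : y ∈ Q 4) (h1 : y ∉ Qc 1) :
    χ a (Θ a y) = 0 := by
  refine A.zero a _ ?_
  rintro ⟨z, hz, e⟩
  exact h1 (A.inj a (atl_Qc_sub (by norm_num) hz) hy e ▸ hz)

omit [IsManifold (𝓡 4) ∞ M] [T2Space M] [CompactSpace M] in
theorem Atl.decomp (A : Atl Θ χ) (h : M → Mat) {r : ℝ} (h1 : 1 < r) (h4 : r ≤ 4) :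
    h = ∑ a, gext (Θ a) (Q r) fun y => χ a (Θ a y) • gpull (Θ a) h y := by
  funext x
  have key : ∀ a, gext (Θ a) (Q r) (fun y => χ a (Θ a y) • gpull (Θ a) h y) x = χ a x • h x := by
    intro a
    by_cases hx : x ∈ Θ a '' Q r
    · obtain ⟨y, hy, rfl⟩ := hx
      rw [gext_apply ((A.inj a).mono (atl_Q_mono h4)) hy,
        ← (A.pt a).unp_gpull (atl_Q_mono h4 hy) h]
      simp only [unp, Matrix.mul_smul, Matrix.smul_mul]
    · rw [gext_zero (K := Q r) (fun y hy hn => absurd hy hn) hx,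
        A.zero a x fun hz => hx (image_mono (atl_Qc_sub h1) hz), zero_smul]
  rw [Finset.sum_apply]
  simp only [key]
  rw [← Finset.sum_smul, A.sum x, one_smul]

theorem atlas_aux21 {f : Fn} {U : Set E4} (hU : IsOpen U) (hf : ContDiffOn ℝ ∞ f U)
    (w : List (Fin 4)) : ContDiffOn ℝ ∞ (pdw w f) U := by
  induction w with
  | nil => exact hf
  | cons i w ih => exact (ih.fderiv_of_isOpen hU (by simp)).clm_apply contDiffOn_const

theorem atlas_aux22 {f : Fn} (hf : ContinuousOn f (Q 4)) :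
    ∀ᶠ C in atTop, ∀ y ∈ Q 3, |f y| ≤ C := by
  obtain ⟨B, hB⟩ := (atl_isCompact_Qc 3).exists_bound_of_continuousOn
    (hf.mono (atl_Qc_sub (by norm_num)))
  filter_upwards [eventually_ge_atTop B] with C hC y hy
  exact (hB y (atl_Q_sub 3 hy)).trans hC

theorem atlas_aux23 {H : Tn} (hH : SmT H (Q 4)) (j : ℕ) : ∀ᶠ C in atTop, CbM j (Q 3) H C :=
  eventually_all.2 fun a => eventually_all.2 fun b =>
    (eventually_all_finite (List.finite_length_le (Fin 4) j)).2 fun w _ =>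
      atlas_aux22 (atlas_aux21 (atl_isOpen_Q 4) (hH a b) w).continuousOn

theorem atlas_aux24 {G : Tn} (hG : Good G (Q 4)) : ∀ᶠ C in atTop, GoodB C G := by
  have h34 : Q 3 ⊆ Q 4 := atl_Q_mono (by norm_num)
  have h1 := (smo_ipT hG (smo_const 1 _) (smo_const 1 _)).continuousOn.sqrt
  filter_upwards [atlas_aux22 h1, atlas_aux23 hG.smooth 12] with C h2 h3
  refine ⟨smo_good_mono hG (atl_isOpen_Q 3) h34, fun y hy v => ?_, h3⟩
  have h4 := lin_form_le (hG.pos y (h34 hy)) 1 v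
  rw [one_mulVec] at h4
  have h5 : 0 ≤ v ⬝ᵥ G y *ᵥ v := by
    simpa using (hG.pos y (h34 hy)).posSemidef.dotProduct_mulVec_nonneg v
  exact ((le_abs_self _).trans h4).trans
    (mul_le_mul_of_nonneg_right ((le_abs_self _).trans (h2 y hy)) h5)

theorem atlas_aux25 {f : Fn} (hf : ContinuousOn f (Q 4)) {r : ℝ} (h3 : r ≤ 3) :
    IntegrableOn f (Q r) :=
  ((hf.mono (atl_Qc_sub (by norm_num))).integrableOn_compact (atl_isCompact_Qc 3)).mono_set
    ((atl_Q_mono h3).trans (atl_Q_sub 3))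

theorem atlas_aux26 {H : Tn} (hH : SmT H (Q 4)) {r : ℝ} (h3 : r ≤ 3) :
    IntegrableOn (fun y => ∑ i, ∑ j, H y i j ^ 2) (Q r) ∧
      hsM 0 (Q r) H = ∫ y in Q r, ∑ i, ∑ j, H y i j ^ 2 := by
  have h1 : ∀ i j, IntegrableOn (fun y => H y i j ^ 2) (Q r) := fun i j =>
    atlas_aux25 ((hH i j).continuousOn.pow 2) h3
  have h2 : ∀ i, IntegrableOn (fun y => ∑ j, H y i j ^ 2) (Q r) := fun i =>
    integrable_finsetSum _ fun j _ => h1 i j
  refine ⟨integrable_finsetSum _ fun i _ => h2 i, ?_⟩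
  rw [integral_finsetSum _ fun i _ => h2 i]
  exact Finset.sum_congr rfl fun i _ => (integral_finsetSum _ fun j _ => h1 i j).symm

omit [T2Space M] [CompactSpace M] in
/-- Compactness of `Qc 3` in `Q 4`: bounds for the derivatives, and for the form on the unit
sphere. -/
theorem Atl.goodB (A : Atl Θ χ) (hg : GoodT g) : ∃ C, ∀ a, GoodB C (gpull (Θ a) g) :=
  (eventually_all.2 fun a => atlas_aux24 (hg.patch (A.pt a))).exists

omit [T2Space M] [CompactSpace M] in
theorem Atl.cbM (A : Atl Θ χ) (hh : SmG h) (j : ℕ) :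
    ∃ C, ∀ a, CbM j (Q 3) (gpull (Θ a) h) C :=
  (eventually_all.2 fun a => atlas_aux23 (hh.patch (A.pt a)) j).exists

omit [T2Space M] [CompactSpace M] in
theorem Atl.rho_bd (A : Atl Θ χ) (hg : GoodT g) : ∃ C > 0, ∀ a, ∀ y ∈ Q 3,
    rho (gpull (Θ a) g) y ≤ C ∧ 1 ≤ C * rho (gpull (Θ a) g) y := by
  have h34 : Q 3 ⊆ Q 4 := atl_Q_mono (by norm_num)
  refine ((eventually_gt_atTop 0).and (eventually_all.2 fun a => ?_)).exists
  have h1 := (A.pt a).continuousOn_rho hg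
  have h2 := h1.inv₀ fun y hy => ((A.pt a).rho_pos hg hy).ne'
  filter_upwards [atlas_aux22 h1, atlas_aux22 h2] with C h3 h4 y hy
  refine ⟨(le_abs_self _).trans (h3 y hy), ?_⟩
  have h5 := (A.pt a).rho_pos hg (h34 hy)
  have h6 : (rho (gpull (Θ a) g) y)⁻¹ ≤ C := (le_abs_self _).trans (h4 y hy)
  rw [← inv_mul_cancel₀ h5.ne']
  exact mul_le_mul_of_nonneg_right h6 h5.le

variable [MeasurableSpace M] [BorelSpace M]

omit [T2Space M] in
theorem Atl.int_eq (A : Atl Θ χ) (hg : GoodT g) {F : M → ℝ} (hF : Continuous F) {r : ℝ}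
    (h1 : 1 < r) (h4 : r ≤ 4) : ∫ x, F x ∂volT g =
      ∑ a, ∫ y in Q r, rho (gpull (Θ a) g) y * (χ a (Θ a y) * F (Θ a y)) := by
  have hc : ∀ a, Continuous fun x => χ a x * F x := fun a => (A.sm a).continuous.mul hF
  have e : ∀ x, F x = ∑ a, χ a x * F x := fun x => by rw [← Finset.sum_mul, A.sum, one_mul]
  rw [integral_congr_ae (Eventually.of_forall e),
    integral_finsetSum _ fun a _ => hg.integrable (hc a)]
  refine Finset.sum_congr rfl fun a _ => ?_
  refine ((A.pt a).mono (atl_isOpen_Q r) (atl_Q_mono h4)).int_eq_of_zero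
    ((A.inj a).mono (atl_Q_mono h4)) hg (hc a).measurable fun x hx => ?_
  rw [A.zero a x fun h0 => hx (image_mono (atl_Qc_sub h1) h0), zero_mul]

omit [T2Space M] in
/-- Upper bound of the global `L²` norm by the local ones. -/
theorem Atl.n0_le (A : Atl Θ χ) (hg : GoodT g) {r : ℝ} (h1 : 1 < r) (h3 : r ≤ 3) : ∃ C, ∀ h,
    SmG h → ∫ x, n0 g h x ∂volT g ≤ C * ∑ a, hsM 0 (Q r) (gpull (Θ a) h) := by
  obtain ⟨C, hC⟩ := A.goodB hg
  obtain ⟨B, hB0, hB⟩ := A.rho_bd hg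
  refine ⟨B * C ^ 2, fun h hh => ?_⟩
  rw [A.int_eq hg (sm_n0 hg hh).continuous h1 (by linarith), Finset.mul_sum]
  refine Finset.sum_le_sum fun a _ => ?_
  obtain ⟨i1, i2⟩ := atlas_aux26 (hh.patch (A.pt a)) h3
  have hm := (atl_isOpen_Q r).measurableSet
  have h4 : Q r ⊆ Q 4 := atl_Q_mono (by linarith)
  rw [i2, ← integral_const_mul]
  refine integral_mono_of_nonneg (ae_restrict_of_forall_mem hm fun y hy => ?_) (i1.const_mul _)
    (ae_restrict_of_forall_mem hm fun y hy => ?_)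
  · exact mul_nonneg ((A.pt a).rho_pos hg (h4 hy)).le
      (mul_nonneg (A.nonneg a _) (n0_nonneg hg h _))
  · have hy3 := atl_Q_mono h3 hy
    have e1 := lin_ipM_le ((hC a).good.pos y hy3) ((hC a).ell y hy3) (gpull (Θ a) h y)
    rw [← (A.pt a).n0_eq (h4 hy)] at e1
    have e2 := mul_le_of_le_one_left (n0_nonneg hg h (Θ a y)) (A.le_one a (Θ a y))
    show _ ≤ B * C ^ 2 * _
    rw [mul_assoc]
    exact mul_le_mul (hB a y hy3).1 (e2.trans e1)
      (mul_nonneg (A.nonneg a _) (n0_nonneg hg h _)) hB0.le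

omit [T2Space M] in
/-- Upper bound of the local `L²` norms by the global one. -/
theorem Atl.le_n0 (A : Atl Θ χ) (hg : GoodT g) : ∃ C, ∀ h, SmG h → ∀ a,
    hsM 0 (Q 3) (gpull (Θ a) h) ≤ C * ∫ x, n0 g h x ∂volT g := by
  obtain ⟨C, hC⟩ := A.goodB hg
  obtain ⟨B, hB0, hB⟩ := A.rho_bd hg
  refine ⟨16 * C ^ 2 * B, fun h hh a => ?_⟩
  have hm := (atl_isOpen_Q 3).measurableSet
  have h4 : Q 3 ⊆ Q 4 := atl_Q_mono (by norm_num)
  have hn := (sm_n0 hg hh).continuous
  have hK : 0 ≤ 16 * C ^ 2 * B := by positivity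
  have i1 : IntegrableOn (fun y => rho (gpull (Θ a) g) y * n0 g h (Θ a y)) (Q 3) :=
    atlas_aux25 (((A.pt a).continuousOn_rho hg).mul
      (hn.comp_continuousOn (A.pt a).continuousOn)) le_rfl
  have e0 := setIntegral_le_integral (s := Θ a '' Q 3) (hg.integrable hn)
    (Eventually.of_forall (n0_nonneg hg h))
  rw [(A.pt a).int_eq hm h4 ((A.inj a).mono h4) hg hn.measurable] at e0
  refine le_trans ?_ (mul_le_mul_of_nonneg_left e0 hK)
  rw [(atlas_aux26 (hh.patch (A.pt a)) le_rfl).2, ← integral_const_mul]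
  refine integral_mono_of_nonneg (Eventually.of_forall fun y => ?_) (i1.const_mul _)
    (ae_restrict_of_forall_mem hm fun y hy => ?_)
  · exact Finset.sum_nonneg fun _ _ => Finset.sum_nonneg fun _ _ => sq_nonneg _
  · have e1 := lin_le_ipM ((hC a).good.pos y hy)
      (fun i j => (hC a).bdd i j [] (Nat.zero_le _) y hy) (gpull (Θ a) h y)
    rw [← (A.pt a).n0_eq (h4 hy)] at e1
    have e2 := le_mul_of_one_le_left (n0_nonneg hg h (Θ a y)) (hB a y hy).2
    refine e1.trans ?_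
    show _ ≤ 16 * C ^ 2 * B * _
    rw [mul_assoc (16 * C ^ 2), ← mul_assoc B]
    exact mul_le_mul_of_nonneg_left e2 (by positivity)

end Pool.Agent.Lib.MP_94aef8_gt
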