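import Pool.Agent.Lib.MP_94aef8_gt.B.Main

/-!
The local facts (block B) used by the global layer.
-/

open scoped ContDiff Topology
open Matrix Filter Set

namespace Pool.Agent.Lib.MP_94aef8_gt

section Smooth

variable {G h k : Tn} {X : Vn} {f : Fn} {U : Set E4}

theorem bs_sm_inv (hG : Good G U) : SmT (inv G) U :=
  hG.smooth_inv

theorem bs_sm_rho (hG : Good G U) : ContDiffOn ℝ ∞ (rho G) U :=
  hG.smooth_rho

theorem bs_sm_ric (hG : Good G U) : SmT (ric G) U :=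
  hG.sm_ric

theorem bs_sm_rring (hG : Good G U) (hh : SmT h U) : SmT (rring G h) U :=
  hG.sm_rring hh

theorem bs_sm_lich (hG : Good G U) (hh : SmT h U) : SmT (lich G h) U :=
  hG.sm_lich hh

theorem bs_sm_QQ (hG : Good G U) (hh : SmT h U) (hG' : Good (G + h) U) : SmT (QQ G h) U :=
  hG.sm_QQ hG'

theorem bs_sm_wv (hG : Good G U) (hh : SmT h U) (hG' : Good (G + h) U) : SmV (wv G h) U :=
  hG.sm_wv hG'

theorem bs_sm_lie (hG : Good G U) (hX : SmV X U) : SmT (lie G X) U :=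
  hG.sm_lie hX

theorem bs_sm_bian (hG : Good G U) (hh : SmT h U) : SmV (bian G h) U :=
  hG.sm_bian hh

theorem bs_sm_ipD (hG : Good G U) (hh : SmT h U) (hk : SmT k U) :
    ContDiffOn ℝ ∞ (ipD G h k) U :=
  hG.sm_ipD hh hk

theorem bs_sm_dvg (hG : Good G U) (hX : SmV X U) : ContDiffOn ℝ ∞ (dvg G X) U :=
  hG.sm_dvg hX

theorem bs_sm_grad (hG : Good G U) (hf : ContDiffOn ℝ ∞ f U) : SmV (grad G f) U :=
  hG.sm_grad hf

theorem bs_sm_gX (hG : Good G U) (hh : SmT h U) (hk : SmT k U) : SmV (gX G h k) U :=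
  hG.sm_gX hh hk

theorem bs_sm_kX (hG : Good G U) (hh : SmT h U) : SmV (kX G h) U :=
  hG.sm_kX hh

end Smooth

section Nat

variable {τ : E4 → E4} {U V : Set E4} {p : E4} {G G' h h' k k' : Tn} {X X' : Vn} {f f' : Fn}
  (hτ : LDif τ U V) (hp : p ∈ U) (hG : Good G V) (eG : G' =ᶠ[𝓝 p] pull τ G)
include hτ hp hG eG

theorem bs_ric : ric G' p = pull τ (ric G) p :=
  (ric_cg (locF_nhds p) eG).eq_of_nhds.trans (hτ.ric_pull hG hp)

theorem bs_rring (hh : SmT h V) (eh : h' =ᶠ[𝓝 p] pull τ h) :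
    rring G' h' p = pull τ (rring G h) p :=
  (rring_cg (locF_nhds p) eG eh).eq_of_nhds.trans (hτ.rring_pull hG hp hh)

theorem bs_lich (hh : SmT h V) (eh : h' =ᶠ[𝓝 p] pull τ h) :
    lich G' h' p = pull τ (lich G h) p :=
  (lich_cg (locF_nhds p) eG eh).eq_of_nhds.trans (hτ.lich_pull hG hp hh)

theorem bs_QQ (hh : SmT h V) (eh : h' =ᶠ[𝓝 p] pull τ h) (hG' : Good (G + h) V) :
    QQ G' h' p = pull τ (QQ G h) p :=
  (QQ_cg (locF_nhds p) eG eh).eq_of_nhds.trans (hτ.QQ_pull hG hp hG')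

theorem bs_wv (hh : SmT h V) (eh : h' =ᶠ[𝓝 p] pull τ h) (hG' : Good (G + h) V) :
    wv G' h' p = pullV τ (wv G h) p :=
  (wv_cg (locF_nhds p) eG eh).eq_of_nhds.trans (hτ.wv_pull hG hp hG')

theorem bs_lie (hX : SmV X V) (eX : X' =ᶠ[𝓝 p] pullV τ X) :
    lie G' X' p = pull τ (lie G X) p :=
  (lie_cg (locF_nhds p) eG eX).eq_of_nhds.trans (hτ.lie_pull hG hp hX)

theorem bs_bian (hh : SmT h V) (eh : h' =ᶠ[𝓝 p] pull τ h) :
    bian G' h' p = pullV τ (bian G h) p :=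
  (bian_cg (locF_nhds p) eG eh).eq_of_nhds.trans (hτ.bian_pull hG hp hh)

theorem bs_ipD (hh : SmT h V) (eh : h' =ᶠ[𝓝 p] pull τ h) (hk : SmT k V)
    (ek : k' =ᶠ[𝓝 p] pull τ k) : ipD G' h' k' p = ipD G h k (τ p) :=
  (ipD_cg (locF_nhds p) eG eh ek).eq_of_nhds.trans (hτ.ipD_pull hG hp hh hk)

theorem bs_dvg (hX : SmV X V) (eX : X' =ᶠ[𝓝 p] pullV τ X) : dvg G' X' p = dvg G X (τ p) :=
  (dvg_cg (locF_nhds p) eG eX).eq_of_nhds.trans (hτ.dvg_pull hG hp hX)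

theorem bs_grad (hf : ContDiffOn ℝ ∞ f V) (ef : f' =ᶠ[𝓝 p] f ∘ τ) :
    grad G' f' p = pullV τ (grad G f) p :=
  (grad_cg (locF_nhds p) eG ef).eq_of_nhds.trans (hτ.grad_pull hG hp hf)

theorem bs_gX (hh : SmT h V) (eh : h' =ᶠ[𝓝 p] pull τ h) (hk : SmT k V)
    (ek : k' =ᶠ[𝓝 p] pull τ k) : gX G' h' k' p = pullV τ (gX G h k) p :=
  (gX_cg (locF_nhds p) eG eh ek).eq_of_nhds.trans (hτ.gX_pull hG hp hh hk)

theorem bs_kX (hh : SmT h V) (eh : h' =ᶠ[𝓝 p] pull τ h) :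
    kX G' h' p = pullV τ (kX G h) p :=
  (kX_cg (locF_nhds p) eG eh).eq_of_nhds.trans (hτ.kX_pull hG hp hh)

end Nat

section Loc

variable {G G' h h' k : Tn} {X X' : Vn} {U : Set E4} {p : E4}

theorem bs_ric_congr (eG : G =ᶠ[𝓝 p] G') : ric G p = ric G' p :=
  (ric_cg (locF_nhds p) eG).eq_of_nhds

theorem bs_lich_congr (eG : G =ᶠ[𝓝 p] G') (eh : h =ᶠ[𝓝 p] h') : lich G h p = lich G' h' p :=
  (lich_cg (locF_nhds p) eG eh).eq_of_nhds

theorem bs_QQ_congr (eG : G =ᶠ[𝓝 p] G') (eh : h =ᶠ[𝓝 p] h') : QQ G h p = QQ G' h' p :=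
  (QQ_cg (locF_nhds p) eG eh).eq_of_nhds

theorem bs_lie_congr (eG : G =ᶠ[𝓝 p] G') (eX : X =ᶠ[𝓝 p] X') : lie G X p = lie G' X' p :=
  (lie_cg (locF_nhds p) eG eX).eq_of_nhds

theorem bs_dvg_congr (eG : G =ᶠ[𝓝 p] G') (eX : X =ᶠ[𝓝 p] X') : dvg G X p = dvg G' X' p :=
  (dvg_cg (locF_nhds p) eG eX).eq_of_nhds

theorem bs_rring_at (e : h p = h' p) : rring G h p = rring G h' p :=
  rring_at G e

theorem bs_ric_smul (G : Tn) {c : ℝ} (hc : c ≠ 0) : ric (c • G) = ric G :=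
  ric_scale G hc

theorem bs_ric_symm (hG : Good G U) (hp : p ∈ U) : (ric G p).IsSymm :=
  hG.ric_symm hp

theorem bs_lich_add (hG : Good G U) (hp : p ∈ U) (hh : SmT h U) (hk : SmT k U) :
    lich G (h + k) p = lich G h p + lich G k p :=
  hG.lich_add hp hh hk

theorem bs_lich_smul (G h : Tn) (c : ℝ) : lich G (c • h) = c • lich G h :=
  lich_csmul G h c

theorem bs_lich_transpose (hG : Good G U) (hp : p ∈ U) (hh : SmT h U) :
    lich G (fun y => (h y)ᵀ) p = (lich G h p)ᵀ :=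
  hG.lich_transpose hp hh

theorem bs_QQ_symm (hG : Good G U) (hp : p ∈ U) (hh : SmT h U) (hG' : Good (G + h) U) :
    (QQ G h p).IsSymm :=
  hG.QQ_symm hp hG'

theorem bs_shi (hG : Good G U) (hp : p ∈ U) (hh : SmT h U) (hG' : Good (G + h) U) :
    dt G h p = ric G p + (1 / 2 : ℝ) • lich G h p + QQ G h p :=
  hG.shi hp hG'

theorem bs_lich_adj (hG : Good G U) (hp : p ∈ U) (hh : SmT h U) (hk : SmT k U) :
    ipT G (lich G h) k p - ipT G h (lich G k) p = dvg G (gX G k h) p - dvg G (gX G h k) p :=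
  hG.lich_adj hp hh hk

theorem bs_energy (hG : Good G U) (hp : p ∈ U) (hh : SymT h U) :
    ipT G (PP G h) h p = ipD G h h p + pot G p (h p) - dvg G (gX G h h) p :=
  hG.energy_PP hp hh

theorem bs_koiso (hG : Good G U) (hp : p ∈ U) (hh : SymT h U) :
    koi G p (h p) + dvg G (kX G h) p - dvg G (gX G h h) p ≤ ipT G (PP G h) h p :=
  hG.koiso_le hp hh

theorem bs_ipD_nonneg (hG : Good G U) (hp : p ∈ U) (h : Tn) : 0 ≤ ipD G h h p :=
  ipD_nonneg (hG.pos p hp) h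

theorem bs_trG_lich (hG : Good G U) (hp : p ∈ U) (hh : SmT h U) :
    trG G (lich G h) p = -lap G (trG G h) p :=
  hG.trG_lich hp hh

theorem bs_rho_dvg (hG : Good G U) (hp : p ∈ U) (hX : SmV X U) :
    rho G p * dvg G X p = ∑ i, pd i (fun y => rho G y * X y i) p :=
  hG.rho_dvg hp hX

/-- The local maximum principle for the gauge field. -/
theorem bs_gauge (hG : Good G U) (hp : p ∈ U) (hX : SmV X U)
    (he : ∀ y ∈ U, ric G y - (1 / 2 : ℝ) • lie G X y + (3 : ℝ) • G y = 0)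
    (hm : IsLocalMax (ipV G X X) p) : ipV G X X p ≤ 0 :=
  hG.gauge_max hp hX three_pos he hm

theorem bs_lie_zero (G : Tn) (p : E4) : lie G 0 p = 0 :=
  congrFun (lie_zero G) p

end Loc

end Pool.Agent.Lib.MP_94aef8_gt
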