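import Pool.Agent.Lib.MP_94aef8_gt.C.Loc

/-!
Linearity, symmetry, scaling and invariance of the global operators.
-/

open scoped Manifold ContDiff Topology
open Matrix Filter Set

namespace Pool.Agent.Lib.MP_94aef8_gt

variable {M : Type} [TopologicalSpace M] [ChartedSpace E4 M] [IsManifold (𝓡 4) ∞ M]
variable {π : E4 → M} {U : Set E4} {y : E4} {g h k : M → Mat} {S : Set (M → M)}

theorem GP_add (hg : GoodT g) (hh : SmG h) (hk : SmG k) : GP g (h + k) = GP g h + GP g k := by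
  funext x
  simp only [GP, atc, PP, gpull_add, Pi.add_apply, smul_add,
    bs_lich_add (hg.patch (pt_ch x)) (c0_mem x) (hh x) (hk x)]
  abel

omit [IsManifold (𝓡 4) ∞ M] in
theorem GP_smul (g h : M → Mat) (c : ℝ) : GP g (c • h) = c • GP g h := by
  funext x
  simp only [GP, atc, PP, gpull_smul, Pi.smul_apply, smul_add, bs_lich_smul, smul_comm c (6 : ℝ)]

theorem GP_sub (hg : GoodT g) (hh : SmG h) (hk : SmG k) : GP g (h - k) = GP g h - GP g k := by
  rw [sub_eq_add_neg, GP_add hg hh hk.neg, ← neg_one_smul ℝ k, GP_smul, neg_one_smul,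
    sub_eq_add_neg]

omit [IsManifold (𝓡 4) ∞ M] in
theorem GP_zero (g : M → Mat) : GP g 0 = 0 := by
  simpa using GP_smul g 0 0

theorem GP_iter_add (hg : GoodT g) (hh : SmG h) (hk : SmG k) (i : ℕ) :
    (GP g)^[i] (h + k) = (GP g)^[i] h + (GP g)^[i] k := by
  induction i with
  | zero => rfl
  | succ i ih =>
    simp only [Function.iterate_succ_apply']
    rw [ih, GP_add hg (smG_GP_iter hg hh i) (smG_GP_iter hg hk i)]

theorem GP_iter_sub (hg : GoodT g) (hh : SmG h) (hk : SmG k) (i : ℕ) :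
    (GP g)^[i] (h - k) = (GP g)^[i] h - (GP g)^[i] k := by
  induction i with
  | zero => rfl
  | succ i ih =>
    simp only [Function.iterate_succ_apply']
    rw [ih, GP_sub hg (smG_GP_iter hg hh i) (smG_GP_iter hg hk i)]

omit [IsManifold (𝓡 4) ∞ M] in
theorem GP_iter_smul (g h : M → Mat) (c : ℝ) (i : ℕ) :
    (GP g)^[i] (c • h) = c • (GP g)^[i] h := by
  induction i with
  | zero => rfl
  | succ i ih =>
    simp only [Function.iterate_succ_apply']
    rw [ih, GP_smul]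

theorem GP_transpose (hg : GoodT g) (hh : SmG h) :
    GP g (fun x => (h x)ᵀ) = fun x => (GP g h x)ᵀ := by
  funext x
  simp only [GP, atc, PP, gpull_transpose, transpose_add, transpose_smul,
    bs_lich_transpose (hg.patch (pt_ch x)) (c0_mem x) (hh x)]

theorem GP_symm (hg : GoodT g) (hh : SmG h) (hs : ∀ x, (h x).IsSymm) (x : M) :
    (GP g h x).IsSymm := by
  have e : (fun x => (h x)ᵀ) = h := funext fun x => (hs x).eq
  have h1 := GP_transpose hg hh
  rw [e] at h1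
  exact (congrFun h1 x).symm

/-- `P` depends only on the germ. -/
theorem GP_congr (g : M → Mat) {x : M} (e : h =ᶠ[𝓝 x] k) : GP g h x = GP g k x := by
  have h1 : Tendsto (ch x) (𝓝 (c0 x)) (𝓝 x) := by
    have := (pt_ch x).continuousAt (c0_mem x)
    rwa [ContinuousAt, ch_c0] at this
  have h2 : gpull (ch x) h =ᶠ[𝓝 (c0 x)] gpull (ch x) k :=
    (h1.eventually e).mono fun _ hy => gpull_at hy
  simp only [GP, atc, PP, bs_lich_congr EventuallyEq.rfl h2, h2.eq_of_nhds]

theorem GRic_symm (hg : GoodT g) (x : M) : (GRic g x).IsSymm :=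
  bs_ric_symm (hg.patch (pt_ch x)) (c0_mem x)

theorem GQ_symm (hg : GoodT g) (hh : SmG h) (hg' : GoodT (g + h)) (x : M) :
    (GQ g h x).IsSymm :=
  bs_QQ_symm (hg.patch (pt_ch x)) (c0_mem x) (hh x) ((pt_ch x).good_add hg')

omit [IsManifold (𝓡 4) ∞ M] in
theorem GRic_smul (g : M → Mat) {c : ℝ} (hc : c ≠ 0) : GRic (c • g) = GRic g := by
  funext x
  rw [GRic, gpull_smul, bs_ric_smul _ hc, GRic]

/-- `bs_shi`. -/
theorem GPhi_eq (hg : GoodT g) (hh : SmG h) (hg' : GoodT (g + h)) (x : M) :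
    GPhi g h x = GE g x + (1 / 2 : ℝ) • GP g h x + GQ g h x := by
  simp only [GPhi, GE, GP, GQ, GRic, atc, Phi, PP, gpull_ch_c0,
    bs_shi (hg.patch (pt_ch x)) (c0_mem x) (hh x) ((pt_ch x).good_add hg')]
  module

/-- The operator `P` as a linear map. -/
noncomputable def GPl (hg : GoodT g) : smSub M →ₗ[ℝ] smSub M where
  toFun h := ⟨GP g h, smG_GP hg h.2⟩
  map_add' h k := Subtype.ext (GP_add hg h.2 k.2)
  map_smul' c h := Subtype.ext (GP_smul g h c)

/-- The powers of `P` in a patch. -/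
theorem Pt.GP_iter_eq (hπ : Pt π U) (hy : y ∈ U) (hg : GoodT g) (hh : SmG h) (i : ℕ) :
    gpull π ((GP g)^[i] h) y = (PP (gpull π g))^[i] (gpull π h) y := by
  induction i generalizing y with
  | zero => rfl
  | succ i ih =>
    have e : gpull π ((GP g)^[i] h) =ᶠ[𝓝 y] (PP (gpull π g))^[i] (gpull π h) :=
      eventually_of_mem (hπ.isOpen.mem_nhds hy) fun _ hz => ih hz
    simp only [Function.iterate_succ_apply']
    rw [hπ.GP_eq hy hg (smG_GP_iter hg hh i), PP, PP, bs_lich_congr EventuallyEq.rfl e,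
      e.eq_of_nhds]

section

variable {N : Type} [TopologicalSpace N] [ChartedSpace E4 N] [IsManifold (𝓡 4) ∞ N] {F : N → M}

omit [IsManifold (𝓡 4) ∞ M] in
theorem loc2_aux1 (hF : Pt F univ) (x : N) : Pt (F ∘ ch x) (chartAt E4 x).target :=
  hF.comp (pt_ch x) (mapsTo_univ _ _)

omit [IsManifold (𝓡 4) ∞ M] in
theorem loc2_aux2 (hF : Pt F univ) (x : N) (h : M → Mat) :
    gpull (ch x) (gpull F h) =ᶠ[𝓝 (c0 x)] gpull (F ∘ ch x) h :=
  eventually_of_mem ((chartAt E4 x).open_target.mem_nhds (c0_mem x)) fun _ hy =>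
    (gpull_comp hF (pt_ch x) hy (mem_univ _) h).symm

omit [IsManifold (𝓡 4) ∞ M] in
theorem loc2_aux3 (hF : Pt F univ) (x : N) (h : M → Mat) :
    gpull F h x = gpull (F ∘ ch x) h (c0 x) := by
  rw [← (loc2_aux2 hF x h).eq_of_nhds, gpull_ch_c0]

/-- Apply `Pt.GRic_eq` to the patch `F ∘ ch x`; `gpull_comp` holds on the target of the chart,
`bs_ric_congr`, `gpull_ch_c0`. -/
theorem GRic_gpull (hF : Pt F univ) (hg : GoodT g) : GRic (gpull F g) = gpull F (GRic g) := by
  funext x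
  rw [loc2_aux3 hF, (loc2_aux1 hF x).GRic_eq (c0_mem x) hg, GRic,
    bs_ric_congr (loc2_aux2 hF x g)]

theorem GE_gpull (hF : Pt F univ) (hg : GoodT g) : GE (gpull F g) = gpull F (GE g) := by
  have e : ∀ x, GE g x = (GRic g + (3 : ℝ) • g) x := fun _ => rfl
  funext x
  rw [GE, GRic_gpull hF hg, funext e, gpull_add, gpull_smul]
  rfl

theorem GP_gpull (hF : Pt F univ) (hg : GoodT g) (hh : SmG h) :
    GP (gpull F g) (gpull F h) = gpull F (GP g h) := by
  funext x
  rw [loc2_aux3 hF, (loc2_aux1 hF x).GP_eq (c0_mem x) hg hh, GP, atc, PP, PP,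
    bs_lich_congr (loc2_aux2 hF x g) (loc2_aux2 hF x h), (loc2_aux2 hF x h).eq_of_nhds]

theorem GQ_gpull (hF : Pt F univ) (hg : GoodT g) (hh : SmG h) (hg' : GoodT (g + h)) :
    GQ (gpull F g) (gpull F h) = gpull F (GQ g h) := by
  funext x
  rw [loc2_aux3 hF, (loc2_aux1 hF x).GQ_eq (c0_mem x) hg hh hg', GQ, atc,
    bs_QQ_congr (loc2_aux2 hF x g) (loc2_aux2 hF x h)]

end

theorem IsoM.GP {F : M → M} (hF : IsoM g F) (hg : GoodT g) (hh : SmG h) :
    GP g (gpull F h) = gpull F (GP g h) := by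
  rw [← GP_gpull hF.pt hg hh, funext hF.eq]

theorem InvT.GP (hh : InvT S h) (hg : GoodT g) (hS : ∀ F ∈ S, IsoM g F) : InvT S (GP g h) :=
  ⟨smG_GP hg hh.smooth, GP_symm hg hh.smooth hh.symm, fun F hF x => by
    rw [← (hS F hF).GP hg hh.smooth, funext (hh.inv F hF)]⟩

theorem invT_GE (hg : GoodT g) (hS : ∀ F ∈ S, IsoM g F) : InvT S (GE g) :=
  ⟨smG_GE hg, fun x => (GRic_symm hg x).add ((lin_symm (hg.pos x)).smul 3), fun F hF x => by
    rw [← GE_gpull (hS F hF).pt hg, funext (hS F hF).eq]⟩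

theorem InvT.GQ (hh : InvT S h) (hg : GoodT g) (hS : ∀ F ∈ S, IsoM g F) (hg' : GoodT (g + h)) :
    InvT S (GQ g h) :=
  ⟨smG_GQ hg hh.smooth hg', GQ_symm hg hh.smooth hg', fun F hF x => by
    rw [← GQ_gpull (hS F hF).pt hg hh.smooth hg', funext (hS F hF).eq, funext (hh.inv F hF)]⟩

omit [IsManifold (𝓡 4) ∞ M] in
theorem InvT.good_add (hh : InvT S h) (hg : GoodT g) (e : ∀ x, n0 g h x < 1) : GoodT (g + h) :=
  ⟨hg.smooth.add hh.smooth, fun x => lin_posDef_add (hg.pos x) (hh.symm x) (e x)⟩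

end Pool.Agent.Lib.MP_94aef8_gt
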