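import Pool.Agent.Lib.MP_94aef8_gt.C.Atlas
import Pool.Agent.Lib.MP_94aef8_gt.C.Loc2

/-!
The divergence theorem and the integral formulas.
-/

open scoped Manifold ContDiff Topology ENNReal
open Matrix Filter Set MeasureTheory

namespace Pool.Agent.Lib.MP_94aef8_gt

theorem div_aux1 {U K : Set E4} {f : Fn} (hU : IsOpen U) (hf : ContDiffOn ℝ ∞ f U)
    (hK : IsCompact K) (hKU : K ⊆ U) (h0 : ∀ y ∈ U, y ∉ K → f y = 0) (i : Fin 4) :
    IntegrableOn (pd i f) U ∧ ∫ y in U, pd i f y = 0 := by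
  have e1 : ∀ y ∈ U, U.indicator f =ᶠ[𝓝 y] f := fun y hy =>
    eventually_of_mem (hU.mem_nhds hy) fun z hz => indicator_of_mem hz f
  have e0 : ∀ z, z ∉ K → U.indicator f z = 0 := fun z hz => by
    by_cases h : z ∈ U
    · rw [indicator_of_mem h, h0 z h hz]
    · exact indicator_of_notMem h f
  have e2 : ∀ y, y ∉ K → U.indicator f =ᶠ[𝓝 y] fun _ => 0 := fun y hy =>
    eventually_of_mem (hK.isClosed.isOpen_compl.mem_nhds hy) e0
  have hs : ContDiff ℝ ∞ (U.indicator f) := contDiff_iff_contDiffAt.2 fun y => by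
    by_cases h : y ∈ U
    · exact (hf.contDiffAt (hU.mem_nhds h)).congr_of_eventuallyEq (e1 y h)
    · exact contDiffAt_const.congr_of_eventuallyEq (e2 y fun hy => h (hKU hy))
  have hc : HasCompactSupport (U.indicator f) := HasCompactSupport.intro hK e0
  have e3 : ∀ y, y ∉ K → fderiv ℝ (U.indicator f) y (bas i) = 0 := fun y hy => by
    rw [(e2 y hy).fderiv_eq]
    simp
  have hi : Integrable fun y => fderiv ℝ (U.indicator f) y (bas i) :=
    ((hs.continuous_fderiv (by simp)).clm_apply continuous_const).integrable_of_hasCompactSupport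
      (HasCompactSupport.intro hK e3)
  have e4 : EqOn (fun y => fderiv ℝ (U.indicator f) y (bas i)) (pd i f) U := fun y hy => by
    simp only [pd, (e1 y hy).fderiv_eq]
  refine ⟨hi.integrableOn.congr_fun e4 hU.measurableSet, ?_⟩
  rw [← setIntegral_congr_fun hU.measurableSet e4,
    setIntegral_eq_integral_of_forall_compl_eq_zero fun y hy => e3 y fun h => hy (hKU h)]
  have h := integral_mul_fderiv_eq_neg_fderiv_mul_of_integrable (μ := volume)
    (f := fun _ : E4 => (1 : ℝ)) (g := U.indicator f) (v := bas i) (by simp) (by simpa using hi)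
    (by simpa using hs.continuous.integrable_of_hasCompactSupport hc)
    (fun _ _ => differentiableAt_const _) fun y _ => hs.differentiable (by simp) y
  simpa using h

/-- Extend by zero to `E4`; `integral_fderiv_eq_zero` or
`integral_mul_fderiv_eq_neg_fderiv_mul_of_integrable`. -/
theorem div_pd {U K : Set E4} {f : Fn} (hU : IsOpen U) (hf : ContDiffOn ℝ ∞ f U) (hK : IsCompact K)
    (hKU : K ⊆ U) (h0 : ∀ y ∈ U, y ∉ K → f y = 0) (i : Fin 4) : ∫ y in U, pd i f y = 0 :=
  (div_aux1 hU hf hK hKU h0 i).2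

/-- `bs_rho_dvg`, `div_pd`. -/
theorem div_local {G : Tn} {X : Vn} {U K : Set E4} (hG : Good G U) (hX : SmV X U)
    (hK : IsCompact K) (hKU : K ⊆ U) (h0 : ∀ y ∈ U, y ∉ K → X y = 0) :
    ∫ y in U, rho G y * dvg G X y = 0 := by
  have h := fun i => div_aux1 (f := fun y => rho G y * X y i) hG.isOpen
    ((bs_sm_rho hG).mul (hX i)) hK hKU (fun y hy hy' => by rw [h0 y hy hy']; simp) i
  rw [setIntegral_congr_fun hG.isOpen.measurableSet fun y hy => bs_rho_dvg hG hy hX,
    integral_finsetSum _ fun i _ => (h i).1]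
  exact Finset.sum_eq_zero fun i _ => (h i).2

/-- `rho * dvg` is the flat divergence, hence `dvg` is additive. -/
theorem div_sum {ι : Type} (s : Finset ι) {G : Tn} {X : ι → Vn} {U : Set E4} {p : E4}
    (hG : Good G U) (hp : p ∈ U) (hX : ∀ i, SmV (X i) U) :
    dvg G (∑ i ∈ s, X i) p = ∑ i ∈ s, dvg G (X i) p := by
  have hr : rho G p ≠ 0 := (Real.sqrt_pos.2 (hG.pos p hp).det_pos).ne'
  have hS : SmV (∑ i ∈ s, X i) U := fun j => by
    simp only [Finset.sum_apply]
    exact ContDiffOn.sum fun i _ => hX i j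
  refine mul_left_cancel₀ hr ?_
  rw [bs_rho_dvg hG hp hS, Finset.mul_sum,
    Finset.sum_congr rfl fun i _ => bs_rho_dvg hG hp (hX i), Finset.sum_comm]
  refine Finset.sum_congr rfl fun j _ => ?_
  simp only [Finset.sum_apply, Finset.mul_sum, pd]
  rw [fderiv_fun_sum fun i _ => (((bs_sm_rho hG).mul (hX i j)).contDiffAt
    (hG.isOpen.mem_nhds hp)).differentiableAt (by simp), _root_.sum_apply]

variable {M : Type} [TopologicalSpace M] [ChartedSpace E4 M] [IsManifold (𝓡 4) ∞ M]
  [T2Space M] [CompactSpace M] [MeasurableSpace M] [BorelSpace M]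
variable {g h k : M → Mat} {X : M → Fin 4 → ℝ}

omit [T2Space M] [CompactSpace M] [MeasurableSpace M] [BorelSpace M] in
theorem div_aux2 {ι : Type} (s : Finset ι) (hg : GoodT g) {Y : ι → M → Fin 4 → ℝ}
    (hY : ∀ i, SmVF (Y i)) (x : M) : GDiv g (∑ i ∈ s, Y i) x = ∑ i ∈ s, GDiv g (Y i) x := by
  rw [GDiv, gpullV_sum]
  exact div_sum s (hg.patch (pt_ch x)) (c0_mem x) fun i => hY i x

omit [T2Space M] [CompactSpace M] [MeasurableSpace M] [BorelSpace M] in
theorem div_aux3 (hg : GoodT g) {x : M} (e : ∀ᶠ z in 𝓝 x, X z = 0) : GDiv g X x = 0 := by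
  have h1 : ∀ᶠ y in 𝓝 (c0 x), X (ch x y) = 0 :=
    ((pt_ch x).continuousAt (c0_mem x)).eventually (by rwa [ch_c0])
  have h2 : gpullV (ch x) X =ᶠ[𝓝 (c0 x)] ∑ _i ∈ (∅ : Finset Empty), (0 : Vn) := by
    filter_upwards [h1] with y hy
    simp [gpullV, hy]
  rw [GDiv, bs_dvg_congr EventuallyEq.rfl h2,
    div_sum ∅ (hg.patch (pt_ch x)) (c0_mem x) fun i => i.elim]
  simp

/-- `X = ∑ χ a • X` (`exists_atl`), `div_sum`, `Pt.int_eq_of_zero`, `Pt.GDiv_eq`, `div_local`;
off the closed set `Θ a '' Qc 1` the field `χ a • X` vanishes near the point (`bs_dvg_congr`). -/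
theorem int_GDiv (hg : GoodT g) (hX : SmVF X) : ∫ x, GDiv g X x ∂volT g = 0 := by
  obtain ⟨I, _, Θ, χ, A, -⟩ := exists_atl (M := M) (fun _ => univ) fun _ => univ_mem
  have hY : ∀ a, SmVF fun x => χ a x • X x := fun a => hX.fsmul (A.sm a)
  have e : X = ∑ a, fun x => χ a x • X x := by
    funext x
    rw [Finset.sum_apply, ← Finset.sum_smul, A.sum, one_smul]
  have hQ : Qc 1 ⊆ Q 4 := atl_Qc_sub (by norm_num)
  rw [e]
  simp only [div_aux2 Finset.univ hg hY]
  rw [integral_finsetSum _ fun a _ => hg.integrable (sm_GDiv hg (hY a)).continuous]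
  refine Finset.sum_eq_zero fun a _ => ?_
  have hc : IsClosed (Θ a '' Qc 1) :=
    ((atl_isCompact_Qc 1).image_of_continuousOn ((A.pt a).continuousOn.mono hQ)).isClosed
  rw [(A.pt a).int_eq_of_zero (A.inj a) hg (sm_GDiv hg (hY a)).continuous.measurable
    fun x hx => div_aux3 hg (eventually_of_mem (hc.isOpen_compl.mem_nhds
      fun h => hx (image_mono hQ h)) fun z hz => by rw [A.zero a z hz, zero_smul]),
    setIntegral_congr_fun (atl_isOpen_Q 4).measurableSet fun y hy =>
      congrArg (rho (gpull (Θ a) g) y * ·) ((A.pt a).GDiv_eq hy hg (hY a))]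
  refine div_local (hg.patch (A.pt a)) ((hY a).patch (A.pt a)) (atl_isCompact_Qc 1) hQ
    fun y hy h1 => ?_
  simp [gpullV, A.zero' a hy h1]

omit [IsManifold (𝓡 4) ∞ M] [T2Space M] [CompactSpace M] [MeasurableSpace M] [BorelSpace M] in
theorem div_aux_dvg (g : M → Mat) {x : M} {L : Vn}
    (e : ∀ y ∈ (chartAt E4 x).target, gpullV (ch x) X y = L y) :
    GDiv g X x = dvg (gpull (ch x) g) L (c0 x) :=
  bs_dvg_congr EventuallyEq.rfl
    (eventually_of_mem ((chartAt E4 x).open_target.mem_nhds (c0_mem x)) e)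

omit [T2Space M] [CompactSpace M] [MeasurableSpace M] [BorelSpace M] in
theorem div_aux_gX (hg : GoodT g) (hh : SmG h) (hk : SmG k) (x : M) : GDiv g (GgX g h k) x =
    dvg (gpull (ch x) g) (gX (gpull (ch x) g) (gpull (ch x) h) (gpull (ch x) k)) (c0 x) :=
  div_aux_dvg g fun _ hy => (pt_ch x).GgX_eq hy hg hh hk

theorem div_aux_add (hg : GoodT g) {F : M → ℝ} (hF : Continuous F) (hX : SmVF X) :
    ∫ x, (F x + GDiv g X x) ∂volT g = ∫ x, F x ∂volT g := by
  rw [integral_add (hg.integrable hF) (hg.integrable (sm_GDiv hg hX).continuous), int_GDiv hg hX,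
    add_zero]

theorem div_aux_sub (hg : GoodT g) {F : M → ℝ} (hF : Continuous F) (hX : SmVF X) :
    ∫ x, (F x - GDiv g X x) ∂volT g = ∫ x, F x ∂volT g := by
  rw [integral_sub (hg.integrable hF) (hg.integrable (sm_GDiv hg hX).continuous), int_GDiv hg hX,
    sub_zero]

/-- At `x` write everything in the chart `ch x`: `bs_lich_adj`, `Pt.GgX_eq`, `bs_dvg_congr`. -/
theorem int_GP_symm (hg : GoodT g) (hh : SmG h) (hk : SmG k) :
    ∫ x, ipg g (GP g h) k x ∂volT g = ∫ x, ipg g h (GP g k) x ∂volT g := by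
  have h1 := (sm_ipg hg hh (smG_GP hg hk)).continuous
  have h2 := smVF_GgX hg hk hh
  rw [← div_aux_add hg h1 h2,
    ← div_aux_sub hg (h1.fun_add (sm_GDiv hg h2).continuous) (smVF_GgX hg hh hk)]
  refine integral_congr_ae (Eventually.of_forall fun x => ?_)
  have h3 := bs_lich_adj (hg.patch (pt_ch x)) (c0_mem x) (hh x) (hk x)
  rw [← div_aux_gX hg hh hk, ← div_aux_gX hg hk hh, ipT, ipT] at h3
  simp only [ipg, GP, atc, PP, lin_ipM_add_left, lin_ipM_add_right, lin_ipM_smul_left,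
    lin_ipM_smul_right, gpull_ch_c0] at h3 ⊢
  linarith

theorem int_energy (hg : GoodT g) (hh : SmG h) (hs : ∀ x, (h x).IsSymm) :
    ∫ x, ipg g (GP g h) h x ∂volT g = ∫ x, (GD g h h x + GPot g h x) ∂volT g := by
  rw [← div_aux_sub hg (F := fun x => GD g h h x + GPot g h x)
    ((sm_GD hg hh hh).continuous.add (sm_GPot hg hh).continuous) (smVF_GgX hg hh hh)]
  refine integral_congr_ae (Eventually.of_forall fun x => ?_)
  have h3 := bs_energy (hg.patch (pt_ch x)) (c0_mem x) ⟨hh x, fun _ _ => gpull_symm (hs _)⟩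
  rw [← div_aux_gX hg hh hh, ipT, gpull_ch_c0, gpull_ch_c0] at h3
  exact h3

theorem int_koiso (hg : GoodT g) (hh : SmG h) (hs : ∀ x, (h x).IsSymm) :
    ∫ x, GKoi g h x ∂volT g ≤ ∫ x, ipg g (GP g h) h x ∂volT g := by
  have h1 := (sm_GKoi hg hh).continuous
  have h2 := smVF_GkX hg hh
  have h4 := h1.fun_add (sm_GDiv hg h2).continuous
  have h5 := smVF_GgX hg hh hh
  rw [← div_aux_add hg h1 h2, ← div_aux_sub hg h4 h5]
  refine integral_mono (hg.integrable (h4.sub (sm_GDiv hg h5).continuous))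
    (hg.integrable (sm_ipg hg (smG_GP hg hh) hh).continuous) fun x => ?_
  have h3 := bs_koiso (hg.patch (pt_ch x)) (c0_mem x) ⟨hh x, fun _ _ => gpull_symm (hs _)⟩
  rw [← div_aux_gX hg hh hh, ← div_aux_dvg g fun _ hy => (pt_ch x).GkX_eq hy hg hh, ipT,
    gpull_ch_c0, gpull_ch_c0] at h3
  exact h3

omit [T2Space M] [CompactSpace M] [MeasurableSpace M] [BorelSpace M] in
theorem GD_nonneg (hg : GoodT g) (h : M → Mat) (x : M) : 0 ≤ GD g h h x :=
  bs_ipD_nonneg (hg.patch (pt_ch x)) (c0_mem x) _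

/-- `bs_trG_lich`, with the vector field `GGrad g (trg g h)`. -/
theorem int_trg_GP (hg : GoodT g) (hh : SmG h) :
    ∫ x, trg g (GP g h) x ∂volT g = 6 * ∫ x, trg g h x ∂volT g := by
  have h1 := sm_trg hg hh
  rw [← integral_const_mul, ← div_aux_sub hg (F := fun x => 6 * trg g h x)
    (continuous_const.mul h1.continuous) (smVF_GGrad hg h1)]
  refine integral_congr_ae (Eventually.of_forall fun x => ?_)
  have h3 := bs_trG_lich (hg.patch (pt_ch x)) (c0_mem x) (hh x)
  have h4 : GDiv g (GGrad g (trg g h)) x =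
      lap (gpull (ch x) g) (trG (gpull (ch x) g) (gpull (ch x) h)) (c0 x) :=
    div_aux_dvg g fun y hy => by
      have e : trg g h ∘ ch x =ᶠ[𝓝 y] trG (gpull (ch x) g) (gpull (ch x) h) :=
        eventually_of_mem ((pt_ch x).isOpen.mem_nhds hy) fun z hz => (pt_ch x).trg_eq hz g h
      rw [(pt_ch x).GGrad_eq hy hg h1]
      simp only [grad]
      congr 1
      funext i
      simp only [df, pd, e.fderiv_eq]
  simp only [h4, trG, trg, GP, atc, PP, gpull_ch_c0, Matrix.mul_add, Matrix.mul_smul, trace_add,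
    trace_smul, smul_eq_mul] at h3 ⊢
  linarith

theorem div_aux_quad {K : Set E4} (hK : IsCompact K) {β : E4 → Mat →ₗ[ℝ] Mat →ₗ[ℝ] ℝ}
    (hc : ∀ A B, ContinuousOn (fun y => β y A B) K) :
    ∃ C, 0 ≤ C ∧ ∀ y ∈ K, ∀ k, |β y k k| ≤ C * ∑ i, ∑ j, k i j ^ 2 := by
  obtain ⟨C, hC⟩ := hK.exists_bound_of_continuousOn (f := fun y (p q : Fin 4 × Fin 4) =>
    β y (single p.1 p.2 1) (single q.1 q.2 1))
    (continuousOn_pi.2 fun p => continuousOn_pi.2 fun q => hc _ _)
  refine ⟨|C| * 16, by positivity, fun y hy k => ?_⟩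
  have h1 : ∑ p : Fin 4 × Fin 4, k p.1 p.2 • single p.1 p.2 (1 : ℝ) = k := by
    rw [Fintype.sum_prod_type]
    simpa using (matrix_eq_sum_single k).symm
  have h2 : ∀ p q : Fin 4 × Fin 4, |β y (single p.1 p.2 1) (single q.1 q.2 1)| ≤ |C| := fun p q =>
    ((norm_le_pi_norm _ q).trans ((norm_le_pi_norm _ p).trans (hC y hy))).trans (le_abs_self C)
  have h3 := sq_sum_le_card_mul_sum_sq (s := Finset.univ) (f := fun p : Fin 4 × Fin 4 =>
    |k p.1 p.2|)
  simp only [sq_abs, Finset.card_univ, Fintype.card_prod, Fintype.card_fin] at h3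
  rw [← Fintype.sum_prod_type' fun i j => k i j ^ 2, mul_assoc]
  refine le_trans ?_ (mul_le_mul_of_nonneg_left (h3.trans_eq (by norm_num)) (abs_nonneg C))
  conv_lhs => rw [← h1]
  simp only [map_sum, map_smul, LinearMap.sum_apply, LinearMap.smul_apply, smul_eq_mul, sq,
    Finset.sum_mul, Finset.mul_sum]
  refine (Finset.abs_sum_le_sum_abs _ _).trans (Finset.sum_le_sum fun p _ =>
    (Finset.abs_sum_le_sum_abs _ _).trans (Finset.sum_le_sum fun q _ => ?_))
  rw [abs_mul, abs_mul]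
  exact (mul_le_mul_of_nonneg_left (mul_le_mul_of_nonneg_left (h2 _ _) (abs_nonneg _))
    (abs_nonneg _)).trans_eq (by ring)

theorem div_aux_rring (G : Tn) (p : E4) (k : Mat) :
    rring G (fun _ => k) p = Matrix.of fun i j => ∑ a, ((G p)⁻¹ * k * rm G a i p) a j := by
  ext i j
  simp only [rring, rm, fm, Geo.rring, Matrix.mul_apply, Matrix.of_apply, Finset.sum_apply,
    Pi.mul_apply]
  rfl

theorem div_aux_pot {G : Tn} {U K : Set E4} (hG : Good G U) (hK : IsCompact K) (hKU : K ⊆ U) :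
    ∃ C, 0 ≤ C ∧ ∀ y ∈ K, ∀ k, |pot G y k| ≤ C * ipM (G y) k k := by
  have h1 : ∀ y A B, rring G (fun _ => A + B) y =
      rring G (fun _ => A) y + rring G (fun _ => B) y := fun y A B => by
    ext i j
    simp [div_aux_rring, Matrix.mul_add, Matrix.add_mul, Finset.sum_add_distrib]
  have h2 : ∀ y (c : ℝ) A, rring G (fun _ => c • A) y = c • rring G (fun _ => A) y :=
    fun y c A => by
      ext i j
      simp [div_aux_rring, Finset.mul_sum]
  obtain ⟨C, h0, hC⟩ := div_aux_quad hK (β := fun y => LinearMap.mk₂ ℝ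
    (fun A B => -2 * ipM (G y) (rring G (fun _ => A) y) B +
      2 * ipM (G y) (ric G y * (G y)⁻¹ * A) B + 6 * ipM (G y) A B)
    (fun A A' B => by simp only [h1, Matrix.mul_add, lin_ipM_add_left]; ring)
    (fun c A B => by simp only [h2, Matrix.mul_smul, lin_ipM_smul_left, smul_eq_mul]; ring)
    (fun A B B' => by simp only [lin_ipM_add_right]; ring)
    (fun c A B => by simp only [lin_ipM_smul_right, smul_eq_mul]; ring)) fun A B =>
      (((continuousOn_const.mul
        (smo_ipT hG (bs_sm_rring hG (smo_const A U)) (smo_const B U)).continuousOn).add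
        (continuousOn_const.mul (smo_ipT hG (smo_mul (smo_mul (bs_sm_ric hG) (bs_sm_inv hG))
          (smo_const A U)) (smo_const B U)).continuousOn)).add (continuousOn_const.mul
        (smo_ipT hG (smo_const A U) (smo_const B U)).continuousOn)).mono hKU
  obtain ⟨B, hB⟩ := hK.exists_bound_of_continuousOn (f := fun y i j => G y i j)
    (continuousOn_pi.2 fun i => continuousOn_pi.2 fun j => (hG.smooth i j).continuousOn.mono hKU)
  refine ⟨C * (16 * B ^ 2), by positivity, fun y hy k => (hC y hy k).trans ?_⟩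
  rw [mul_assoc]
  exact mul_le_mul_of_nonneg_left (lin_le_ipM (hG.pos y (hKU hy))
    (fun i j => (norm_le_pi_norm _ j).trans ((norm_le_pi_norm _ i).trans (hB y hy))) k) h0

omit [MeasurableSpace M] [BorelSpace M] in
/-- In the patches of `exists_atl` the potential is a quadratic form in `h` with coefficients
bounded on `Qc 1`; `bs_rring_at`, `lin_le_ipM`. -/
theorem exists_pot_bound (hg : GoodT g) : ∃ C, ∀ h, SmG h → ∀ x, |GPot g h x| ≤ C * n0 g h x := by
  obtain ⟨I, _, Θ, χ, A, -⟩ := exists_atl (M := M) (fun _ => univ) fun _ => univ_mem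
  have h4 : Qc 1 ⊆ Q 4 := atl_Qc_sub (by norm_num)
  choose C h0 hC using fun a => div_aux_pot (hg.patch (A.pt a)) (atl_isCompact_Qc 1) h4
  refine ⟨∑ a, C a, fun h hh x => ?_⟩
  obtain ⟨a, y, hy, rfl⟩ := A.cover x
  refine le_trans ?_ (mul_le_mul_of_nonneg_right
    (Finset.single_le_sum (fun a _ => h0 a) (Finset.mem_univ a)) (n0_nonneg hg h _))
  rw [(A.pt a).GPot_eq (h4 hy) hg hh, (A.pt a).n0_eq (h4 hy)]
  exact hC a y hy _

theorem exists_lower (hg : GoodT g) : ∃ C, ∀ h, SmG h → (∀ x, (h x).IsSymm) →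
    -C * ∫ x, n0 g h x ∂volT g ≤ ∫ x, ipg g (GP g h) h x ∂volT g := by
  obtain ⟨C, hC⟩ := exists_pot_bound hg
  refine ⟨C, fun h hh hs => ?_⟩
  rw [int_energy hg hh hs, ← integral_const_mul]
  refine integral_mono (hg.integrable (continuous_const.mul (sm_n0 hg hh).continuous))
    (hg.integrable ((sm_GD hg hh hh).continuous.add (sm_GPot hg hh).continuous)) fun x => ?_
  have h1 := (abs_le.1 (hC h hh x)).1
  have h2 := GD_nonneg hg h x
  simp only
  linarith

end Pool.Agent.Lib.MP_94aef8_gt
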