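import Pool.Agent.Lib.MP_94aef8_gt.C.Loc2

/-!
Solutions of the gauged equation are Einstein.
-/

open scoped Manifold ContDiff Topology
open Matrix Filter Set

namespace Pool.Agent.Lib.MP_94aef8_gt

variable {M : Type} [TopologicalSpace M] [ChartedSpace E4 M] [IsManifold (𝓡 4) ∞ M]
variable {g h : M → Mat}

/-- The squared length of a vector field. -/
noncomputable def nV (g : M → Mat) (X : M → Fin 4 → ℝ) (x : M) : ℝ := X x ⬝ᵥ g x *ᵥ X x

omit [IsManifold (𝓡 4) ∞ M] in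
theorem Pt.nV_eq {π : E4 → M} {U : Set E4} (hπ : Pt π U) {y : E4} (hy : y ∈ U) (g : M → Mat)
    (X : M → Fin 4 → ℝ) : nV g X (π y) = ipV (gpull π g) (gpullV π X) (gpullV π X) y := by
  have hJ := hπ.isUnit hy
  have e : jm π y *ᵥ ((jm π y)⁻¹ *ᵥ X (π y)) = X (π y) := by
    rw [mulVec_mulVec, Matrix.mul_nonsing_inv _ hJ, one_mulVec]
  rw [nV, ipV, gpull, gpullV, ← mulVec_mulVec, ← mulVec_mulVec, e, mulVec_transpose,
    dotProduct_comm ((jm π y)⁻¹ *ᵥ X (π y)), ← dotProduct_mulVec, e, dotProduct_comm]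

theorem sm_nV (hg : SmG g) {X : M → Fin 4 → ℝ} (hX : SmVF X) : Sm (nV g X) := sm_of_charts fun x =>
  (smo_dot (hX x) (smo_mulVec (hg x) (hX x))).congr fun _ hy => (pt_ch x).nV_eq hy g X

theorem GPhi_eq_lie (hg : GoodT g) (hh : SmG h) (hg' : GoodT (g + h)) (x : M) : GPhi g h x =
    GRic (g + h) x - (1 / 2 : ℝ) • GLie (g + h) (GW g h) x + (3 : ℝ) • (g + h) x := by
  have e : gpullV (ch x) (GW g h) =ᶠ[𝓝 (c0 x)] wv (gpull (ch x) g) (gpull (ch x) h) :=
    eventually_of_mem ((pt_ch x).isOpen.mem_nhds (c0_mem x)) fun _ hy =>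
      (pt_ch x).GW_eq hy hg hh hg'
  rw [GLie, bs_lie_congr EventuallyEq.rfl e, GRic, gpull_add]
  simp only [GPhi, atc, Phi, dt, gpull_ch_c0, Pi.add_apply]

/-- At a maximum `x` of `nV g X` apply `bs_gauge` in the chart `ch x`. -/
theorem gauge_zero [CompactSpace M] (hg : GoodT g) {X : M → Fin 4 → ℝ} (hX : SmVF X)
    (e : ∀ x, GRic g x - (1 / 2 : ℝ) • GLie g X x + (3 : ℝ) • g x = 0) : X = 0 := by
  funext y
  have hc := (sm_nV hg.smooth hX).continuous
  obtain ⟨x, -, hx⟩ := isCompact_univ.exists_isMaxOn ⟨y, mem_univ y⟩ hc.continuousOn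
  have pt := pt_ch x
  have h1 : IsLocalMax (ipV (gpull (ch x) g) (gpullV (ch x) X) (gpullV (ch x) X)) (c0 x) := by
    filter_upwards [pt.isOpen.mem_nhds (c0_mem x)] with z hz
    rw [← pt.nV_eq hz, ← pt.nV_eq (c0_mem x), ch_c0]
    exact hx (mem_univ _)
  have h2 := bs_gauge (hg.patch pt) (c0_mem x) (hX x) (fun z hz => by
    rw [← pt.GRic_eq hz hg, ← pt.GLie_eq hz hg hX]
    have h3 := congrArg (fun A => (jm (ch x) z)ᵀ * A * jm (ch x) z) (e (ch x z))
    simpa only [gpull, Matrix.mul_add, Matrix.add_mul, Matrix.mul_sub, Matrix.sub_mul,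
      Matrix.mul_smul, Matrix.smul_mul, Matrix.mul_zero, Matrix.zero_mul] using h3) h1
  rw [← pt.nV_eq (c0_mem x), ch_c0] at h2
  by_contra hy
  have h4 := (hg.pos y).dotProduct_mulVec_pos hy
  have h5 : nV g X y ≤ nV g X x := hx (mem_univ y)
  rw [star_trivial] at h4
  exact absurd (h4.trans_le (h5.trans h2)) (lt_irrefl 0)

theorem einstein_of_GPhi [CompactSpace M] (hg : GoodT g) (hh : SmG h) (hg' : GoodT (g + h))
    (e : ∀ x, GPhi g h x = 0) (x : M) : GRic (g + h) x = (-3 : ℝ) • (g + h) x := by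
  have h0 := gauge_zero hg' (smVF_GW hg hh hg') fun y => (GPhi_eq_lie hg hh hg' y).symm.trans (e y)
  have h1 := (GPhi_eq_lie hg hh hg' x).symm.trans (e x)
  have h2 : gpullV (ch x) (0 : M → Fin 4 → ℝ) = 0 := by
    funext z
    simp [gpullV]
  rw [h0, GLie, h2, bs_lie_zero, smul_zero, sub_zero] at h1
  rw [neg_smul]
  exact eq_neg_of_add_eq_zero_left h1

theorem einstein_of_eq [CompactSpace M] (hg : GoodT g) (hh : SmG h) (hg' : GoodT (g + h))
    (e : ∀ x, GE g x + (1 / 2 : ℝ) • GP g h x + GQ g h x = 0) (x : M) :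
    GRic (g + h) x = (-3 : ℝ) • (g + h) x :=
  einstein_of_GPhi hg hh hg' (fun y => (GPhi_eq hg hh hg' y).trans (e y)) x

end Pool.Agent.Lib.MP_94aef8_gt
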