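import Pool.Agent.Lib.MP_94aef8_gt.C.Vol

/-!
The volume measure: finiteness, positivity, change of the metric, diffeomorphisms.
-/

open scoped Manifold ContDiff Topology ENNReal
open Matrix Filter Set MeasureTheory

namespace Pool.Agent.Lib.MP_94aef8_gt

variable {M : Type} [TopologicalSpace M] [ChartedSpace E4 M] [IsManifold (𝓡 4) ∞ M]
  [CompactSpace M] [MeasurableSpace M] [BorelSpace M]
variable {g g' h : M → Mat}

/-- As `vol_finite` of `Lib/MP_40de08_gt/Vol.lean`. -/
theorem GoodT.finite (hg : GoodT g) : IsFiniteMeasure (volT g) := by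
  have : IsLocallyFiniteMeasure (volT g) := ⟨fun x => by
    obtain ⟨K, hK, h1, h2⟩ := local_compact_nhds (chart_target_mem_nhds E4 x)
    have h3 : ch x '' K ∈ 𝓝 (ch x (c0 x)) := (chartAt E4 x).symm.image_mem_nhds (c0_mem x) hK
    rw [ch_c0] at h3
    refine ⟨_, h3, ?_⟩
    rw [(pt_ch x).vol_image h2.measurableSet h1 ((chartAt E4 x).symm.injOn.mono h1)]
    exact Integrable.lintegral_lt_top
      ((((pt_ch x).continuousOn_rho hg).mono h1).integrableOn_compact h2)⟩
  exact ⟨isCompact_univ.measure_lt_top⟩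

omit [CompactSpace M] in
theorem GoodT.openPos (hg : GoodT g) : (volT g).IsOpenPosMeasure := by
  refine ⟨fun U hU ⟨x, hx⟩ h0 => ?_⟩
  have hW := (pt_ch x).continuousOn.isOpen_inter_preimage (pt_ch x).isOpen hU
  have h1 := measure_mono_null ((image_mono (inter_subset_right (s := (chartAt E4 x).target))).trans
    (image_preimage_subset (ch x) U)) h0
  rw [(pt_ch x).vol_image hW.measurableSet inter_subset_left
    ((chartAt E4 x).symm.injOn.mono inter_subset_left), lintegral_eq_zero_iff'
    ((((pt_ch x).continuousOn_rho hg).mono inter_subset_left).aemeasurable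
      hW.measurableSet).ennreal_ofReal] at h1
  have h2 : ∀ᵐ p ∂(volume.restrict ((chartAt E4 x).target ∩ ch x ⁻¹' U)), False := by
    filter_upwards [h1, ae_restrict_mem hW.measurableSet] with p h hp
    exact (ENNReal.ofReal_pos.2 ((pt_ch x).rho_pos hg hp.1)).ne' h
  rw [eventually_false_iff_eq_bot, ae_eq_bot, Measure.restrict_eq_zero] at h2
  refine hW.measure_ne_zero volume ⟨c0 x, c0_mem x, ?_⟩ h2
  rwa [mem_preimage, ch_c0]

theorem GoodT.integrable (hg : GoodT g) {F : M → ℝ} (hF : Continuous F) :
    Integrable F (volT g) :=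
  have := hg.finite
  hF.integrable_of_hasCompactSupport (HasCompactSupport.of_compactSpace F)

theorem GoodT.vol_pos [Nonempty M] (hg : GoodT g) : 0 < (volT g univ).toReal :=
  have := hg.finite
  have := hg.openPos
  ENNReal.toReal_pos (isOpen_univ.measure_ne_zero _ univ_nonempty) (measure_ne_top _ _)

theorem GoodT.eq_zero_of_int (hg : GoodT g) {F : M → ℝ} (hF : Continuous F) (h0 : ∀ x, 0 ≤ F x)
    (e : ∫ x, F x ∂volT g = 0) (x : M) : F x = 0 :=
  have := hg.openPos
  congrFun ((hF.ae_eq_iff_eq (volT g) continuous_zero).1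
    ((integral_eq_zero_iff_of_nonneg h0 (hg.integrable hF)).1 e)) x

theorem GoodT.eq_zero_of_n0 (hg : GoodT g) (hh : SmG h) (e : ∫ x, n0 g h x ∂volT g = 0) :
    h = 0 :=
  funext fun x => lin_ipM_eq_zero (hg.pos x)
    (hg.eq_zero_of_int (sm_n0 hg hh).continuous (n0_nonneg hg h) e x)

theorem GoodT.ofReal_int (hg : GoodT g) {F : M → ℝ} (hF : Continuous F) (h0 : ∀ x, 0 ≤ F x)
    (s : Set M) :
    ENNReal.ofReal (∫ x in s, F x ∂volT g) = ∫⁻ x in s, ENNReal.ofReal (F x) ∂volT g :=
  ofReal_integral_eq_lintegral_ofReal (hg.integrable hF).integrableOn (Eventually.of_forall h0)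

/-- `vol_ext`, `volT_restrict`, `Pt.rat_eq`. -/
theorem volT_eq_withDensity (hg : GoodT g) (hg' : GoodT g') :
    volT g' = (volT g).withDensity fun x => ENNReal.ofReal (rat g g' x) := by
  have hm : Measurable fun x => ENNReal.ofReal (rat g g' x) :=
    (sm_rat hg hg').continuous.measurable.ennreal_ofReal
  refine vol_ext fun x => Measure.ext_of_lintegral _ fun F hF => ?_
  have hT := (pt_ch x).isOpen.measurableSet
  have hi : InjOn (ch x) (chartAt E4 x).target := (chartAt E4 x).symm.injOn
  have e : (chartAt E4 x).source = ch x '' (chartAt E4 x).target :=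
    (chartAt E4 x).symm_image_target_eq_source.symm
  rw [setLIntegral_withDensity_eq_setLIntegral_mul _ hm hF (chartAt E4 x).open_source.measurableSet,
    e, (pt_ch x).lint_eq hT Subset.rfl hi hg' hF, (pt_ch x).lint_eq hT Subset.rfl hi hg (hm.mul hF)]
  refine setLIntegral_congr_fun hT fun y hy => ?_
  have h0 : 0 ≤ rat g g' (ch x y) := Real.sqrt_nonneg _
  simp only [Pi.mul_apply]
  rw [(pt_ch x).rat_eq hy hg g', ENNReal.ofReal_mul h0]
  ring

theorem int_volT_rat (hg : GoodT g) (hg' : GoodT g') (F : M → ℝ) :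
    ∫ x, F x ∂volT g' = ∫ x, rat g g' x * F x ∂volT g := by
  rw [volT_eq_withDensity hg hg', integral_withDensity_eq_integral_toReal_smul
    (sm_rat hg hg').continuous.measurable.ennreal_ofReal
    (Eventually.of_forall fun _ => ENNReal.ofReal_lt_top)]
  exact integral_congr_ae (Eventually.of_forall fun x => by
    have h0 : 0 ≤ rat g g' x := Real.sqrt_nonneg _
    simp only [ENNReal.toReal_ofReal h0, smul_eq_mul])

theorem volT_univ_rat (hg : GoodT g) (hg' : GoodT g') :
    (volT g' univ).toReal = ∫ x, rat g g' x ∂volT g := by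
  simpa [Measure.real] using int_volT_rat hg hg' fun _ => 1

theorem volT_smul (hg : GoodT g) {c : ℝ} (hc : 0 < c) :
    volT (c • g) = ENNReal.ofReal (c ^ 2) • volT g := by
  have e : rat g (c • g) = fun _ => c ^ 2 := funext fun x => by
    rw [rat, Pi.smul_apply, det_smul, mul_div_assoc, div_self (hg.pos x).det_pos.ne', mul_one,
      Fintype.card_fin, show c ^ 4 = (c ^ 2) ^ 2 by ring, Real.sqrt_sq (sq_nonneg c)]
  rw [volT_eq_withDensity hg (hg.smul hc), e, withDensity_const]

section

variable {N : Type} [TopologicalSpace N] [ChartedSpace E4 N] [IsManifold (𝓡 4) ∞ N]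
  [CompactSpace N] [MeasurableSpace N] [BorelSpace N]

omit [CompactSpace M] [MeasurableSpace M] [BorelSpace M] [CompactSpace N] [MeasurableSpace N]
  [BorelSpace N] [IsManifold (𝓡 4) ∞ M] [IsManifold (𝓡 4) ∞ N] in
theorem pt_diffeo (φ : Diffeomorph (𝓡 4) (𝓡 4) N M ∞) : Pt φ univ :=
  pt_of_inverse (F' := φ.symm) isOpen_univ φ.contMDiff.contMDiffOn
    (fun _ _ => φ.symm.contMDiff.mdifferentiableAt (by simp)) fun y _ => φ.symm_apply_apply y

omit [CompactSpace M] [IsManifold (𝓡 4) ∞ M] in
theorem vol2_aux_meas (x : M) {s : Set M} (hs : MeasurableSet s) :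
    MeasurableSet ((chartAt E4 x).target ∩ ch x ⁻¹' s) := by
  have h := (chartAt E4 x).open_target.measurableSet.subtype_image
    ((chartAt E4 x).continuousOn_symm.domRestrict.measurable hs)
  rwa [Set.domRestrict_eq, preimage_comp, Subtype.image_preimage_coe] at h

omit [CompactSpace M] in
/-- On a measurable `s` in the source of the chart at `x` apply `Pt.vol_image` to `ch x` and to
`φ ∘ ch x`. -/
theorem volT_diffeo (φ : Diffeomorph (𝓡 4) (𝓡 4) N M ∞) (g : M → Mat) :
    Measure.map φ (volT (gpull φ g)) = volT g := by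
  have h1 : Measurable φ := φ.continuous.measurable
  have h2 : Measurable φ.symm := φ.symm.continuous.measurable
  have key : volT (gpull φ g) = Measure.map φ.symm (volT g) := by
    refine vol_ext fun x => Measure.ext fun s hs => ?_
    have hp : Pt (φ ∘ ch x) (chartAt E4 x).target :=
      (pt_diffeo φ).comp (pt_ch x) (mapsTo_univ _ _)
    have hD := vol2_aux_meas x hs
    have e : φ.symm ⁻¹' (s ∩ (chartAt E4 x).source) =
        (φ ∘ ch x) '' ((chartAt E4 x).target ∩ ch x ⁻¹' s) := by
      ext y
      constructor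
      · intro hy
        have e1 : ch x (chartAt E4 x (φ.symm y)) = φ.symm y := (chartAt E4 x).left_inv hy.2
        exact ⟨chartAt E4 x (φ.symm y), ⟨(chartAt E4 x).map_source hy.2,
          by rw [mem_preimage, e1]; exact hy.1⟩, by
            rw [Function.comp_apply, e1, φ.apply_symm_apply]⟩
      · rintro ⟨p, hp, rfl⟩
        rw [mem_preimage, Function.comp_apply, φ.symm_apply_apply]
        exact ⟨hp.2, (chartAt E4 x).map_target hp.1⟩
    rw [volT_restrict, volC_apply _ _ hs, Measure.restrict_apply hs,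
      Measure.map_apply h2 (hs.inter (chartAt E4 x).open_source.measurableSet), e,
      hp.vol_image hD inter_subset_left (φ.toEquiv.injective.comp_injOn
        ((chartAt E4 x).symm.injOn.mono inter_subset_left))]
    refine setLIntegral_congr_fun hD fun p hp => ?_
    simp only [rho, gpull_comp (pt_diffeo φ) (pt_ch x) hp.1 (mem_univ _)]
  rw [key, Measure.map_map h1 h2]
  have e : (φ : N → M) ∘ φ.symm = id := funext φ.apply_symm_apply
  rw [e, Measure.map_id]

omit [CompactSpace M] in
theorem volT_diffeo_univ (φ : Diffeomorph (𝓡 4) (𝓡 4) N M ∞) (g : M → Mat) :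
    volT (gpull φ g) univ = volT g univ := by
  rw [← volT_diffeo φ g, Measure.map_apply φ.continuous.measurable MeasurableSet.univ,
    preimage_univ]

end

end Pool.Agent.Lib.MP_94aef8_gt
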