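import Pool.Agent.Lib.MP_94aef8_gt.C.Met2
import Pool.Agent.Lib.MP_94aef8_gt.C.Vol2
import Pool.Agent.Lib.MP_94aef8_gt.C.Loc2

/-!
From an Einstein tensor field to an Einstein constant.
-/

open scoped Manifold ContDiff Topology
open Matrix Filter Set MeasureTheory

namespace Pool.Agent.Lib.MP_94aef8_gt

variable {M : Type} [TopologicalSpace M] [CompactSpace M] [ChartedSpace E4 M]
  [IsManifold (𝓡 4) ∞ M] [MeasurableSpace M] [BorelSpace M]

theorem mem_constants [Nonempty M] {g : M → Mat} (hg : GoodT g)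
    (hE : ∀ x, GRic g x = (-3 : ℝ) • g x) : -3 * √(volT g univ).toReal ∈ constants M := by
  have hv := hg.vol_pos
  have := hg.finite
  set v := (volT g univ).toReal with hv'
  have h1 : 0 < √v := Real.sqrt_pos.2 hv
  obtain ⟨G, hG⟩ := exists_met (hg.smul (inv_pos.2 h1))
  have h2 : IsEinstein G (-3 * √v) := by
    refine (isEinstein_iff G _).2 fun x => ?_
    rw [hG, GRic_smul g (inv_pos.2 h1).ne', hE, Pi.smul_apply, smul_smul, mul_assoc,
      mul_inv_cancel₀ h1.ne', mul_one]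
  refine ⟨⟨G, ?_, _, h2⟩, h2⟩
  rw [vol_eq, hG, volT_smul hg (inv_pos.2 h1), Measure.smul_apply, smul_eq_mul, inv_pow,
    Real.sq_sqrt hv.le, ← ENNReal.ofReal_toReal (measure_ne_top (volT g) univ), ← hv',
    ← ENNReal.ofReal_mul (inv_pos.2 hv).le, inv_mul_cancel₀ hv.ne', ENNReal.ofReal_one]

/-- An Einstein tensor field on a diffeomorphic manifold gives an Einstein constant. -/
theorem thmC [T2Space M] {N : Type} [TopologicalSpace N] [T2Space N] [CompactSpace N]
    [ChartedSpace E4 N] [IsManifold (𝓡 4) ∞ N] [MeasurableSpace N] [BorelSpace N] [Nonempty N]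
    (φ : Diffeomorph (𝓡 4) (𝓡 4) N M ∞) {g : N → Mat} (hg : GoodT g)
    (hE : ∀ x, GRic g x = (-3 : ℝ) • g x) :
    0 < (volT g univ).toReal ∧ -3 * √(volT g univ).toReal ∈ constants M := by
  refine ⟨hg.vol_pos, ?_⟩
  have : Nonempty M := Nonempty.map φ inferInstance
  have h1 := pt_diffeo φ.symm
  rw [← volT_diffeo_univ φ.symm g]
  refine mem_constants (hg.gpull h1) fun x => ?_
  rw [GRic_gpull h1 hg, ← Pi.smul_apply, ← gpull_smul]
  exact gpull_at (hE _)

end Pool.Agent.Lib.MP_94aef8_gt
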