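import Pool.Agent.Lib.MP_94aef8_gt.C.Smooth

/-!
The global operators in patches: formulas, smoothness, linearity, invariance.
-/

open scoped Manifold ContDiff Topology
open Matrix Filter Set

namespace Pool.Agent.Lib.MP_94aef8_gt

variable {M : Type} [TopologicalSpace M] [ChartedSpace E4 M]

/-- The vector field of Green's formula. -/
noncomputable def GgX (g h k : M → Mat) (x : M) : Fin 4 → ℝ :=
  gX (gpull (ch x) g) (gpull (ch x) h) (gpull (ch x) k) (c0 x)

/-- The vector field of Koiso's formula. -/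
noncomputable def GkX (g h : M → Mat) : M → Fin 4 → ℝ := atc kX g h

/-- The gauge vector field. -/
noncomputable def GW (g h : M → Mat) : M → Fin 4 → ℝ := atc wv g h

/-- The Bianchi operator. -/
noncomputable def GBian (g h : M → Mat) : M → Fin 4 → ℝ := atc bian g h

/-- The Lie derivative of the metric. -/
noncomputable def GLie (g : M → Mat) (X : M → Fin 4 → ℝ) (x : M) : Mat :=
  lie (gpull (ch x) g) (gpullV (ch x) X) (c0 x)

/-- The gradient. -/
noncomputable def GGrad (g : M → Mat) (f : M → ℝ) (x : M) : Fin 4 → ℝ :=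
  grad (gpull (ch x) g) (f ∘ ch x) (c0 x)

variable [IsManifold (𝓡 4) ∞ M]
variable {π : E4 → M} {U : Set E4} {y : E4} {g h k : M → Mat} {X : M → Fin 4 → ℝ} {f : M → ℝ}

theorem Pt.good_add (hπ : Pt π U) (hg' : GoodT (g + h)) : Good (gpull π g + gpull π h) U :=
  gpull_add π g h ▸ hg'.patch hπ

theorem Pt.GRic_eq (hπ : Pt π U) (hy : y ∈ U) (hg : GoodT g) :
    gpull π (GRic g) y = ric (gpull π g) y :=
  nat_T (L := fun π => ric (gpull π g)) (fun _ => rfl)
    (fun t _ hz => bs_ric t.ld hz (hg.patch t.pt') (t.evT hz g)) hπ hy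

theorem Pt.GE_eq (hπ : Pt π U) (hy : y ∈ U) (hg : GoodT g) :
    gpull π (GE g) y = Err (gpull π g) y := by
  have e : GE g = GRic g + (3 : ℝ) • g := rfl
  rw [e, gpull_add, gpull_smul, Pi.add_apply, hπ.GRic_eq hy hg]
  rfl

theorem Pt.GP_eq (hπ : Pt π U) (hy : y ∈ U) (hg : GoodT g) (hh : SmG h) :
    gpull π (GP g h) y = PP (gpull π g) (gpull π h) y := by
  have e : GP g h = atc lich g h + (6 : ℝ) • h := by
    funext x
    simp only [GP, atc, PP, gpull_ch_c0, Pi.add_apply, Pi.smul_apply]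
  have h1 : gpull π (atc lich g h) y = lich (gpull π g) (gpull π h) y :=
    nat_T (L := fun π => lich (gpull π g) (gpull π h)) (fun _ => rfl) (fun t _ hz =>
      bs_lich t.ld hz (hg.patch t.pt') (t.evT hz g) (hh.patch t.pt') (t.evT hz h)) hπ hy
  rw [e, gpull_add, gpull_smul, Pi.add_apply, h1]
  rfl

theorem Pt.GQ_eq (hπ : Pt π U) (hy : y ∈ U) (hg : GoodT g) (hh : SmG h) (hg' : GoodT (g + h)) :
    gpull π (GQ g h) y = QQ (gpull π g) (gpull π h) y :=
  nat_T (L := fun π => QQ (gpull π g) (gpull π h)) (fun _ => rfl) (fun t _ hz =>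
    bs_QQ t.ld hz (hg.patch t.pt') (t.evT hz g) (hh.patch t.pt') (t.evT hz h)
      (t.pt'.good_add hg')) hπ hy

theorem Pt.GgX_eq (hπ : Pt π U) (hy : y ∈ U) (hg : GoodT g) (hh : SmG h) (hk : SmG k) :
    gpullV π (GgX g h k) y = gX (gpull π g) (gpull π h) (gpull π k) y :=
  nat_V (L := fun π => gX (gpull π g) (gpull π h) (gpull π k)) (fun _ => rfl) (fun t _ hz =>
    bs_gX t.ld hz (hg.patch t.pt') (t.evT hz g) (hh.patch t.pt') (t.evT hz h) (hk.patch t.pt')
      (t.evT hz k)) hπ hy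

theorem Pt.GkX_eq (hπ : Pt π U) (hy : y ∈ U) (hg : GoodT g) (hh : SmG h) :
    gpullV π (GkX g h) y = kX (gpull π g) (gpull π h) y :=
  nat_V (L := fun π => kX (gpull π g) (gpull π h)) (fun _ => rfl) (fun t _ hz =>
    bs_kX t.ld hz (hg.patch t.pt') (t.evT hz g) (hh.patch t.pt') (t.evT hz h)) hπ hy

theorem Pt.GW_eq (hπ : Pt π U) (hy : y ∈ U) (hg : GoodT g) (hh : SmG h) (hg' : GoodT (g + h)) :
    gpullV π (GW g h) y = wv (gpull π g) (gpull π h) y :=
  nat_V (L := fun π => wv (gpull π g) (gpull π h)) (fun _ => rfl) (fun t _ hz =>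
    bs_wv t.ld hz (hg.patch t.pt') (t.evT hz g) (hh.patch t.pt') (t.evT hz h)
      (t.pt'.good_add hg')) hπ hy

theorem Pt.GBian_eq (hπ : Pt π U) (hy : y ∈ U) (hg : GoodT g) (hh : SmG h) :
    gpullV π (GBian g h) y = bian (gpull π g) (gpull π h) y :=
  nat_V (L := fun π => bian (gpull π g) (gpull π h)) (fun _ => rfl) (fun t _ hz =>
    bs_bian t.ld hz (hg.patch t.pt') (t.evT hz g) (hh.patch t.pt') (t.evT hz h)) hπ hy

theorem Pt.GLie_eq (hπ : Pt π U) (hy : y ∈ U) (hg : GoodT g) (hX : SmVF X) :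
    gpull π (GLie g X) y = lie (gpull π g) (gpullV π X) y :=
  nat_T (L := fun π => lie (gpull π g) (gpullV π X)) (fun _ => rfl) (fun t _ hz =>
    bs_lie t.ld hz (hg.patch t.pt') (t.evT hz g) (hX.patch t.pt') (t.evV hz X)) hπ hy

theorem Pt.GGrad_eq (hπ : Pt π U) (hy : y ∈ U) (hg : GoodT g) (hf : Sm f) :
    gpullV π (GGrad g f) y = grad (gpull π g) (f ∘ π) y :=
  nat_V (L := fun π => grad (gpull π g) (f ∘ π)) (fun _ => rfl) (fun t _ hz =>
    bs_grad t.ld hz (hg.patch t.pt') (t.evT hz g) (t.pt'.sm_comp hf) (t.evF hz f)) hπ hy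

theorem Pt.GD_eq (hπ : Pt π U) (hy : y ∈ U) (hg : GoodT g) (hh : SmG h) (hk : SmG k) :
    GD g h k (π y) = ipD (gpull π g) (gpull π h) (gpull π k) y :=
  nat_F (L := fun π => ipD (gpull π g) (gpull π h) (gpull π k)) (fun _ => rfl) (fun t _ hz =>
    bs_ipD t.ld hz (hg.patch t.pt') (t.evT hz g) (hh.patch t.pt') (t.evT hz h) (hk.patch t.pt')
      (t.evT hz k)) hπ hy

theorem Pt.GDiv_eq (hπ : Pt π U) (hy : y ∈ U) (hg : GoodT g) (hX : SmVF X) :
    GDiv g X (π y) = dvg (gpull π g) (gpullV π X) y :=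
  nat_F (L := fun π => dvg (gpull π g) (gpullV π X)) (fun _ => rfl) (fun t _ hz =>
    bs_dvg t.ld hz (hg.patch t.pt') (t.evT hz g) (hX.patch t.pt') (t.evV hz X)) hπ hy

theorem loc_aux0 (G k : Tn) (p : E4) : rring G (fun _ => k p) p = rring G k p := bs_rring_at rfl

theorem loc_aux1 {π' : E4 → M} {U' V : Set E4} {τ : E4 → E4} (t : Trs π π' U' τ V) (hy : y ∈ V)
    (hg : GoodT g) (hh : SmG h) :
    ipM (gpull π g y) (rring (gpull π g) (gpull π h) y) (gpull π h y) =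
      ipM (gpull π' g (τ y)) (rring (gpull π' g) (gpull π' h) (τ y)) (gpull π' h (τ y)) ∧
    ipM (gpull π g y) (ric (gpull π g) y * (gpull π g y)⁻¹ * gpull π h y) (gpull π h y) =
      ipM (gpull π' g (τ y)) (ric (gpull π' g) (τ y) * (gpull π' g (τ y))⁻¹ * gpull π' h (τ y))
        (gpull π' h (τ y)) ∧
    ipM (gpull π g y) (gpull π h y) (gpull π h y) =
      ipM (gpull π' g (τ y)) (gpull π' h (τ y)) (gpull π' h (τ y)) := by
  have hJ := isUnit_iff_ne_zero.2 (t.ld.det y hy)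
  rw [bs_rring t.ld hy (hg.patch t.pt') (t.evT hy g) (hh.patch t.pt') (t.evT hy h),
    bs_ric t.ld hy (hg.patch t.pt') (t.evT hy g), t.gpull hy g, t.gpull hy h]
  simp only [pull, lin_mulH_conj hJ, lin_ipM_conj hJ, and_self]

theorem Pt.GKoi_eq (hπ : Pt π U) (hy : y ∈ U) (hg : GoodT g) (hh : SmG h) :
    GKoi g h (π y) = koi (gpull π g) y (gpull π h y) :=
  nat_F (L := fun π y => koi (gpull π g) y (gpull π h y))
    (fun x => by rw [GKoi, gpull_ch_c0]) (fun t _ hz => by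
      obtain ⟨a, b, c⟩ := loc_aux1 t hz hg hh
      simp only [koi, loc_aux0, a, b, c]) hπ hy

theorem Pt.GPot_eq (hπ : Pt π U) (hy : y ∈ U) (hg : GoodT g) (hh : SmG h) :
    GPot g h (π y) = pot (gpull π g) y (gpull π h y) :=
  nat_F (L := fun π y => pot (gpull π g) y (gpull π h y))
    (fun x => by rw [GPot, gpull_ch_c0]) (fun t _ hz => by
      obtain ⟨a, b, c⟩ := loc_aux1 t hz hg hh
      simp only [pot, loc_aux0, a, b, c]) hπ hy

theorem smG_GRic (hg : GoodT g) : SmG (GRic g) := fun x =>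
  smo_congr (bs_sm_ric (hg.patch (pt_ch x))) fun _ hy => (pt_ch x).GRic_eq hy hg

theorem smG_GE (hg : GoodT g) : SmG (GE g) := (smG_GRic hg).add (hg.smooth.smul 3)

theorem smG_GP (hg : GoodT g) (hh : SmG h) : SmG (GP g h) := fun x =>
  smo_congr (smo_add (bs_sm_lich (hg.patch (pt_ch x)) (hh x)) (smo_smul 6 (hh x)))
    fun _ hy => (pt_ch x).GP_eq hy hg hh

theorem smG_GP_iter (hg : GoodT g) (hh : SmG h) (i : ℕ) : SmG ((GP g)^[i] h) := by
  induction i with
  | zero => exact hh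
  | succ i ih =>
    rw [Function.iterate_succ_apply']
    exact smG_GP hg ih

theorem smG_GQ (hg : GoodT g) (hh : SmG h) (hg' : GoodT (g + h)) : SmG (GQ g h) := fun x =>
  smo_congr (bs_sm_QQ (hg.patch (pt_ch x)) (hh x) ((pt_ch x).good_add hg'))
    fun _ hy => (pt_ch x).GQ_eq hy hg hh hg'

theorem smVF_GgX (hg : GoodT g) (hh : SmG h) (hk : SmG k) : SmVF (GgX g h k) := fun x =>
  smo_congrV (bs_sm_gX (hg.patch (pt_ch x)) (hh x) (hk x)) fun _ hy => (pt_ch x).GgX_eq hy hg hh hk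

theorem smVF_GkX (hg : GoodT g) (hh : SmG h) : SmVF (GkX g h) := fun x =>
  smo_congrV (bs_sm_kX (hg.patch (pt_ch x)) (hh x)) fun _ hy => (pt_ch x).GkX_eq hy hg hh

theorem smVF_GW (hg : GoodT g) (hh : SmG h) (hg' : GoodT (g + h)) : SmVF (GW g h) := fun x =>
  smo_congrV (bs_sm_wv (hg.patch (pt_ch x)) (hh x) ((pt_ch x).good_add hg'))
    fun _ hy => (pt_ch x).GW_eq hy hg hh hg'

theorem smVF_GBian (hg : GoodT g) (hh : SmG h) : SmVF (GBian g h) := fun x =>
  smo_congrV (bs_sm_bian (hg.patch (pt_ch x)) (hh x)) fun _ hy => (pt_ch x).GBian_eq hy hg hh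

theorem smG_GLie (hg : GoodT g) (hX : SmVF X) : SmG (GLie g X) := fun x =>
  smo_congr (bs_sm_lie (hg.patch (pt_ch x)) (hX x)) fun _ hy => (pt_ch x).GLie_eq hy hg hX

theorem smVF_GGrad (hg : GoodT g) (hf : Sm f) : SmVF (GGrad g f) := fun x =>
  smo_congrV (bs_sm_grad (hg.patch (pt_ch x)) ((pt_ch x).sm_comp hf))
    fun _ hy => (pt_ch x).GGrad_eq hy hg hf

theorem sm_GD (hg : GoodT g) (hh : SmG h) (hk : SmG k) : Sm (GD g h k) :=
  sm_of_charts fun x => (bs_sm_ipD (hg.patch (pt_ch x)) (hh x) (hk x)).congr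
    fun _ hy => (pt_ch x).GD_eq hy hg hh hk

theorem sm_GDiv (hg : GoodT g) (hX : SmVF X) : Sm (GDiv g X) :=
  sm_of_charts fun x => (bs_sm_dvg (hg.patch (pt_ch x)) (hX x)).congr
    fun _ hy => (pt_ch x).GDiv_eq hy hg hX

theorem loc_aux2 {G k : Tn} (hG : Good G U) (hk : SmT k U) :
    ContDiffOn ℝ ∞ (ipT G (rring G k) k) U ∧
      ContDiffOn ℝ ∞ (ipT G (fun y => ric G y * (G y)⁻¹ * k y) k) U ∧
        ContDiffOn ℝ ∞ (ipT G k k) U :=
  ⟨smo_ipT hG (bs_sm_rring hG hk) hk,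
    smo_ipT hG (smo_mul (smo_mul (bs_sm_ric hG) (bs_sm_inv hG)) hk) hk, smo_ipT hG hk hk⟩

theorem sm_GKoi (hg : GoodT g) (hh : SmG h) : Sm (GKoi g h) :=
  sm_of_charts fun x => by
    obtain ⟨a, b, c⟩ := loc_aux2 (hg.patch (pt_ch x)) (hh x)
    refine ((a.neg.add b).add ((contDiffOn_const (c := (6 : ℝ))).mul c)).congr fun y hy => ?_
    rw [Function.comp_apply, (pt_ch x).GKoi_eq hy hg hh, koi, loc_aux0]
    rfl

theorem sm_GPot (hg : GoodT g) (hh : SmG h) : Sm (GPot g h) :=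
  sm_of_charts fun x => by
    obtain ⟨a, b, c⟩ := loc_aux2 (hg.patch (pt_ch x)) (hh x)
    refine ((((contDiffOn_const (c := (-2 : ℝ))).mul a).add
      ((contDiffOn_const (c := (2 : ℝ))).mul b)).add
        ((contDiffOn_const (c := (6 : ℝ))).mul c)).congr fun y hy => ?_
    rw [Function.comp_apply, (pt_ch x).GPot_eq hy hg hh, pot, loc_aux0]
    rfl

end Pool.Agent.Lib.MP_94aef8_gt
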