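import Pool.Agent.Lib.MP_94aef8_gt.C.Smooth

/-!
Riemannian metrics and their tensor fields.
-/

open scoped Manifold ContDiff Topology
open Matrix Filter Set MeasureTheory

namespace Pool.Agent.Lib.MP_94aef8_gt

variable {M : Type} [TopologicalSpace M] [ChartedSpace E4 M] [IsManifold (𝓡 4) ∞ M]

theorem met_aux1 (β : E4 →L[ℝ] E4 →L[ℝ] ℝ) (v w : E4) :
    β v w = v.ofLp ⬝ᵥ (Matrix.of fun i j => β (bas i) (bas j)) *ᵥ w.ofLp := by
  conv_lhs => rw [← sum_bas v, ← sum_bas w]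
  simp only [map_sum, map_smul, _root_.sum_apply, _root_.smul_apply, smul_eq_mul, dotProduct,
    mulVec, Matrix.of_apply, Finset.mul_sum]
  rw [Finset.sum_comm]
  exact Finset.sum_congr rfl fun i _ => Finset.sum_congr rfl fun j _ => by ring

theorem ip_eq (g : Met M) (x : M) (v w : E4) : ip g x v w = v.ofLp ⬝ᵥ gm g x *ᵥ w.ofLp :=
  met_aux1 (g.inner x) v w

theorem met_aux2 {N : Type} [TopologicalSpace N] [ChartedSpace E4 N] (g : Met M) (F : N → M)
    (x : N) (v w : E4) : ip g (F x) (mfderiv (𝓡 4) (𝓡 4) F x v) (mfderiv (𝓡 4) (𝓡 4) F x w) =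
      v.ofLp ⬝ᵥ gpull F (gm g) x *ᵥ w.ofLp := by
  have h : ∀ u : E4, jm F x *ᵥ u.ofLp = WithLp.ofLp (mfderiv (𝓡 4) (𝓡 4) F x u) := cmat_mulVec _
  rw [gpull, Matrix.mul_assoc, ← mulVec_mulVec, ← mulVec_mulVec, dotProduct_mulVec,
    vecMul_transpose, h, h]
  exact ip_eq g _ _ _

theorem met_aux3 (A : Mat) (i j : Fin 4) : (bas i).ofLp ⬝ᵥ A *ᵥ (bas j).ofLp = A i j := by
  simp [bas]

theorem coef_eq (g : Met M) (e : OpenPartialHomeomorph M E4) : coef g e = gpull e.symm (gm g) :=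
  funext fun p => Matrix.ext fun i j => (met_aux2 g e.symm p _ _).trans (met_aux3 _ i j)

theorem coef_chart (g : Met M) (x : M) : coef g (chartAt E4 x) = gpull (ch x) (gm g) := coef_eq g _

theorem met_aux4 (x : M) (v : E4) : ContMDiffOn (𝓡 4) (𝓡 4).tangent ∞
    (fun p => (Bundle.TotalSpace.mk' E4 (ch x p) (mfderiv (𝓡 4) (𝓡 4) (ch x) p v) :
      TangentBundle (𝓡 4) M)) (chartAt E4 x).target := by
  have h1 := (pt_ch x).smooth.contMDiffOn_tangentMapWithin (m := ∞) (by simp)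
    (pt_ch x).isOpen.uniqueMDiffOn
  have h2 : ContMDiff (𝓡 4) (𝓡 4).tangent ∞
      (fun p : E4 => (Bundle.TotalSpace.mk' E4 p v : TangentBundle (𝓡 4) E4)) :=
    contMDiff_vectorSpace_iff_contDiff.2 contDiff_const
  refine (h1.comp h2.contMDiffOn fun p hp => hp).congr fun p hp => ?_
  simp only [Function.comp, tangentMapWithin]
  rw [mfderivWithin_of_isOpen (pt_ch x).isOpen hp]

/-- See `SC.good` in `Lib/MP_40de08_gt/Chart.lean`. -/
theorem goodT_gm (g : Met M) : GoodT (gm g) := by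
  refine ⟨fun x i j => ?_, fun x => Matrix.posDef_iff_dotProduct_mulVec.2 ⟨?_, fun v hv => ?_⟩⟩
  · rw [← coef_chart]
    refine contMDiffOn_iff_contDiffOn.1 fun p hp => ?_
    have h : ContMDiffWithinAt (𝓡 4) ((𝓡 4).prod 𝓘(ℝ, ℝ)) ∞
        (fun m => Bundle.TotalSpace.mk' ℝ (E := Bundle.Trivial M ℝ) (ch x m)
          (g.inner (ch x m) (mfderiv (𝓡 4) (𝓡 4) (ch x) m (bas i))
            (mfderiv (𝓡 4) (𝓡 4) (ch x) m (bas j)))) (chartAt E4 x).target p := by
      apply ContMDiffWithinAt.clm_bundle_apply₂ (F₁ := E4) (F₂ := E4)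
      · exact ContMDiffAt.comp_contMDiffWithinAt p g.contMDiff.contMDiffAt ((pt_ch x).smooth p hp)
      · exact met_aux4 x (bas i) p hp
      · exact met_aux4 x (bas j) p hp
    simp only [Bundle.contMDiffWithinAt_totalSpace] at h
    exact h.2
  · ext i j
    exact g.symm _ _ _
  · exact (g.pos x (WithLp.toLp 2 v) fun h => hv (congrArg WithLp.ofLp h)).trans_eq (ip_eq g x _ _)

theorem isEinstein_iff (g : Met M) (c : ℝ) :
    IsEinstein g c ↔ ∀ x, GRic (gm g) x = c • gm g x := by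
  refine forall_congr' fun x => ?_
  rw [coef_chart, GRic, ← gpull_ch_c0 (gm g) x]
  rfl

theorem vol_eq [MeasurableSpace M] (g : Met M) : vol g = volT (gm g) := by
  simp only [vol, chartVol, coef_chart]
  rfl

theorem gm_inj {g g' : Met M} (e : gm g = gm g') : g = g' := by
  have h : g.inner = g'.inner := funext fun x => ContinuousLinearMap.ext fun v =>
    ContinuousLinearMap.ext fun w => (ip_eq g x v w).trans (e ▸ (ip_eq g' x v w).symm)
  cases g
  cases g'
  cases h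
  rfl

theorem isom_iff [MeasurableSpace M] (g g' : Ein1 M) : Isom g g' ↔
    ∃ F : Diffeomorph (𝓡 4) (𝓡 4) M M ∞, gm g.1 = gpull F (gm g'.1) :=
  exists_congr fun F => ⟨fun h => funext fun x => Matrix.ext fun i j =>
    (h x _ _).trans ((met_aux2 g'.1 F x _ _).trans (met_aux3 _ i j)),
    fun h x v w => (ip_eq g.1 x v w).trans (h ▸ (met_aux2 g'.1 F x v w).symm)⟩

end Pool.Agent.Lib.MP_94aef8_gt
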