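import Pool.Agent.Lib.MP_94aef8_gt.C.Met

/-!
The Riemannian metric of a positive smooth tensor field.
-/

open scoped Manifold ContDiff Topology
open Matrix Filter Set MeasureTheory

namespace Pool.Agent.Lib.MP_94aef8_gt

variable {M : Type} [TopologicalSpace M] [ChartedSpace E4 M] [IsManifold (𝓡 4) ∞ M]

/-- The bilinear form of a matrix. -/
noncomputable def met2_aux0 (A : Mat) : E4 →L[ℝ] E4 →L[ℝ] ℝ :=
  ∑ i, ∑ j, A i j • (EuclideanSpace.proj i : E4 →L[ℝ] ℝ).smulRight
    (EuclideanSpace.proj j : E4 →L[ℝ] ℝ)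

theorem met2_aux1 (A : Mat) (v w : E4) : met2_aux0 A v w = v.ofLp ⬝ᵥ A *ᵥ w.ofLp := by
  simp only [met2_aux0, Fin.sum_univ_four, _root_.add_apply,
    _root_.smul_apply, ContinuousLinearMap.smulRight_apply, smul_eq_mul,
    PiLp.proj_apply, dotProduct, mulVec]
  ring

theorem met2_aux2 {A : Mat} (hA : A.PosDef) (v : E4) (hv : v ≠ 0) : 0 < met2_aux0 A v v := by
  rw [met2_aux1]
  simpa using hA.dotProduct_mulVec_pos (x := v.ofLp) (by simpa using hv)

theorem met2_aux3 (B : E4 →L[ℝ] E4 →L[ℝ] ℝ) (h : ∀ v, v ≠ 0 → 0 < B v v) :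
    Bornology.IsBounded {v : E4 | B v v < 1} := by
  have hc : Continuous fun v : E4 => B v v := by fun_prop
  obtain ⟨v₀, hv₀, hmin⟩ := (isCompact_sphere (0 : E4) 1).exists_isMinOn
    ⟨bas 0, by simp [bas]⟩ hc.continuousOn
  have hm := h v₀ (by
    rintro rfl
    simp at hv₀)
  rw [Metric.isBounded_iff_subset_closedBall 0]
  refine ⟨1 + 1 / B v₀ v₀, fun v hv => ?_⟩
  have hv1 : B v v < 1 := hv
  rw [Metric.mem_closedBall, dist_zero_right]
  by_contra hcon
  rw [not_le] at hcon
  have h1 : 0 < 1 / B v₀ v₀ := by positivity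
  have hn0 : 0 < ‖v‖ := by linarith
  have hu : (‖v‖⁻¹ • v) ∈ Metric.sphere (0 : E4) 1 := by simp [norm_smul, hn0.ne']
  have h2 : B v₀ v₀ ≤ B (‖v‖⁻¹ • v) (‖v‖⁻¹ • v) := hmin hu
  simp only [map_smul, _root_.smul_apply, smul_eq_mul] at h2
  have h3 : B v₀ v₀ * (‖v‖ * ‖v‖) ≤ B v v :=
    calc B v₀ v₀ * (‖v‖ * ‖v‖) ≤ ‖v‖⁻¹ * (‖v‖⁻¹ * B v v) * (‖v‖ * ‖v‖) := by gcongr
      _ = B v v := by field_simp
  have h4 : 1 < B v₀ v₀ * ‖v‖ := by
    have : 1 / B v₀ v₀ < ‖v‖ := by linarith
    rw [div_lt_iff₀ hm] at this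
    linarith
  nlinarith

theorem met2_aux4 (A : Mat) (D : E4 →L[ℝ] E4) (v w : E4) :
    met2_aux0 A (D v) (D w) = met2_aux0 ((cmat D)ᵀ * A * cmat D) v w := by
  rw [met2_aux1, met2_aux1, ← cmat_mulVec, ← cmat_mulVec, ← mulVec_mulVec, ← mulVec_mulVec,
    mulVec_transpose, dotProduct_comm v.ofLp, ← dotProduct_mulVec, dotProduct_comm]

theorem met2_aux5 {F : Type} [NormedAddCommGroup F] [NormedSpace ℝ F] {f : E4 → ℝ} {p : E4}
    (hf : ContDiffAt ℝ ∞ f p) (v : F) : ContDiffAt ℝ ∞ (fun y => f y • v) p := hf.smul_const v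

/-- Follow `ParData.exists_surface` and `isBounded_of_pos` in `Lib/MP_5499e8_gt/Atlas.lean` (graded
repository): `inner x` is the continuous bilinear form `bil (g x)` of the matrix, with `bil` linear;
`contMDiffAt_hom_bundle`, `inCoordinates_apply_eq₂`, `TangentBundle.symmL_trivializationAt`; in the
trivialisation at `x₀` the form is `bil (gpull (ch x₀) g (chartAt E4 x₀ x))` (`cmat_mulVec`). -/
theorem exists_met {g : M → Mat} (hg : GoodT g) : ∃ G : Met M, gm G = g := by
  let G : Met M :=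
    { inner := fun x => met2_aux0 (g x)
      symm := fun x v w => by
        have hs : (g x)ᵀ = g x := by simpa using (hg.pos x).isHermitian.eq
        refine (met2_aux1 (g x) v w).trans (Eq.trans ?_ (met2_aux1 (g x) w v).symm)
        rw [dotProduct_mulVec, ← mulVec_transpose, hs, dotProduct_comm]
      pos := fun x v hv => met2_aux2 (hg.pos x) v hv
      isVonNBounded := fun x => NormedSpace.isVonNBounded_of_isBounded ℝ
        (met2_aux3 _ (met2_aux2 (hg.pos x)))
      contMDiff := by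
        intro x₀
        rw [contMDiffAt_hom_bundle]
        refine ⟨contMDiffAt_id, ?_⟩
        have h1 : ContMDiffAt (𝓡 4) 𝓘(ℝ, E4 →L[ℝ] E4 →L[ℝ] ℝ) ∞
            ((fun p => met2_aux0 (gpull (ch x₀) g p)) ∘ extChartAt (𝓡 4) x₀) x₀ := by
          refine ContDiffAt.comp_contMDiffAt ?_ contMDiffAt_extChartAt
          refine ContDiffAt.sum fun i _ => ContDiffAt.sum fun j _ =>
            met2_aux5 ?_ _
          exact (hg.smooth x₀ i j).contDiffAt
            ((chartAt E4 x₀).open_target.mem_nhds (mem_chart_target E4 x₀))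
        apply h1.congr_of_eventuallyEq
        filter_upwards [chart_source_mem_nhds E4 x₀] with x hx
        refine ContinuousLinearMap.ext fun v => ContinuousLinearMap.ext fun w => ?_
        have hb : x ∈ (trivializationAt E4 (TangentSpace (𝓡 4) : M → Type) x₀).baseSet := hx
        rw [inCoordinates_apply_eq₂ hb hb (mem_univ _)]
        have h2 := TangentBundle.symmL_trivializationAt (I := 𝓡 4) hx
        have h3 : ∀ v, (trivializationAt E4 (TangentSpace (𝓡 4) : M → Type) x₀).symm x v =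
            mfderiv (𝓡 4) (𝓡 4) (ch x₀) (chartAt E4 x₀ x) v := by
          intro v
          have := DFunLike.congr_fun h2 v
          rw [Bundle.Trivialization.symmL_apply _ hb] at this
          simp only [mfld_simps, mfderivWithin_univ] at this
          exact this
        have h4 := met2_aux4 (g x) (mfderiv (𝓡 4) (𝓡 4) (ch x₀) (chartAt E4 x₀ x)) v w
        have h5 : ch x₀ (chartAt E4 x₀ x) = x := (chartAt E4 x₀).left_inv hx
        rw [h3, h3]
        simp only [mfld_simps, Bundle.Trivial.fiberBundle_trivializationAt',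
          Bundle.Trivial.linearMapAt_trivialization, LinearMap.id_coe, id, gpull, h5]
        exact h4 }
  refine ⟨G, funext fun x => Matrix.ext fun i j => (met2_aux1 (g x) (bas i) (bas j)).trans ?_⟩
  simp [bas]

end Pool.Agent.Lib.MP_94aef8_gt
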