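import Pool.Agent.Lib.MP_94aef8_gt.Sys

/-!
Differentials, patches, transition maps and pullbacks.
-/

open scoped Manifold ContDiff Topology
open Matrix Filter Set

namespace Pool.Agent.Lib.MP_94aef8_gt

variable {M : Type} [TopologicalSpace M] [ChartedSpace E4 M]
variable {N : Type} [TopologicalSpace N] [ChartedSpace E4 N]
variable {L : Type} [TopologicalSpace L] [ChartedSpace E4 L]

theorem sum_bas (v : E4) : ∑ i, v i • bas i = v := by
  simpa [bas] using (EuclideanSpace.basisFun (Fin 4) ℝ).sum_repr v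

/-- The matrix of a continuous linear map. -/
noncomputable def cmat (D : E4 →L[ℝ] E4) : Mat := Matrix.of fun i a => D (bas a) i

theorem cmat_mulVec (D : E4 →L[ℝ] E4) (v : E4) : cmat D *ᵥ v.ofLp = (D v).ofLp := by
  funext i
  conv_rhs => rw [← sum_bas v]
  simp [cmat, mulVec, dotProduct, mul_comm]

theorem cmat_comp (D D' : E4 →L[ℝ] E4) : cmat (D.comp D') = cmat D * cmat D' := by
  ext i a
  have h := congrFun (cmat_mulVec D (D' (bas a))) i
  simp only [mulVec, dotProduct] at h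
  rw [Matrix.mul_apply]
  exact h.symm

theorem cmat_id : cmat (ContinuousLinearMap.id ℝ E4) = 1 := by
  ext i a
  simp [cmat, bas, Matrix.one_apply]

theorem cmat_det (D : E4 →L[ℝ] E4) : D.det = (cmat D).det := by
  rw [ContinuousLinearMap.det,
    ← LinearMap.det_toMatrix (EuclideanSpace.basisFun (Fin 4) ℝ).toBasis]
  refine congrArg Matrix.det (Matrix.ext fun i a => ?_)
  rw [LinearMap.toMatrix_apply]
  simp [bas, cmat]

theorem jm_eq_cmat (F : N → M) (x : N) : jm F x = cmat (mfderiv (𝓡 4) (𝓡 4) F x) := rfl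

theorem jac_eq_cmat {τ : E4 → E4} {y : E4} (h : DifferentiableAt ℝ τ y) :
    jac τ y = cmat (fderiv ℝ τ y) := by
  ext i a
  have h1 := ((EuclideanSpace.proj i : E4 →L[ℝ] ℝ).hasFDerivAt.comp y h.hasFDerivAt).fderiv
  have h2 : (fun y => τ y i) = (EuclideanSpace.proj i : E4 →L[ℝ] ℝ) ∘ τ := rfl
  simp only [jac, Matrix.of_apply, pd]
  rw [h2, h1]
  rfl

theorem jm_eq_jac {τ : E4 → E4} {y : E4} (h : DifferentiableAt ℝ τ y) : jm τ y = jac τ y := by
  rw [jac_eq_cmat h, jm_eq_cmat, mfderiv_eq_fderiv]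

theorem jm_congr {F F' : N → M} {x : N} (h : F =ᶠ[𝓝 x] F') : jm F x = jm F' x := by
  rw [jm_eq_cmat, jm_eq_cmat, h.mfderiv_eq]

theorem jm_id (x : M) : jm (id : M → M) x = 1 := by
  rw [jm_eq_cmat, mfderiv_id]
  exact cmat_id

theorem jm_comp {F : M → L} {π : N → M} {x : N} (hF : MDifferentiableAt (𝓡 4) (𝓡 4) F (π x))
    (hπ : MDifferentiableAt (𝓡 4) (𝓡 4) π x) : jm (F ∘ π) x = jm F (π x) * jm π x := by
  rw [jm_eq_cmat, mfderiv_comp x hF hπ]
  exact cmat_comp _ _

theorem Pt.smoothAt {π : N → M} {U : Set N} (h : Pt π U) {y : N} (hy : y ∈ U) :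
    ContMDiffAt (𝓡 4) (𝓡 4) ∞ π y := h.smooth.contMDiffAt (h.isOpen.mem_nhds hy)

theorem Pt.mdiff {π : N → M} {U : Set N} (h : Pt π U) {y : N} (hy : y ∈ U) :
    MDifferentiableAt (𝓡 4) (𝓡 4) π y := (h.smoothAt hy).mdifferentiableAt (by simp)

theorem Pt.continuousOn {π : N → M} {U : Set N} (h : Pt π U) : ContinuousOn π U :=
  h.smooth.continuousOn

theorem Pt.continuousAt {π : N → M} {U : Set N} (h : Pt π U) {y : N} (hy : y ∈ U) :
    ContinuousAt π y := (h.smoothAt hy).continuousAt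

theorem Pt.isUnit {π : N → M} {U : Set N} (h : Pt π U) {y : N} (hy : y ∈ U) :
    IsUnit (jm π y).det := isUnit_iff_ne_zero.2 (h.unit y hy)

theorem Pt.mono {π : N → M} {U V : Set N} (h : Pt π U) (hV : IsOpen V) (hVU : V ⊆ U) : Pt π V :=
  ⟨hV, h.smooth.mono hVU, fun y hy => h.unit y (hVU hy)⟩

theorem Pt.congr {π π' : N → M} {U : Set N} (h : Pt π U) (e : ∀ y ∈ U, π' y = π y) : Pt π' U :=
  ⟨h.isOpen, h.smooth.congr e, fun y hy => by
    rw [jm_congr (F' := π) (eventually_of_mem (h.isOpen.mem_nhds hy) e)]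
    exact h.unit y hy⟩

theorem Pt.comp {F : M → L} {V : Set M} {π : N → M} {U : Set N} (hF : Pt F V) (hπ : Pt π U)
    (hm : MapsTo π U V) : Pt (F ∘ π) U :=
  ⟨hπ.isOpen, hF.smooth.comp hπ.smooth hm, fun y hy => by
    rw [jm_comp (hF.mdiff (hm hy)) (hπ.mdiff hy), det_mul]
    exact mul_ne_zero (hF.unit _ (hm hy)) (hπ.unit y hy)⟩

theorem pt_id : Pt (id : M → M) univ :=
  ⟨isOpen_univ, contMDiffOn_id, fun y _ => by rw [jm_id, det_one]; exact one_ne_zero⟩

theorem LDif.diffAt {τ : E4 → E4} {U V : Set E4} (h : LDif τ U V) {p : E4} (hp : p ∈ U) :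
    DifferentiableAt ℝ τ p :=
  (h.smooth.contDiffAt (h.isOpen.mem_nhds hp)).differentiableAt (by simp)

theorem LDif.pt {τ : E4 → E4} {U V : Set E4} (h : LDif τ U V) : Pt τ U :=
  ⟨h.isOpen, contMDiffOn_iff_contDiffOn.2 h.smooth, fun y hy => by
    rw [jm_eq_jac (h.diffAt hy)]
    exact h.det y hy⟩

theorem Pt.ldif {τ : E4 → E4} {U V : Set E4} (h : Pt τ U) (hm : MapsTo τ U V) : LDif τ U V :=
  ⟨h.isOpen, contMDiffOn_iff_contDiffOn.1 h.smooth, hm, fun y hy => by
    rw [← jm_eq_jac (mdifferentiableAt_iff_differentiableAt.1 (h.mdiff hy))]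
    exact h.unit y hy⟩

theorem Pt.comp_ldif {π : E4 → M} {τ : E4 → E4} {U V : Set E4} (hπ : Pt π V) (h : LDif τ U V) :
    Pt (π ∘ τ) U := hπ.comp h.pt h.maps

/-- A smooth map with a smooth left inverse is a patch. -/
theorem pt_of_inverse {F : N → M} {F' : M → N} {U : Set N} (hU : IsOpen U)
    (hF : ContMDiffOn (𝓡 4) (𝓡 4) ∞ F U)
    (hF' : ∀ y ∈ U, MDifferentiableAt (𝓡 4) (𝓡 4) F' (F y)) (e : ∀ y ∈ U, F' (F y) = y) :
    Pt F U := by
  refine ⟨hU, hF, fun y hy h0 => ?_⟩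
  have h1 := jm_comp (hF' y hy) ((hF.contMDiffAt (hU.mem_nhds hy)).mdifferentiableAt (by simp))
  rw [jm_congr (F := F' ∘ F) (F' := id) (eventually_of_mem (hU.mem_nhds hy) e), jm_id] at h1
  have h2 := congrArg Matrix.det h1
  rw [det_one, det_mul, h0, mul_zero] at h2
  exact one_ne_zero h2

theorem gpull_congr {π π' : N → M} {y : N} (e : π =ᶠ[𝓝 y] π') (h : M → Mat) :
    gpull π h y = gpull π' h y := by
  rw [gpull, gpull, jm_congr e, e.eq_of_nhds]

theorem gpullV_congr {π π' : N → M} {y : N} (e : π =ᶠ[𝓝 y] π') (X : M → Fin 4 → ℝ) :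
    gpullV π X y = gpullV π' X y := by
  rw [gpullV, gpullV, jm_congr e, e.eq_of_nhds]

theorem gpull_at {π : N → M} {y : N} {h h' : M → Mat} (e : h (π y) = h' (π y)) :
    gpull π h y = gpull π h' y := by rw [gpull, gpull, e]

theorem gpullV_at {π : N → M} {y : N} {X X' : M → Fin 4 → ℝ} (e : X (π y) = X' (π y)) :
    gpullV π X y = gpullV π X' y := by rw [gpullV, gpullV, e]

theorem gpull_comp {F : M → L} {V : Set M} {π : N → M} {U : Set N} (hF : Pt F V) (hπ : Pt π U)
    {y : N} (hy : y ∈ U) (hy' : π y ∈ V) (h : L → Mat) :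
    gpull (F ∘ π) h y = gpull π (gpull F h) y := by
  simp only [gpull, jm_comp (hF.mdiff hy') (hπ.mdiff hy), transpose_mul, Matrix.mul_assoc,
    Function.comp_apply]

theorem gpullV_comp {F : M → L} {V : Set M} {π : N → M} {U : Set N} (hF : Pt F V) (hπ : Pt π U)
    {y : N} (hy : y ∈ U) (hy' : π y ∈ V) (X : L → Fin 4 → ℝ) :
    gpullV (F ∘ π) X y = gpullV π (gpullV F X) y := by
  simp only [gpullV, jm_comp (hF.mdiff hy') (hπ.mdiff hy), Matrix.mul_inv_rev, mulVec_mulVec,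
    Function.comp_apply]

theorem gpull_id (h : M → Mat) : gpull id h = h := by
  funext x
  simp [gpull, jm_id]

theorem gpull_eq_pull {τ : E4 → E4} {U V : Set E4} (hτ : LDif τ U V) {y : E4} (hy : y ∈ U)
    (h : Tn) : gpull τ h y = pull τ h y := by rw [gpull, pull, jm_eq_jac (hτ.diffAt hy)]

theorem gpullV_eq_pullV {τ : E4 → E4} {U V : Set E4} (hτ : LDif τ U V) {y : E4} (hy : y ∈ U)
    (X : Vn) : gpullV τ X y = pullV τ X y := by rw [gpullV, pullV, jm_eq_jac (hτ.diffAt hy)]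

theorem Pt.gpull_ldif {π : E4 → M} {τ : E4 → E4} {U V : Set E4} (hπ : Pt π V) (hτ : LDif τ U V)
    {y : E4} (hy : y ∈ U) (h : M → Mat) : gpull (π ∘ τ) h y = pull τ (gpull π h) y := by
  rw [gpull_comp hπ hτ.pt hy (hτ.maps hy), gpull_eq_pull hτ hy]

theorem Pt.gpullV_ldif {π : E4 → M} {τ : E4 → E4} {U V : Set E4} (hπ : Pt π V) (hτ : LDif τ U V)
    {y : E4} (hy : y ∈ U) (X : M → Fin 4 → ℝ) :
    gpullV (π ∘ τ) X y = pullV τ (gpullV π X) y := by
  rw [gpullV_comp hπ hτ.pt hy (hτ.maps hy), gpullV_eq_pullV hτ hy]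

theorem gpull_add (π : N → M) (h k : M → Mat) : gpull π (h + k) = gpull π h + gpull π k := by
  funext y
  simp [gpull, Matrix.mul_add, Matrix.add_mul]

theorem gpull_sub (π : N → M) (h k : M → Mat) : gpull π (h - k) = gpull π h - gpull π k := by
  funext y
  simp [gpull, Matrix.mul_sub, Matrix.sub_mul]

theorem gpull_neg (π : N → M) (h : M → Mat) : gpull π (-h) = -gpull π h := by
  funext y
  simp [gpull]

theorem gpull_zero (π : N → M) : gpull π (0 : M → Mat) = 0 := by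
  funext y
  simp [gpull]

theorem gpull_smul (π : N → M) (c : ℝ) (h : M → Mat) : gpull π (c • h) = c • gpull π h := by
  funext y
  simp [gpull]

theorem gpull_fsmul (π : N → M) (f : M → ℝ) (h : M → Mat) :
    gpull π (fun x => f x • h x) = fun y => f (π y) • gpull π h y := by
  funext y
  simp [gpull]

theorem gpull_sum (π : N → M) {ι : Type} (s : Finset ι) (h : ι → M → Mat) :
    gpull π (∑ i ∈ s, h i) = ∑ i ∈ s, gpull π (h i) := by
  funext y
  simp [gpull, Matrix.mul_sum, Matrix.sum_mul]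

theorem gpull_transpose (π : N → M) (h : M → Mat) :
    gpull π (fun x => (h x)ᵀ) = fun y => (gpull π h y)ᵀ := by
  funext y
  simp [gpull, Matrix.mul_assoc]

theorem gpull_symm {π : N → M} {h : M → Mat} {y : N} (hs : (h (π y)).IsSymm) :
    (gpull π h y).IsSymm := by
  simp only [Matrix.IsSymm, gpull, transpose_mul, transpose_transpose, hs.eq, Matrix.mul_assoc]

theorem gpullV_add (π : N → M) (X Y : M → Fin 4 → ℝ) :
    gpullV π (X + Y) = gpullV π X + gpullV π Y := by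
  funext y
  simp [gpullV, mulVec_add]

theorem gpullV_sub (π : N → M) (X Y : M → Fin 4 → ℝ) :
    gpullV π (X - Y) = gpullV π X - gpullV π Y := by
  funext y
  simp [gpullV, mulVec_sub]

theorem gpullV_fsmul (π : N → M) (f : M → ℝ) (X : M → Fin 4 → ℝ) :
    gpullV π (fun x => f x • X x) = fun y => f (π y) • gpullV π X y := by
  funext y
  simp [gpullV, mulVec_smul]

theorem gpullV_sum (π : N → M) {ι : Type} (s : Finset ι) (X : ι → M → Fin 4 → ℝ) :
    gpullV π (∑ i ∈ s, X i) = ∑ i ∈ s, gpullV π (X i) := by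
  funext y
  simp [gpullV, mulVec_sum]

theorem conj_inj {J A B : Mat} (hJ : IsUnit J.det) (h : Jᵀ * A * J = Jᵀ * B * J) : A = B := by
  have hT : IsUnit Jᵀ.det := by rwa [det_transpose]
  have h1 := congrArg (fun X => (Jᵀ)⁻¹ * X * J⁻¹) h
  simpa only [Matrix.mul_assoc, Matrix.nonsing_inv_mul_cancel_left _ _ hT,
    Matrix.mul_nonsing_inv _ hJ, Matrix.mul_one] using h1

/-- A tensor at `π y` is determined by its components. -/
theorem Pt.gpull_inj {π : N → M} {U : Set N} (hπ : Pt π U) {y : N} (hy : y ∈ U) {h k : M → Mat}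
    (e : gpull π h y = gpull π k y) : h (π y) = k (π y) := conj_inj (hπ.isUnit hy) e

theorem Pt.gpullV_inj {π : N → M} {U : Set N} (hπ : Pt π U) {y : N} (hy : y ∈ U)
    {X Y : M → Fin 4 → ℝ} (e : gpullV π X y = gpullV π Y y) : X (π y) = Y (π y) := by
  have h1 := congrArg (fun v => jm π y *ᵥ v) e
  simpa only [gpullV, mulVec_mulVec, Matrix.mul_nonsing_inv _ (hπ.isUnit hy), one_mulVec] using h1

theorem Pt.posDef {π : N → M} {U : Set N} (hπ : Pt π U) {y : N} (hy : y ∈ U) {g : M → Mat}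
    (hg : (g (π y)).PosDef) : (gpull π g y).PosDef := by
  have h := hg.conjTranspose_mul_mul_same
    (Matrix.mulVec_injective_iff_isUnit.2 ((Matrix.isUnit_iff_isUnit_det _).2 (hπ.isUnit hy)))
  rwa [conjTranspose_eq_transpose_of_trivial] at h

theorem ch_c0 (x : M) : ch x (c0 x) = x := (chartAt E4 x).left_inv (mem_chart_source E4 x)

theorem c0_mem (x : M) : c0 x ∈ (chartAt E4 x).target := mem_chart_target E4 x

end Pool.Agent.Lib.MP_94aef8_gt
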