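import Pool.Agent.Lib.MP_94aef8_gt.C.Trans
import Pool.Agent.Lib.MP_94aef8_gt.C.Lin
import Pool.Agent.Lib.MP_94aef8_gt.C.BStub

/-!
Smooth fields and patches.
-/

open scoped Manifold ContDiff Topology
open Matrix Filter Set

namespace Pool.Agent.Lib.MP_94aef8_gt

section Local

variable {τ : E4 → E4} {U V : Set E4} {G h k : Tn} {X Y : Vn} {f : Fn}

theorem smo_mono (hh : SmT h U) (hV : V ⊆ U) : SmT h V := fun i j => (hh i j).mono hV

theorem smo_monoV (hX : SmV X U) (hV : V ⊆ U) : SmV X V := fun i => (hX i).mono hV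

theorem smo_congr (hh : SmT h U) (e : ∀ y ∈ U, k y = h y) : SmT k U :=
  fun i j => (hh i j).congr fun y hy => by rw [e y hy]

theorem smo_congrV (hX : SmV X U) (e : ∀ y ∈ U, Y y = X y) : SmV Y U :=
  fun i => (hX i).congr fun y hy => by rw [e y hy]

theorem smo_good_mono (hG : Good G U) (ho : IsOpen V) (hV : V ⊆ U) : Good G V :=
  ⟨ho, smo_mono hG.smooth hV, fun p hp => hG.pos p (hV hp)⟩

theorem smo_const (A : Mat) (U : Set E4) : SmT (fun _ => A) U := fun _ _ => contDiffOn_const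

theorem smo_add (hh : SmT h U) (hk : SmT k U) : SmT (h + k) U :=
  fun i j => (hh i j).add (hk i j)

theorem smo_sub (hh : SmT h U) (hk : SmT k U) : SmT (h - k) U :=
  fun i j => (hh i j).sub (hk i j)

theorem smo_smul (c : ℝ) (hh : SmT h U) : SmT (c • h) U :=
  fun i j => (contDiffOn_const (c := c)).mul (hh i j)

theorem smo_fsmul (hf : ContDiffOn ℝ ∞ f U) (hh : SmT h U) : SmT (fun y => f y • h y) U :=
  fun i j => hf.mul (hh i j)

theorem smo_mul (hh : SmT h U) (hk : SmT k U) : SmT (fun y => h y * k y) U := fun i j => by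
  simp only [Matrix.mul_apply]
  exact ContDiffOn.sum fun a _ => (hh i a).mul (hk a j)

theorem smo_transpose (hh : SmT h U) : SmT (fun y => (h y)ᵀ) U := fun i j => hh j i

theorem smo_trace (hh : SmT h U) : ContDiffOn ℝ ∞ (fun y => (h y).trace) U := by
  simp only [Matrix.trace, Matrix.diag_apply]
  exact ContDiffOn.sum fun a _ => hh a a

theorem smo_det (hh : SmT h U) : ContDiffOn ℝ ∞ (fun y => (h y).det) U := by
  simp only [Matrix.det_apply']
  exact ContDiffOn.sum fun σ _ => contDiffOn_const.mul (contDiffOn_prod fun a _ => hh (σ a) a)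

/-- `Matrix.inv_def`, the adjugate is polynomial. -/
theorem smo_inv (hh : SmT h U) (hd : ∀ y ∈ U, (h y).det ≠ 0) : SmT (fun y => (h y)⁻¹) U := by
  intro i j
  have h1 : SmT (fun y => (h y).updateRow j (Pi.single i 1)) U := fun a b => by
    by_cases e : a = j
    · simp only [Matrix.updateRow_apply, if_pos e]
      exact contDiffOn_const
    · simp only [Matrix.updateRow_apply, if_neg e]
      exact hh a b
  refine (((smo_det hh).inv hd).mul (smo_det h1)).congr fun y _ => ?_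
  simp only [Matrix.inv_def, Matrix.smul_apply, Matrix.adjugate_apply, Ring.inverse_eq_inv',
    smul_eq_mul, Pi.inv_apply]

theorem smo_mulVec (hh : SmT h U) (hX : SmV X U) : SmV (fun y => h y *ᵥ X y) U :=
  fun i => by
  simp only [Matrix.mulVec, dotProduct]
  exact ContDiffOn.sum fun a _ => (hh i a).mul (hX a)

theorem smo_dot (hX : SmV X U) (hY : SmV Y U) : ContDiffOn ℝ ∞ (fun y => X y ⬝ᵥ Y y) U := by
  simp only [dotProduct]
  exact ContDiffOn.sum fun a _ => (hX a).mul (hY a)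

theorem smo_jac (hτ : LDif τ U V) : SmT (jac τ) U := fun i a => by
  have h1 : ContDiffOn ℝ ∞ (fun y => τ y i) U :=
    (EuclideanSpace.proj (𝕜 := ℝ) i).contDiff.comp_contDiffOn hτ.smooth
  exact (h1.fderiv_of_isOpen hτ.isOpen (m := ∞) (by simp)).clm_apply contDiffOn_const

theorem smo_pull (hτ : LDif τ U V) (hh : SmT h V) : SmT (pull τ h) U :=
  smo_mul (smo_mul (smo_transpose (smo_jac hτ))
    (k := fun y => h (τ y)) fun i j => (hh i j).comp hτ.smooth hτ.maps) (smo_jac hτ)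

theorem smo_pullV (hτ : LDif τ U V) (hX : SmV X V) : SmV (pullV τ X) U :=
  smo_mulVec (smo_inv (smo_jac hτ) hτ.det) (X := fun y => X (τ y))
    fun i => (hX i).comp hτ.smooth hτ.maps

theorem smo_ipT (hG : Good G U) (hh : SmT h U) (hk : SmT k U) : ContDiffOn ℝ ∞ (ipT G h k) U :=
  have h1 := smo_inv hG.smooth fun y hy => (hG.pos y hy).det_pos.ne'
  smo_trace (smo_mul (smo_mul (smo_mul h1 hh) h1) (smo_transpose hk))

theorem smo_trG (hG : Good G U) (hh : SmT h U) : ContDiffOn ℝ ∞ (trG G h) U :=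
  smo_trace (smo_mul (smo_inv hG.smooth fun y hy => (hG.pos y hy).det_pos.ne') hh)

theorem smo_local (hh : ∀ y ∈ U, ∃ V, IsOpen V ∧ y ∈ V ∧ SmT h V) : SmT h U := fun i j y hy => by
  obtain ⟨V, ho, hyV, hV⟩ := hh y hy
  exact ((hV i j).contDiffAt (ho.mem_nhds hyV)).contDiffWithinAt

theorem smo_localV (hX : ∀ y ∈ U, ∃ V, IsOpen V ∧ y ∈ V ∧ SmV X V) : SmV X U := fun i y hy => by
  obtain ⟨V, ho, hyV, hV⟩ := hX y hy
  exact ((hV i).contDiffAt (ho.mem_nhds hyV)).contDiffWithinAt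

end Local

variable {M : Type} [TopologicalSpace M] [ChartedSpace E4 M] [IsManifold (𝓡 4) ∞ M]
variable {π : E4 → M} {U : Set E4} {g h k : M → Mat} {X Y : M → Fin 4 → ℝ} {f : M → ℝ}

/-- `Pt.trs_chart`, `Trs.gpull`, `smo_pull`, `smo_local`. -/
theorem SmG.patch (hh : SmG h) (hπ : Pt π U) : SmT (gpull π h) U :=
  smo_local fun y hy =>
    have h1 := hπ.trs_chart (π y)
    ⟨_, h1.pt.isOpen, ⟨hy, mem_chart_source E4 _⟩,
      smo_congr (smo_pull h1.ld (hh (π y))) fun _ hz => h1.gpull hz h⟩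

theorem SmVF.patch (hX : SmVF X) (hπ : Pt π U) : SmV (gpullV π X) U :=
  smo_localV fun y hy =>
    have h1 := hπ.trs_chart (π y)
    ⟨_, h1.pt.isOpen, ⟨hy, mem_chart_source E4 _⟩,
      smo_congrV (smo_pullV h1.ld (hX (π y))) fun _ hz => h1.gpullV hz X⟩

theorem GoodT.patch (hg : GoodT g) (hπ : Pt π U) : Good (gpull π g) U :=
  ⟨hπ.isOpen, hg.smooth.patch hπ, fun _ hy => hπ.posDef hy (hg.pos _)⟩

omit [IsManifold (𝓡 4) ∞ M] in
theorem Pt.sm_comp (hπ : Pt π U) (hf : Sm f) : ContDiffOn ℝ ∞ (f ∘ π) U :=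
  contMDiffOn_iff_contDiffOn.1 (hf.comp_contMDiffOn hπ.smooth)

/-- `Pt.exists_trs` from `ch x` to the given patch. -/
theorem smG_of_patches (hh : ∀ x, ∃ (π : E4 → M) (U : Set E4) (y : E4), Pt π U ∧ y ∈ U ∧ π y = x ∧
    SmT (gpull π h) U) : SmG h := by
  refine fun x => smo_local fun z hz => ?_
  obtain ⟨π, U, y, hπ, hy, e, hs⟩ := hh (ch x z)
  obtain ⟨τ, V, h1, h2, -, -⟩ := (pt_ch x).exists_trs hπ hz hy e.symm
  exact ⟨V, h1.pt.isOpen, h2, smo_congr (smo_pull h1.ld hs) fun _ hw => h1.gpull hw h⟩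

theorem smVF_of_patches (hX : ∀ x, ∃ (π : E4 → M) (U : Set E4) (y : E4), Pt π U ∧ y ∈ U ∧
    π y = x ∧ SmV (gpullV π X) U) : SmVF X := by
  refine fun x => smo_localV fun z hz => ?_
  obtain ⟨π, U, y, hπ, hy, e, hs⟩ := hX (ch x z)
  obtain ⟨τ, V, h1, h2, -, -⟩ := (pt_ch x).exists_trs hπ hz hy e.symm
  exact ⟨V, h1.pt.isOpen, h2, smo_congrV (smo_pullV h1.ld hs) fun _ hw => h1.gpullV hw X⟩

/-- `Pt.smoothAt_of`. -/
theorem sm_of_patches (hf : ∀ x, ∃ (π : E4 → M) (U : Set E4) (y : E4), Pt π U ∧ y ∈ U ∧ π y = x ∧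
    ContDiffOn ℝ ∞ (f ∘ π) U) : Sm f := by
  intro x
  obtain ⟨π, U, y, hπ, hy, rfl, hs⟩ := hf x
  exact hπ.smoothAt_of hy
    (contMDiffAt_iff_contDiffAt.2 (hs.contDiffAt (hπ.isOpen.mem_nhds hy)))

theorem sm_of_charts (hf : ∀ x, ContDiffOn ℝ ∞ (f ∘ ch x) (chartAt E4 x).target) : Sm f :=
  sm_of_patches fun x => ⟨ch x, _, c0 x, pt_ch x, c0_mem x, ch_c0 x, hf x⟩

omit [IsManifold (𝓡 4) ∞ M] in
theorem smG_zero : SmG (0 : M → Mat) := fun x => by
  rw [gpull_zero]
  exact smo_const 0 _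

omit [IsManifold (𝓡 4) ∞ M] in
theorem SmG.add (hh : SmG h) (hk : SmG k) : SmG (h + k) := fun x => by
  rw [gpull_add]
  exact smo_add (hh x) (hk x)

omit [IsManifold (𝓡 4) ∞ M] in
theorem SmG.sub (hh : SmG h) (hk : SmG k) : SmG (h - k) := fun x => by
  rw [gpull_sub]
  exact smo_sub (hh x) (hk x)

omit [IsManifold (𝓡 4) ∞ M] in
theorem SmG.smul (hh : SmG h) (c : ℝ) : SmG (c • h) := fun x => by
  rw [gpull_smul]
  exact smo_smul c (hh x)

omit [IsManifold (𝓡 4) ∞ M] in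
theorem SmG.neg (hh : SmG h) : SmG (-h) := fun x => by
  rw [gpull_neg]
  exact fun i j => (hh x i j).neg

omit [IsManifold (𝓡 4) ∞ M] in
theorem SmG.transpose (hh : SmG h) : SmG fun x => (h x)ᵀ := fun x => by
  rw [gpull_transpose]
  exact smo_transpose (hh x)

theorem SmG.fsmul (hh : SmG h) (hf : Sm f) : SmG fun x => f x • h x := fun x => by
  rw [gpull_fsmul]
  exact smo_fsmul ((pt_ch x).sm_comp hf) (hh x)

omit [IsManifold (𝓡 4) ∞ M] in
theorem smG_sum {ι : Type} (s : Finset ι) {h : ι → M → Mat} (hh : ∀ i ∈ s, SmG (h i)) :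
    SmG (∑ i ∈ s, h i) :=
  Finset.sum_induction h SmG (fun _ _ => SmG.add) smG_zero hh

omit [IsManifold (𝓡 4) ∞ M] in
theorem SmVF.add (hX : SmVF X) (hY : SmVF Y) : SmVF (X + Y) := fun x => by
  rw [gpullV_add]
  exact fun i => (hX x i).add (hY x i)

omit [IsManifold (𝓡 4) ∞ M] in
theorem SmVF.sub (hX : SmVF X) (hY : SmVF Y) : SmVF (X - Y) := fun x => by
  rw [gpullV_sub]
  exact fun i => (hX x i).sub (hY x i)

theorem SmVF.fsmul (hX : SmVF X) (hf : Sm f) : SmVF fun x => f x • X x := fun x => by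
  rw [gpullV_fsmul]
  exact fun i => ((pt_ch x).sm_comp hf).mul (hX x i)

omit [IsManifold (𝓡 4) ∞ M] in
theorem GoodT.smul (hg : GoodT g) {c : ℝ} (hc : 0 < c) : GoodT (c • g) :=
  ⟨hg.smooth.smul c, fun x => (hg.pos x).smul hc⟩

/-- Pullback along a local diffeomorphism: `gpull_comp`, `Pt.comp`, `SmG.patch`. -/
theorem SmG.gpull {N : Type} [TopologicalSpace N] [ChartedSpace E4 N] [IsManifold (𝓡 4) ∞ N]
    {F : N → M} (hF : Pt F univ) (hh : SmG h) : SmG (gpull F h) := fun x =>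
  smo_congr (hh.patch (hF.comp (pt_ch x) (mapsTo_univ _ _))) fun _ hy =>
    (gpull_comp hF (pt_ch x) hy (mem_univ _) h).symm

theorem GoodT.gpull {N : Type} [TopologicalSpace N] [ChartedSpace E4 N] [IsManifold (𝓡 4) ∞ N]
    {F : N → M} (hF : Pt F univ) (hg : GoodT g) : GoodT (gpull F g) :=
  ⟨hg.smooth.gpull hF, fun x => hF.posDef (mem_univ x) (hg.pos _)⟩

omit [IsManifold (𝓡 4) ∞ M] in
theorem Pt.ipg_eq {N : Type} [TopologicalSpace N] [ChartedSpace E4 N] {F : N → M} {W : Set N}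
    (hF : Pt F W) {y : N} (hy : y ∈ W) (g h k : M → Mat) :
    ipg g h k (F y) = ipM (gpull F g y) (gpull F h y) (gpull F k y) :=
  (lin_ipM_conj (hF.isUnit hy) _ _ _).symm

omit [IsManifold (𝓡 4) ∞ M] in
theorem Pt.n0_eq {N : Type} [TopologicalSpace N] [ChartedSpace E4 N] {F : N → M} {W : Set N}
    (hF : Pt F W) {y : N} (hy : y ∈ W) (g h : M → Mat) :
    n0 g h (F y) = ipM (gpull F g y) (gpull F h y) (gpull F h y) := hF.ipg_eq hy g h h

omit [IsManifold (𝓡 4) ∞ M] in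
theorem Pt.trg_eq {N : Type} [TopologicalSpace N] [ChartedSpace E4 N] {F : N → M} {W : Set N}
    (hF : Pt F W) {y : N} (hy : y ∈ W) (g h : M → Mat) :
    trg g h (F y) = ((gpull F g y)⁻¹ * gpull F h y).trace :=
  (lin_tr_conj (hF.isUnit hy) _ _).symm

theorem sm_ipg (hg : GoodT g) (hh : SmG h) (hk : SmG k) : Sm (ipg g h k) :=
  sm_of_charts fun x => (smo_ipT (hg.patch (pt_ch x)) (hh x) (hk x)).congr fun _ hy =>
    (pt_ch x).ipg_eq hy g h k

theorem sm_n0 (hg : GoodT g) (hh : SmG h) : Sm (n0 g h) := sm_ipg hg hh hh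

theorem sm_trg (hg : GoodT g) (hh : SmG h) : Sm (trg g h) :=
  sm_of_charts fun x => (smo_trG (hg.patch (pt_ch x)) (hh x)).congr fun _ hy =>
    (pt_ch x).trg_eq hy g h

omit [IsManifold (𝓡 4) ∞ M] in
theorem n0_nonneg (hg : GoodT g) (h : M → Mat) (x : M) : 0 ≤ n0 g h x := lin_ipM_nonneg (hg.pos x) _

/-- The ratio of the volume densities. -/
noncomputable def rat (g g' : M → Mat) (x : M) : ℝ := √((g' x).det / (g x).det)

omit [IsManifold (𝓡 4) ∞ M] in
theorem Pt.rat_eq (hπ : Pt π U) {y : E4} (hy : y ∈ U) (hg : GoodT g) (g' : M → Mat) :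
    rho (gpull π g') y = rat g g' (π y) * rho (gpull π g) y := by
  have h1 := (hg.pos (π y)).det_pos
  have h2 : √(g (π y)).det ≠ 0 := (Real.sqrt_pos.2 h1).ne'
  have _ := hπ.unit y hy
  rw [rho, rho, gpull, gpull, lin_sqrt_conj, lin_sqrt_conj, rat, Real.sqrt_div' _ h1.le]
  field_simp

theorem sm_rat (hg : GoodT g) {g' : M → Mat} (hg' : GoodT g') : Sm (rat g g') := by
  refine sm_of_charts fun x => ?_
  have h1 := hg.patch (pt_ch x)
  have h2 := hg'.patch (pt_ch x)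
  have h3 : ∀ y ∈ (chartAt E4 x).target, √(gpull (ch x) g y).det ≠ 0 := fun y hy =>
    (Real.sqrt_pos.2 (h1.pos y hy).det_pos).ne'
  refine (((smo_det h2.smooth).sqrt fun y hy => (h2.pos y hy).det_pos.ne').div
    ((smo_det h1.smooth).sqrt fun y hy => (h1.pos y hy).det_pos.ne') h3).congr fun y hy => ?_
  exact (eq_div_iff (h3 y hy)).2 ((pt_ch x).rat_eq hy hg g').symm

/-- The smooth tensor fields as a vector space. -/
def smSub (M : Type) [TopologicalSpace M] [ChartedSpace E4 M] : Submodule ℝ (M → Mat) where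
  carrier := {h | SmG h}
  add_mem' := SmG.add
  zero_mem' := smG_zero
  smul_mem' c _ hh := SmG.smul hh c

omit [IsManifold (𝓡 4) ∞ M] in
theorem invT_zero (S : Set (M → M)) : InvT S (0 : M → Mat) :=
  ⟨smG_zero, fun _ => Matrix.isSymm_zero, fun F _ x => congrFun (gpull_zero F) x⟩

omit [IsManifold (𝓡 4) ∞ M] in
theorem InvT.add {S : Set (M → M)} (hh : InvT S h) (hk : InvT S k) : InvT S (h + k) :=
  ⟨hh.smooth.add hk.smooth, fun x => (hh.symm x).add (hk.symm x), fun F hF x => by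
    rw [gpull_add, Pi.add_apply, Pi.add_apply, hh.inv F hF, hk.inv F hF]⟩

omit [IsManifold (𝓡 4) ∞ M] in
theorem InvT.sub {S : Set (M → M)} (hh : InvT S h) (hk : InvT S k) : InvT S (h - k) :=
  ⟨hh.smooth.sub hk.smooth, fun x => (hh.symm x).sub (hk.symm x), fun F hF x => by
    rw [gpull_sub, Pi.sub_apply, Pi.sub_apply, hh.inv F hF, hk.inv F hF]⟩

omit [IsManifold (𝓡 4) ∞ M] in
theorem InvT.smul {S : Set (M → M)} (hh : InvT S h) (c : ℝ) : InvT S (c • h) :=
  ⟨hh.smooth.smul c, fun x => (hh.symm x).smul c, fun F hF x => by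
    rw [gpull_smul, Pi.smul_apply, Pi.smul_apply, hh.inv F hF]⟩

omit [IsManifold (𝓡 4) ∞ M] in
theorem GoodT.invT {S : Set (M → M)} (hg : GoodT g) (hS : ∀ F ∈ S, IsoM g F) : InvT S g :=
  ⟨hg.smooth, fun x => lin_symm (hg.pos x), fun F hF => (hS F hF).eq⟩

/-- The invariant symmetric smooth tensor fields as a vector space. -/
def invSub (S : Set (M → M)) : Submodule ℝ (M → Mat) where
  carrier := {h | InvT S h}
  add_mem' := InvT.add
  zero_mem' := invT_zero S
  smul_mem' c _ hh := InvT.smul hh c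

omit [IsManifold (𝓡 4) ∞ M] in
/-- Components of an invariant tensor in a patch in which `F` is given by `τ`. -/
theorem Pt.inv_pull (hπ : Pt π U) {F : M → M} (hF : Pt F univ) (e : ∀ x, gpull F h x = h x)
    {τ : E4 → E4} (hτ : LDif τ U U) (he : ∀ y ∈ U, F (π y) = π (τ y)) {y : E4} (hy : y ∈ U) :
    pull τ (gpull π h) y = gpull π h y := by
  rw [← hπ.gpull_ldif hτ hy h, ← gpull_congr (π := F ∘ π) (π' := π ∘ τ)
    (eventually_of_mem (hπ.isOpen.mem_nhds hy) he), gpull_comp hF hπ hy (mem_univ _), funext e]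

end Pool.Agent.Lib.MP_94aef8_gt
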