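import Pool.Agent.Lib.MP_94aef8_gt.C.Pull

/-!
Charts as patches, local inverses, transition maps, natural fields.
-/

open scoped Manifold ContDiff Topology
open Matrix Filter Set

namespace Pool.Agent.Lib.MP_94aef8_gt

variable {M : Type} [TopologicalSpace M] [ChartedSpace E4 M]

/-- The inverse function theorem. -/
theorem LDif.exists_inv {τ : E4 → E4} {U V : Set E4} (h : LDif τ U V) {p : E4} (hp : p ∈ U) :
    ∃ e : OpenPartialHomeomorph E4 E4, (e : E4 → E4) = τ ∧ p ∈ e.source ∧ e.source ⊆ U ∧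
      ContDiffOn ℝ ∞ e.symm e.target := by
  have key : ∀ q ∈ U, ∃ L : E4 ≃L[ℝ] E4, HasFDerivAt τ (L : E4 →L[ℝ] E4) q := fun q hq => by
    have h1 : (fderiv ℝ τ q).det ≠ 0 := by
      rw [cmat_det, ← jac_eq_cmat (h.diffAt hq)]
      exact h.det q hq
    exact ⟨(fderiv ℝ τ q).toContinuousLinearEquivOfDetNeZero h1, by
      simpa using (h.diffAt hq).hasFDerivAt⟩
  obtain ⟨L, hL⟩ := key p hp
  have hc := h.smooth.contDiffAt (h.isOpen.mem_nhds hp)
  let e := (hc.toOpenPartialHomeomorph τ hL (by simp)).restrOpen U h.isOpen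
  have hs : e.source ⊆ U := fun q hq => hq.2
  refine ⟨e, rfl, ⟨hc.mem_toOpenPartialHomeomorph_source hL (by simp), hp⟩, hs, fun q hq => ?_⟩
  have hq' := hs (e.map_target hq)
  obtain ⟨L', hL'⟩ := key _ hq'
  exact (e.contDiffAt_symm hq hL' (h.smooth.contDiffAt (h.isOpen.mem_nhds hq'))).contDiffWithinAt

/-- `π = π' ∘ τ` on `V`. -/
structure Trs (π π' : E4 → M) (U' : Set E4) (τ : E4 → E4) (V : Set E4) : Prop where
  pt : Pt π V
  pt' : Pt π' U'
  ld : LDif τ V U'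
  eq : ∀ z ∈ V, π' (τ z) = π z

theorem Trs.ev {π π' : E4 → M} {U' V : Set E4} {τ : E4 → E4} (h : Trs π π' U' τ V) {y : E4}
    (hy : y ∈ V) : π =ᶠ[𝓝 y] π' ∘ τ :=
  eventually_of_mem (h.pt.isOpen.mem_nhds hy) fun z hz => (h.eq z hz).symm

theorem Trs.gpull {π π' : E4 → M} {U' V : Set E4} {τ : E4 → E4} (h : Trs π π' U' τ V) {y : E4}
    (hy : y ∈ V) (k : M → Mat) : gpull π k y = pull τ (gpull π' k) y := by
  rw [gpull_congr (h.ev hy), h.pt'.gpull_ldif h.ld hy]

theorem Trs.gpullV {π π' : E4 → M} {U' V : Set E4} {τ : E4 → E4} (h : Trs π π' U' τ V) {y : E4}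
    (hy : y ∈ V) (X : M → Fin 4 → ℝ) : gpullV π X y = pullV τ (gpullV π' X) y := by
  rw [gpullV_congr (h.ev hy), h.pt'.gpullV_ldif h.ld hy]

theorem Trs.evT {π π' : E4 → M} {U' V : Set E4} {τ : E4 → E4} (h : Trs π π' U' τ V) {y : E4}
    (hy : y ∈ V) (k : M → Mat) :
    MP_94aef8_gt.gpull π k =ᶠ[𝓝 y] pull τ (MP_94aef8_gt.gpull π' k) :=
  eventually_of_mem (h.pt.isOpen.mem_nhds hy) fun _ hz => h.gpull hz k

theorem Trs.evV {π π' : E4 → M} {U' V : Set E4} {τ : E4 → E4} (h : Trs π π' U' τ V) {y : E4}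
    (hy : y ∈ V) (X : M → Fin 4 → ℝ) :
    MP_94aef8_gt.gpullV π X =ᶠ[𝓝 y] pullV τ (MP_94aef8_gt.gpullV π' X) :=
  eventually_of_mem (h.pt.isOpen.mem_nhds hy) fun _ hz => h.gpullV hz X

theorem Trs.evF {π π' : E4 → M} {U' V : Set E4} {τ : E4 → E4} (h : Trs π π' U' τ V) {y : E4}
    (hy : y ∈ V) (f : M → ℝ) : f ∘ π =ᶠ[𝓝 y] (f ∘ π') ∘ τ :=
  (h.ev hy).fun_comp f

theorem Trs.jm {π π' : E4 → M} {U' V : Set E4} {τ : E4 → E4} (h : Trs π π' U' τ V) {y : E4}
    (hy : y ∈ V) : jm π y = jm π' (τ y) * jac τ y := by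
  rw [jm_congr (h.ev hy), jm_comp (h.pt'.mdiff (h.ld.maps hy)) (h.ld.pt.mdiff hy),
    jm_eq_jac (h.ld.diffAt hy)]

variable [IsManifold (𝓡 4) ∞ M]

theorem pt_chart (x : M) : Pt (chartAt E4 x) (chartAt E4 x).source :=
  pt_of_inverse (F' := (chartAt E4 x).symm) (chartAt E4 x).open_source contMDiffOn_chart
    (fun _ hy => ((contMDiffOn_chart_symm (n := ∞)).contMDiffAt ((chartAt E4 x).open_target.mem_nhds
      ((chartAt E4 x).map_source hy))).mdifferentiableAt (by simp))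
    fun _ hy => (chartAt E4 x).left_inv hy

theorem pt_ch (x : M) : Pt (ch x) (chartAt E4 x).target :=
  pt_of_inverse (F' := chartAt E4 x) (chartAt E4 x).open_target contMDiffOn_chart_symm
    (fun _ hy => (pt_chart x).mdiff ((chartAt E4 x).map_target hy))
    fun _ hy => (chartAt E4 x).right_inv hy

theorem jm_chart (x : M) : jm (chartAt E4 x) x = 1 := by
  have h := mfderiv_extChartAt_self (I := 𝓡 4) (x := x)
  rw [jm_eq_cmat]
  have h1 : (extChartAt (𝓡 4) x : M → E4) = chartAt E4 x := by simp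
  rw [h1] at h
  rw [h]
  exact cmat_id

theorem jm_ch_c0 (x : M) : jm (ch x) (c0 x) = 1 := by
  have h1 := jm_comp (π := chartAt E4 x) ((pt_ch x).mdiff (c0_mem x))
    ((pt_chart x).mdiff (mem_chart_source E4 x))
  rw [jm_chart, Matrix.mul_one, jm_congr (F := ch x ∘ chartAt E4 x) (F' := id)
    (eventually_of_mem (chart_source_mem_nhds E4 x) fun _ hy => (chartAt E4 x).left_inv hy),
    jm_id] at h1
  exact h1.symm

theorem gpull_ch_c0 (h : M → Mat) (x : M) : gpull (ch x) h (c0 x) = h x := by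
  rw [gpull, jm_ch_c0, ch_c0, transpose_one, Matrix.one_mul, Matrix.mul_one]

theorem gpullV_ch_c0 (X : M → Fin 4 → ℝ) (x : M) : gpullV (ch x) X (c0 x) = X x := by
  rw [gpullV, jm_ch_c0, ch_c0, inv_one, one_mulVec]

/-- Transition from a patch to a chart. -/
theorem Pt.trs_chart {π : E4 → M} {U : Set E4} (h : Pt π U) (x : M) :
    Trs π (ch x) (chartAt E4 x).target (chartAt E4 x ∘ π) (U ∩ π ⁻¹' (chartAt E4 x).source) := by
  have ho := h.continuousOn.isOpen_inter_preimage h.isOpen (chartAt E4 x).open_source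
  have h1 := h.mono ho inter_subset_left
  exact ⟨h1, pt_ch x, ((pt_chart x).comp h1 fun _ hy => hy.2).ldif
    fun _ hy => (chartAt E4 x).map_source hy.2, fun _ hy => (chartAt E4 x).left_inv hy.2⟩

/-- A patch is locally the inverse of a smooth chart. -/
theorem Pt.exists_inv {π : E4 → M} {U : Set E4} (h : Pt π U) {y : E4} (hy : y ∈ U) :
    ∃ e : OpenPartialHomeomorph E4 M, (∀ z ∈ e.source, e z = π z) ∧ y ∈ e.source ∧ e.source ⊆ U ∧
      Pt e.symm e.target := by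
  have h1 := h.trs_chart (π y)
  obtain ⟨e, he, h2, h3, h4⟩ := h1.ld.exists_inv ⟨hy, mem_chart_source E4 (π y)⟩
  have h5 : ∀ z ∈ e.source, (chartAt E4 (π y)).symm (e z) = π z := fun z hz => by
    rw [he]
    exact h1.eq z (h3 hz)
  have h6 : ∀ z ∈ (e.trans (chartAt E4 (π y)).symm).source,
      (e.trans (chartAt E4 (π y)).symm) z = π z := fun z hz => h5 z hz.1
  refine ⟨e.trans (chartAt E4 (π y)).symm, h6, ⟨h2, ?_⟩, fun z hz => (h3 hz.1).1, ?_⟩
  · have h7 : e y ∈ (chartAt E4 (π y)).target := he ▸ h1.ld.maps (h3 h2)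
    exact h7
  · refine pt_of_inverse (F' := π) (e.trans (chartAt E4 (π y)).symm).open_target ?_ ?_ ?_
    · exact (contMDiffOn_iff_contDiffOn.2 h4).comp
        ((pt_chart (π y)).smooth.mono fun _ hz => hz.1) fun _ hz => hz.2
    · exact fun z hz => h.mdiff (h3 ((e.trans _).map_target hz).1).1
    · exact fun z hz => (h6 _ ((e.trans _).map_target hz)).symm.trans ((e.trans _).right_inv hz)

/-- Transition between two patches. -/
theorem Pt.exists_trs {π π' : E4 → M} {U U' : Set E4} (h : Pt π U) (h' : Pt π' U') {y y' : E4}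
    (hy : y ∈ U) (hy' : y' ∈ U') (e : π y = π' y') :
    ∃ τ V, Trs π π' U' τ V ∧ y ∈ V ∧ V ⊆ U ∧ τ y = y' := by
  obtain ⟨E, h1, h2, h3, h4⟩ := h'.exists_inv hy'
  have ho := h.continuousOn.isOpen_inter_preimage h.isOpen E.open_target
  have h5 := h.mono ho inter_subset_left
  have h6 : π y = E y' := e.trans (h1 y' h2).symm
  refine ⟨E.symm ∘ π, U ∩ π ⁻¹' E.target, ⟨h5, h', (h4.comp h5 fun _ hz => hz.2).ldif
    fun _ hz => h3 (E.map_target hz.2), fun z hz => ?_⟩, ⟨hy, ?_⟩, inter_subset_left, ?_⟩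
  · exact (h1 _ (E.map_target hz.2)).symm.trans (E.right_inv hz.2)
  · rw [mem_preimage, h6]
    exact E.map_source h2
  · rw [Function.comp_apply, h6, E.left_inv h2]

theorem Pt.image_mem_nhds {π : E4 → M} {U : Set E4} (h : Pt π U) {y : E4} (hy : y ∈ U)
    {V : Set E4} (hV : V ∈ 𝓝 y) : π '' V ∈ 𝓝 (π y) := by
  obtain ⟨e, h1, h2, -, -⟩ := h.exists_inv hy
  rw [← h1 y h2]
  refine mem_of_superset (e.image_mem_nhds h2 (inter_mem hV (e.open_source.mem_nhds h2))) ?_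
  rintro _ ⟨z, hz, rfl⟩
  exact ⟨z, hz.1, (h1 z hz.2).symm⟩

theorem Pt.isOpen_image {π : E4 → M} {U : Set E4} (h : Pt π U) {V : Set E4} (hV : IsOpen V)
    (hVU : V ⊆ U) : IsOpen (π '' V) := by
  refine isOpen_iff_mem_nhds.2 ?_
  rintro _ ⟨z, hz, rfl⟩
  exact h.image_mem_nhds (hVU hz) (hV.mem_nhds hz)

theorem Pt.map_nhds {π : E4 → M} {U : Set E4} (h : Pt π U) {y : E4} (hy : y ∈ U) :
    map π (𝓝 y) = 𝓝 (π y) :=
  le_antisymm (h.continuousAt hy) fun _ hs =>
    mem_of_superset (h.image_mem_nhds hy hs) (image_preimage_subset _ _)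

theorem Pt.exists_injOn {π : E4 → M} {U : Set E4} (h : Pt π U) {y : E4} (hy : y ∈ U) :
    ∃ V, IsOpen V ∧ y ∈ V ∧ V ⊆ U ∧ InjOn π V := by
  obtain ⟨e, h1, h2, h3, -⟩ := h.exists_inv hy
  exact ⟨e.source, e.open_source, h2, h3, e.injOn.congr h1⟩

/-- Continuity of a map out of `M` is tested in a patch. -/
theorem Pt.continuousAt_of {Y : Type} [TopologicalSpace Y] {π : E4 → M} {U : Set E4} (h : Pt π U)
    {y : E4} (hy : y ∈ U) {f : M → Y} (hf : ContinuousAt (f ∘ π) y) : ContinuousAt f (π y) := by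
  rw [ContinuousAt, ← h.map_nhds hy, tendsto_map'_iff]
  exact hf

/-- Smoothness of a map out of `M` is tested in a patch. -/
theorem Pt.smoothAt_of {E' H' Y : Type} [NormedAddCommGroup E'] [NormedSpace ℝ E']
    [TopologicalSpace H'] {I' : ModelWithCorners ℝ E' H'} [TopologicalSpace Y] [ChartedSpace H' Y]
    {π : E4 → M} {U : Set E4} (h : Pt π U) {y : E4} (hy : y ∈ U) {f : M → Y}
    (hf : ContMDiffAt (𝓡 4) I' ∞ (f ∘ π) y) : ContMDiffAt (𝓡 4) I' ∞ f (π y) := by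
  obtain ⟨e, h1, h2, h3, h4⟩ := h.exists_inv hy
  have h5 : π y ∈ e.target := h1 y h2 ▸ e.map_source h2
  have h6 : e.symm (π y) = y := by rw [← h1 y h2, e.left_inv h2]
  refine (ContMDiffAt.comp (π y) (h6.symm ▸ hf) (h4.smoothAt h5)).congr_of_eventuallyEq ?_
  filter_upwards [e.open_target.mem_nhds h5] with z hz
  rw [Function.comp_apply, Function.comp_apply, ← h1 _ (e.map_target hz), e.right_inv hz]

/-- A tensor field defined in the chart at each point by a natural local formula is given by this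
formula in every patch. -/
theorem nat_T {T : M → Mat} {L : (E4 → M) → Tn} (hT : ∀ x, T x = L (ch x) (c0 x))
    (hL : ∀ {π π' U' τ V}, Trs π π' U' τ V → ∀ y ∈ V, L π y = pull τ (L π') y)
    {π : E4 → M} {U : Set E4} (h : Pt π U) {y : E4} (hy : y ∈ U) : gpull π T y = L π y := by
  have h1 := h.trs_chart (π y)
  have h2 : y ∈ U ∩ π ⁻¹' (chartAt E4 (π y)).source := ⟨hy, mem_chart_source E4 _⟩
  rw [hL h1 y h2, h1.gpull h2, pull, pull]
  exact congrArg (fun X => _ * X * _) ((gpull_ch_c0 T (π y)).trans (hT _))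

theorem nat_V {T : M → Fin 4 → ℝ} {L : (E4 → M) → Vn} (hT : ∀ x, T x = L (ch x) (c0 x))
    (hL : ∀ {π π' U' τ V}, Trs π π' U' τ V → ∀ y ∈ V, L π y = pullV τ (L π') y)
    {π : E4 → M} {U : Set E4} (h : Pt π U) {y : E4} (hy : y ∈ U) : gpullV π T y = L π y := by
  have h1 := h.trs_chart (π y)
  have h2 : y ∈ U ∩ π ⁻¹' (chartAt E4 (π y)).source := ⟨hy, mem_chart_source E4 _⟩
  rw [hL h1 y h2, h1.gpullV h2, pullV, pullV]
  exact congrArg (fun X => _ *ᵥ X) ((gpullV_ch_c0 T (π y)).trans (hT _))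

theorem nat_F {T : M → ℝ} {L : (E4 → M) → Fn} (hT : ∀ x, T x = L (ch x) (c0 x))
    (hL : ∀ {π π' U' τ V}, Trs π π' U' τ V → ∀ y ∈ V, L π y = L π' (τ y))
    {π : E4 → M} {U : Set E4} (h : Pt π U) {y : E4} (hy : y ∈ U) : T (π y) = L π y := by
  rw [hL (h.trs_chart (π y)) y ⟨hy, mem_chart_source E4 _⟩, hT]
  rfl

end Pool.Agent.Lib.MP_94aef8_gt
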