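import Pool.Agent.Lib.MP_94aef8_gt.C.Smooth

/-!
The volume measure in patches. Port of `Lib/MP_40de08_gt/Vol.lean` (graded repository).
-/

open scoped Manifold ContDiff Topology ENNReal
open Matrix Filter Set MeasureTheory

namespace Pool.Agent.Lib.MP_94aef8_gt

theorem vol_meas {α β : Type} [TopologicalSpace α] [TopologicalSpace β] [MeasurableSpace α]
    [MeasurableSpace β] [BorelSpace α] [BorelSpace β] {f : α → β} {t : Set α}
    (hf : ContinuousOn f t) (ht : MeasurableSet t) {s : Set β} (hs : MeasurableSet s) :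
    MeasurableSet (t ∩ f ⁻¹' s) := by
  rw [← Subtype.image_preimage_coe]
  exact ht.subtype_image (hf.domRestrict.measurable hs)

variable {M : Type} [TopologicalSpace M] [ChartedSpace E4 M] [IsManifold (𝓡 4) ∞ M]
  [CompactSpace M] [MeasurableSpace M] [BorelSpace M]
variable {π : E4 → M} {U D : Set E4} {g : M → Mat}

omit [ChartedSpace E4 M] [IsManifold (𝓡 4) ∞ M] [CompactSpace M] in
theorem vol_map_apply (hπ : ContinuousOn π D) (hD : MeasurableSet D) (f : E4 → ℝ≥0∞) {s : Set M}
    (hs : MeasurableSet s) :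
    Measure.map π ((volume.restrict D).withDensity f) s = ∫⁻ p in D ∩ π ⁻¹' s, f p := by
  rw [Measure.map_apply_of_aemeasurable
    ((hπ.aemeasurable hD).mono_ac (withDensity_absolutelyContinuous _ _)) hs, withDensity_apply',
    Measure.restrict_restrict' hD, inter_comm]

/-- The measure of the chart at `x`. -/
noncomputable def volC (g : M → Mat) (x : M) : Measure M :=
  Measure.map (ch x) ((volume.restrict (chartAt E4 x).target).withDensity
    fun p => ENNReal.ofReal (rho (gpull (ch x) g) p))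

omit [CompactSpace M] in
theorem volC_apply (g : M → Mat) (x : M) {s : Set M} (hs : MeasurableSet s) : volC g x s =
    ∫⁻ p in (chartAt E4 x).target ∩ ch x ⁻¹' s, ENNReal.ofReal (rho (gpull (ch x) g) p) :=
  vol_map_apply (pt_ch x).continuousOn (chartAt E4 x).open_target.measurableSet _ hs

omit [CompactSpace M] in
/-- Change of variables `τ = chartAt x ∘ π` (`Pt.trs_chart`, `Trs.gpull`, `lin_sqrt_conj`,
`lintegral_image_eq_lintegral_abs_det_fderiv_mul`, `cmat_det`, `jac_eq_cmat`); the set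
`τ '' D` is measurable, and `π '' D = source ∩ chartAt x ⁻¹' (τ '' D)`. -/
theorem Pt.volC_image (hπ : Pt π U) (hD : MeasurableSet D) (hDU : D ⊆ U) (hi : InjOn π D)
    (g : M → Mat) (x : M) (hx : π '' D ⊆ (chartAt E4 x).source) : MeasurableSet (π '' D) ∧
      volC g x (π '' D) = ∫⁻ y in D, ENNReal.ofReal (rho (gpull π g) y) := by
  have t := hπ.trs_chart x
  have hV : D ⊆ U ∩ π ⁻¹' (chartAt E4 x).source := fun y hy => ⟨hDU hy, hx ⟨y, hy, rfl⟩⟩
  have hi' : InjOn (chartAt E4 x ∘ π) D := fun p hp q hq e =>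
    hi hp hq ((chartAt E4 x).injOn (hV hp).2 (hV hq).2 e)
  have hd := fun p (hp : p ∈ D) => (t.ld.diffAt (hV hp)).hasFDerivAt.hasFDerivWithinAt (s := D)
  have hm : MeasurableSet ((chartAt E4 x ∘ π) '' D) := measurable_image_of_fderivWithin hD hd hi'
  have e1 : π '' D = (chartAt E4 x).source ∩ chartAt E4 x ⁻¹' ((chartAt E4 x ∘ π) '' D) := by
    ext z
    constructor
    · rintro ⟨y, hy, rfl⟩
      exact ⟨(hV hy).2, y, hy, rfl⟩
    · rintro ⟨hz, y, hy, e⟩
      exact ⟨y, hy, (chartAt E4 x).injOn (hV hy).2 hz e⟩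
  have hm' : MeasurableSet (π '' D) := e1 ▸
    vol_meas (chartAt E4 x).continuousOn (chartAt E4 x).open_source.measurableSet hm
  have e2 : (chartAt E4 x).target ∩ ch x ⁻¹' (π '' D) = (chartAt E4 x ∘ π) '' D := by
    ext q
    constructor
    · rintro ⟨hq, y, hy, e⟩
      exact ⟨y, hy, (congrArg (chartAt E4 x) e).trans ((chartAt E4 x).right_inv hq)⟩
    · rintro ⟨y, hy, rfl⟩
      exact ⟨t.ld.maps (hV hy), y, hy, (t.eq y (hV hy)).symm⟩
  refine ⟨hm', ?_⟩
  rw [volC_apply g x hm', e2, lintegral_image_eq_lintegral_abs_det_fderiv_mul volume hD hd hi']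
  refine setLIntegral_congr_fun hD fun p hp => ?_
  rw [← ENNReal.ofReal_mul (abs_nonneg _), cmat_det, ← jac_eq_cmat (t.ld.diffAt (hV hp)), rho, rho,
    t.gpull (hV hp), pull, lin_sqrt_conj]

omit [CompactSpace M] in
theorem vol_aux1 (g : M → Mat) (x : M) {s : Set M} (hs : MeasurableSet s) :
    volC g x (s ∩ (chartAt E4 x).source) = volC g x s := by
  rw [volC_apply g x hs, volC_apply g x (hs.inter (chartAt E4 x).open_source.measurableSet)]
  refine congrArg (fun t => ∫⁻ p in t, ENNReal.ofReal (rho (gpull (ch x) g) p))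
    (Set.ext fun p => ?_)
  exact ⟨fun h => ⟨h.1, h.2.1⟩, fun h => ⟨h.1, h.2, (chartAt E4 x).map_target h.1⟩⟩

omit [CompactSpace M] in
theorem vol_aux2 (g : M → Mat) (x y : M) {s : Set M} (hs : MeasurableSet s)
    (h1 : s ⊆ (chartAt E4 x).source) (h2 : s ⊆ (chartAt E4 y).source) :
    volC g x s = volC g y s := by
  have e : ch y '' ((chartAt E4 y).target ∩ ch y ⁻¹' s) = s := by
    refine Subset.antisymm (by rintro _ ⟨p, hp, rfl⟩; exact hp.2) fun z hz => ?_
    have e1 : ch y (chartAt E4 y z) = z := (chartAt E4 y).left_inv (h2 hz)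
    exact ⟨chartAt E4 y z, ⟨(chartAt E4 y).map_source (h2 hz), by rwa [mem_preimage, e1]⟩, e1⟩
  have h3 := ((pt_ch y).volC_image (vol_meas (pt_ch y).continuousOn
    (chartAt E4 y).open_target.measurableSet hs) inter_subset_left
    ((chartAt E4 y).symm.injOn.mono inter_subset_left) g x (e.symm ▸ h1)).2
  rw [e] at h3
  rw [h3, volC_apply g y hs]

omit [CompactSpace M] in
theorem vol_aux3 (g : M → Mat) (x y : M) :
    (volC g x).restrict (chartAt E4 y).source = (volC g y).restrict (chartAt E4 x).source := by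
  ext s hs
  have m := (chartAt E4 x).open_source.measurableSet
  have m' := (chartAt E4 y).open_source.measurableSet
  rw [Measure.restrict_apply hs, Measure.restrict_apply hs, ← vol_aux1 g x (hs.inter m'),
    ← vol_aux1 g y (hs.inter m), inter_right_comm]
  exact vol_aux2 g x y ((hs.inter m).inter m') (fun _ h => h.1.2) fun _ h => h.2

omit [CompactSpace M] in
theorem volT_restrict (g : M → Mat) (x : M) :
    (volT g).restrict (chartAt E4 x).source = volC g x := by
  have m := (chartAt E4 x).open_source.measurableSet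
  have h0 : (volC g x).restrict (chartAt E4 x).source = volC g x := by
    ext s hs
    rw [Measure.restrict_apply hs, vol_aux1 g _ hs]
  have h1 : ∀ y, volC g y ≤ volT g := fun y => le_iSup (fun y => volC g y) y
  refine le_antisymm ?_ (h0.symm.le.trans (Measure.restrict_mono subset_rfl (h1 x)))
  have h2 : volT g ≤ volC g x + (volT g).restrict (chartAt E4 x).sourceᶜ := by
    refine iSup_le (f := fun y => volC g y) fun y => ?_
    rw [← Measure.restrict_add_restrict_compl (μ := volC g y) m, vol_aux3 g y x]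
    exact add_le_add Measure.restrict_le_self (Measure.restrict_mono subset_rfl (h1 y))
  refine (Measure.restrict_mono subset_rfl h2).trans_eq ?_
  rw [Measure.restrict_add, h0, Measure.restrict_restrict m, inter_compl_self,
    Measure.restrict_empty, add_zero]

omit [IsManifold (𝓡 4) ∞ M] [BorelSpace M] in
theorem vol_ext {μ ν : Measure M}
    (h : ∀ x, μ.restrict (chartAt E4 x).source = ν.restrict (chartAt E4 x).source) : μ = ν := by
  obtain ⟨t, -, ht⟩ := isCompact_univ.elim_nhds_subcover (fun x : M => (chartAt E4 x).source)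
    fun x _ => chart_source_mem_nhds E4 x
  exact Measure.ext_of_biUnion_eq_univ t.countable_toSet (univ_subset_iff.1 ht) fun x _ => h x

omit [MeasurableSpace M] [BorelSpace M] [CompactSpace M] in
/-- A countable cover of `U` by open sets on which `π` is injective with image in a chart
(`Pt.exists_injOn`, `TopologicalSpace.countable_cover_nhdsWithin` or Lindelof). -/
theorem Pt.exists_cover (hπ : Pt π U) : ∃ V : ℕ → Set E4, (∀ n, IsOpen (V n)) ∧ (∀ n, V n ⊆ U) ∧
    U ⊆ ⋃ n, V n ∧ (∀ n, InjOn π (V n)) ∧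
      ∀ n, V n = ∅ ∨ ∃ x : M, π '' V n ⊆ (chartAt E4 x).source := by
  rcases U.eq_empty_or_nonempty with rfl | hne
  · exact ⟨fun _ => ∅, fun _ => isOpen_empty, fun _ => Subset.rfl, empty_subset _,
      fun _ => injOn_empty _, fun _ => Or.inl rfl⟩
  have h1 : ∀ y : U, ∃ V, IsOpen V ∧ y.1 ∈ V ∧ V ⊆ U ∧ InjOn π V ∧
      π '' V ⊆ (chartAt E4 (π y)).source := fun y => by
    obtain ⟨V, a, b, c, d⟩ := hπ.exists_injOn y.2
    refine ⟨V ∩ π ⁻¹' (chartAt E4 (π y)).source,
      (hπ.continuousOn.mono c).isOpen_inter_preimage a (chartAt E4 _).open_source,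
      ⟨b, mem_chart_source E4 _⟩, inter_subset_left.trans c, d.mono inter_subset_left, ?_⟩
    rintro _ ⟨z, hz, rfl⟩
    exact hz.2
  choose V a b c d e using h1
  obtain ⟨T, hT, hTV⟩ := TopologicalSpace.isOpen_iUnion_countable V a
  have h2 : U ⊆ ⋃ i ∈ T, V i := fun y hy => hTV ▸ mem_iUnion.2 ⟨⟨y, hy⟩, b _⟩
  have h3 : T.Nonempty := by
    obtain ⟨y, hy⟩ := hne
    obtain ⟨i, hi, -⟩ := mem_iUnion₂.1 (h2 hy)
    exact ⟨i, hi⟩
  obtain ⟨u, rfl⟩ := hT.exists_eq_range h3
  exact ⟨fun n => V (u n), fun _ => a _, fun _ => c _, by simpa using h2, fun _ => d _,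
    fun n => Or.inr ⟨_, e _⟩⟩

omit [CompactSpace M] in
theorem vol_aux4 (hπ : Pt π U) (hD : MeasurableSet D) (hDU : D ⊆ U) (g : M → Mat) :
    ∃ E : ℕ → Set E4, (∀ n, MeasurableSet (E n)) ∧ Pairwise (Function.onFun Disjoint E) ∧
      ⋃ n, E n = D ∧ (∀ n, InjOn π (E n)) ∧ ∀ n, MeasurableSet (π '' E n) ∧
        volT g (π '' E n) = ∫⁻ y in E n, ENNReal.ofReal (rho (gpull π g) y) := by
  obtain ⟨V, a, b, c, d, e⟩ := hπ.exists_cover
  have m : ∀ n, MeasurableSet (D ∩ disjointed V n) := fun n =>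
    hD.inter (MeasurableSet.disjointed (fun n => (a n).measurableSet) n)
  have s : ∀ n, D ∩ disjointed V n ⊆ V n := fun n => inter_subset_right.trans (disjointed_subset V n)
  refine ⟨fun n => D ∩ disjointed V n, m, fun i j hij =>
    (disjoint_disjointed V hij).mono inter_subset_right inter_subset_right, ?_,
    fun n => (d n).mono (s n), fun n => ?_⟩
  · rw [← inter_iUnion, iUnion_disjointed, inter_eq_left]
    exact hDU.trans c
  · rcases e n with e | ⟨x, e⟩
    · simp [subset_eq_empty (s n) e]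
    · have h1 := (image_mono (s n)).trans e
      obtain ⟨h2, h3⟩ := hπ.volC_image (m n) (inter_subset_left.trans hDU) ((d n).mono (s n)) g x h1
      exact ⟨h2, by rw [← h3, ← volT_restrict, Measure.restrict_eq_self _ h1]⟩

omit [CompactSpace M] in
theorem Pt.measurableSet_image (hπ : Pt π U) (hD : MeasurableSet D) (hDU : D ⊆ U) :
    MeasurableSet (π '' D) := by
  obtain ⟨E, -, -, rfl, -, h⟩ := vol_aux4 hπ hD hDU 0
  rw [image_iUnion]
  exact MeasurableSet.iUnion fun n => (h n).1

omit [CompactSpace M] in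
/-- Cut `D` by `disjointed V`. -/
theorem Pt.vol_image (hπ : Pt π U) (hD : MeasurableSet D) (hDU : D ⊆ U) (hi : InjOn π D)
    (g : M → Mat) : volT g (π '' D) = ∫⁻ y in D, ENNReal.ofReal (rho (gpull π g) y) := by
  obtain ⟨E, m, d, rfl, -, h⟩ := vol_aux4 hπ hD hDU g
  rw [image_iUnion, measure_iUnion (fun i j hij =>
    (hi.image_inter (subset_iUnion E i) (subset_iUnion E j) ▸ image_eq_empty.2 (d hij).inter_eq :
      π '' E i ∩ π '' E j = ∅) |> disjoint_iff_inter_eq_empty.2)
    fun n => (h n).1, lintegral_iUnion m d]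
  exact tsum_congr fun n => (h n).2

omit [IsManifold (𝓡 4) ∞ M] [CompactSpace M] in
theorem Pt.aemeasurable (hπ : Pt π U) (hD : MeasurableSet D) (hDU : D ⊆ U) :
    AEMeasurable π (volume.restrict D) :=
  (hπ.continuousOn.mono hDU).aemeasurable hD

omit [CompactSpace M] [MeasurableSpace M] [BorelSpace M] in
theorem Pt.continuousOn_rho (hπ : Pt π U) (hg : GoodT g) : ContinuousOn (rho (gpull π g)) U :=
  (bs_sm_rho (hg.patch hπ)).continuousOn

omit [IsManifold (𝓡 4) ∞ M] [CompactSpace M] [MeasurableSpace M] [BorelSpace M] in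
theorem Pt.rho_pos (hπ : Pt π U) (hg : GoodT g) {y : E4} (hy : y ∈ U) :
    0 < rho (gpull π g) y := Real.sqrt_pos.2 (hπ.posDef hy (hg.pos _)).det_pos

omit [IsManifold (𝓡 4) ∞ M] [CompactSpace M] in
theorem vol_aux_b1 (hπ : Pt π U) (hD : MeasurableSet D) (hDU : D ⊆ U) (f : E4 → ℝ≥0∞) :
    AEMeasurable π ((volume.restrict D).withDensity f) :=
  (hπ.aemeasurable hD hDU).mono_ac (withDensity_absolutelyContinuous _ _)

omit [CompactSpace M] [MeasurableSpace M] [BorelSpace M] in
theorem vol_aux_b2 (hπ : Pt π U) (hD : MeasurableSet D) (hDU : D ⊆ U) (hg : GoodT g) :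
    AEMeasurable (fun y => ENNReal.ofReal (rho (gpull π g) y)) (volume.restrict D) :=
  (((hπ.continuousOn_rho hg).mono hDU).aemeasurable hD).ennreal_ofReal

omit [CompactSpace M] in
theorem Pt.restrict_image (hπ : Pt π U) (hD : MeasurableSet D) (hDU : D ⊆ U) (hi : InjOn π D)
    (g : M → Mat) : (volT g).restrict (π '' D) =
      Measure.map π ((volume.restrict D).withDensity
        fun y => ENNReal.ofReal (rho (gpull π g) y)) := by
  ext s hs
  have m : MeasurableSet (D ∩ π ⁻¹' s) := by
    rw [← Subtype.image_preimage_coe]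
    exact hD.subtype_image ((hπ.continuousOn.mono hDU).domRestrict.measurable hs)
  rw [Measure.map_apply_of_aemeasurable (vol_aux_b1 hπ hD hDU _) hs, withDensity_apply',
    Measure.restrict_restrict' hD, inter_comm _ D, Measure.restrict_apply hs, inter_comm,
    ← image_inter_preimage, hπ.vol_image m (inter_subset_left.trans hDU)
      (hi.mono inter_subset_left)]

omit [CompactSpace M] in
theorem Pt.lint_eq (hπ : Pt π U) (hD : MeasurableSet D) (hDU : D ⊆ U) (hi : InjOn π D)
    (hg : GoodT g) {F : M → ℝ≥0∞} (hF : Measurable F) : ∫⁻ x in π '' D, F x ∂volT g =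
      ∫⁻ y in D, ENNReal.ofReal (rho (gpull π g) y) * F (π y) := by
  rw [hπ.restrict_image hD hDU hi, lintegral_map' hF.aemeasurable (vol_aux_b1 hπ hD hDU _)]
  exact lintegral_withDensity_eq_lintegral_mul₀ (vol_aux_b2 hπ hD hDU hg)
    (hF.comp_aemeasurable (hπ.aemeasurable hD hDU))

omit [CompactSpace M] in
theorem Pt.lint_le (hπ : Pt π U) (hD : MeasurableSet D) (hDU : D ⊆ U) (hg : GoodT g)
    {F : M → ℝ≥0∞} (hF : Measurable F) : ∫⁻ x in π '' D, F x ∂volT g ≤
      ∫⁻ y in D, ENNReal.ofReal (rho (gpull π g) y) * F (π y) := by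
  obtain ⟨V, h1, -, h2, h3, -⟩ := hπ.exists_cover
  have m : ∀ n, MeasurableSet (D ∩ disjointed V n) := fun n =>
    hD.inter (MeasurableSet.disjointed (fun n => (h1 n).measurableSet) n)
  have e : D = ⋃ n, D ∩ disjointed V n := by
    rw [← inter_iUnion, iUnion_disjointed, inter_eq_left.2 (hDU.trans h2)]
  rw [e, image_iUnion, lintegral_iUnion m fun i j h =>
    (disjoint_disjointed V h).mono inter_subset_right inter_subset_right]
  exact (lintegral_iUnion_le _ _).trans_eq (tsum_congr fun n => hπ.lint_eq (m n)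
    (inter_subset_left.trans hDU)
    ((h3 n).mono (inter_subset_right.trans (disjointed_subset V n))) hg hF)

omit [CompactSpace M] in
theorem Pt.int_eq (hπ : Pt π U) (hD : MeasurableSet D) (hDU : D ⊆ U) (hi : InjOn π D)
    (hg : GoodT g) {F : M → ℝ} (hF : Measurable F) :
    ∫ x in π '' D, F x ∂volT g = ∫ y in D, rho (gpull π g) y * F (π y) := by
  rw [hπ.restrict_image hD hDU hi, integral_map (vol_aux_b1 hπ hD hDU _) hF.aestronglyMeasurable,
    integral_withDensity_eq_integral_toReal_smul₀ (vol_aux_b2 hπ hD hDU hg)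
      (Eventually.of_forall fun _ => ENNReal.ofReal_lt_top)]
  refine integral_congr_ae (Eventually.of_forall fun p => ?_)
  exact congrArg (· * F (π p)) (ENNReal.toReal_ofReal (Real.sqrt_nonneg _))

omit [CompactSpace M] in
theorem Pt.int_eq_of_zero (hπ : Pt π U) (hi : InjOn π U) (hg : GoodT g) {F : M → ℝ}
    (hF : Measurable F) (h0 : ∀ x, x ∉ π '' U → F x = 0) :
    ∫ x, F x ∂volT g = ∫ y in U, rho (gpull π g) y * F (π y) := by
  rw [← hπ.int_eq hπ.isOpen.measurableSet subset_rfl hi hg hF,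
    setIntegral_eq_integral_of_forall_compl_eq_zero h0]

omit [CompactSpace M] in
theorem Pt.null_image (hπ : Pt π U) (hD : MeasurableSet D) (hDU : D ⊆ U) (hg : GoodT g)
    (h0 : volume D = 0) : volT g (π '' D) = 0 := by
  have h := hπ.lint_le hD hDU hg (F := fun _ => 1) measurable_const
  rwa [setLIntegral_one, setLIntegral_measure_zero _ _ h0, nonpos_iff_eq_zero] at h

end Pool.Agent.Lib.MP_94aef8_gt
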